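import Mathlib

/-!
# MP_640417_ag, Fg, module AltC: a lemma on representations of symmetric groups

A variant of `Orth/AltS.lean` (`alt_descent`): only the variables in `S` are permuted, and the constant is `c`.
`Q(m)`: every `x ∈ Inv` for which there is `s ⊆ S`, `s.card = m`, with `act (swap a b) x = - x` for all different `a, b ∈ s`, lies in `P`.
`Q(N)` is `hN`. `Q(m + 1) → Q(m)` for `1 ≤ m < N`: for `j ∈ S \ s` put `h_j = x - ∑_{i ∈ s} act (swap i j) x ∈ Inv`. It is alternating on
`insert j s`, so in `P`. Sum `hJ` over `i ∈ s`: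
`m c x - m (m - 1) x + ∑_{j ∈ S \ s} ∑_{i ∈ s} act (swap i j) x ∈ P`, so `(m c - m (m - 1) + (|S| - m)) x ∈ P`. (If `m > |S|` there is no `s`.)
-/

set_option autoImplicit false

namespace Pool.Agent.Lib.MP_640417_ag.Fg

open Module

/-- The alternation over the transpositions `(i j)`, `i ∈ s`, is alternating on `insert j s`. -/
private theorem alt_insert {K X : Type} [Field K] [AddCommGroup X] [Module K X] {k : ℕ}
    (act : Equiv.Perm (Fin k) →* Module.End K X) (x : X) (s : Finset (Fin k))
    (hx : ∀ a ∈ s, ∀ b ∈ s, a ≠ b → act (Equiv.swap a b) x = - x) (j : Fin k) (hj : j ∉ s) :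
    ∀ a ∈ insert j s, ∀ b ∈ insert j s, a ≠ b →
      act (Equiv.swap a b) (x - ∑ i ∈ s, act (Equiv.swap i j) x) =
        - (x - ∑ i ∈ s, act (Equiv.swap i j) x) := by
  have hmul : ∀ (π ρ : Equiv.Perm (Fin k)) (y : X), act π (act ρ y) = act (π * ρ) y := by
    intro π ρ y
    rw [map_mul, Module.End.mul_apply]
  -- two elements of `s`
  have h1 : ∀ a ∈ s, ∀ b ∈ s, a ≠ b →
      act (Equiv.swap a b) (x - ∑ i ∈ s, act (Equiv.swap i j) x) =
        - (x - ∑ i ∈ s, act (Equiv.swap i j) x) := by
    intro a ha b hb hab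
    have hja : j ≠ a := fun h => hj (h ▸ ha)
    have hjb : j ≠ b := fun h => hj (h ▸ hb)
    have h2 : ∀ i ∈ s, act (Equiv.swap a b) (act (Equiv.swap i j) x) =
        - act (Equiv.swap (Equiv.swap a b i) j) x := by
      intro i _
      rw [hmul, Equiv.mul_swap_eq_swap_mul, Equiv.swap_apply_of_ne_of_ne hja hjb, ← hmul,
        hx a ha b hb hab, map_neg]
    have h3 : ∑ i ∈ s, act (Equiv.swap (Equiv.swap a b i) j) x =
        ∑ i ∈ s, act (Equiv.swap i j) x := by
      refine Finset.sum_equiv (Equiv.swap a b) ?_ (fun i _ => rfl)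
      intro i
      by_cases hia : i = a
      · subst hia
        rw [Equiv.swap_apply_left]
        exact iff_of_true ha hb
      · by_cases hib : i = b
        · subst hib
          rw [Equiv.swap_apply_right]
          exact iff_of_true hb ha
        · rw [Equiv.swap_apply_of_ne_of_ne hia hib]
    rw [map_sub, map_sum, Finset.sum_congr rfl h2, Finset.sum_neg_distrib, h3,
      hx a ha b hb hab]
    abel
  -- the new element
  have h4 : ∀ b ∈ s, act (Equiv.swap j b) (x - ∑ i ∈ s, act (Equiv.swap i j) x) =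
        - (x - ∑ i ∈ s, act (Equiv.swap i j) x) := by
    intro b hb
    have hjb : j ≠ b := fun h => hj (h ▸ hb)
    have h5 : ∀ i ∈ s.erase b, act (Equiv.swap j b) (act (Equiv.swap i j) x) =
        - act (Equiv.swap i j) x := by
      intro i hi
      have hib := Finset.ne_of_mem_erase hi
      have his := Finset.mem_of_mem_erase hi
      have h6 : Equiv.swap i j * Equiv.swap i b = Equiv.swap j b * Equiv.swap i j := by
        rw [Equiv.mul_swap_eq_swap_mul, Equiv.swap_apply_left,
          Equiv.swap_apply_of_ne_of_ne hib.symm hjb.symm]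
      rw [hmul, ← h6, ← hmul, hx i his b hb hib, map_neg]
    have h7 : act (Equiv.swap j b) (act (Equiv.swap b j) x) = x := by
      rw [hmul, Equiv.swap_comm b j, Equiv.swap_mul_self, map_one, Module.End.one_apply]
    rw [map_sub, map_sum, ← Finset.add_sum_erase s _ hb, Finset.sum_congr rfl h5, h7,
      Finset.sum_neg_distrib, ← Finset.add_sum_erase s (fun i => act (Equiv.swap i j) x) hb,
      Equiv.swap_comm b j]
    abel
  intro a ha b hb hab
  rcases Finset.mem_insert.1 ha with ha1 | ha1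
  · rcases Finset.mem_insert.1 hb with hb1 | hb1
    · exact absurd (ha1.trans hb1.symm) hab
    · rw [ha1]
      exact h4 b hb1
  · rcases Finset.mem_insert.1 hb with hb1 | hb1
    · rw [hb1, Equiv.swap_comm a j]
      exact h4 a ha1
    · exact h1 a ha1 b hb1 hab

theorem alt_descent' {K X : Type} [Field K] [CharZero K] [AddCommGroup X] [Module K X] {k N : ℕ}
    (S : Finset (Fin k)) (hS : S.Nonempty) (hN1 : 0 < N)
    (act : Equiv.Perm (Fin k) →* Module.End K X) (P Inv : Submodule K X) (c : K)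
    (hI : ∀ i ∈ S, ∀ j ∈ S, ∀ x ∈ Inv, act (Equiv.swap i j) x ∈ Inv)
    (hc : ∀ m : ℕ, 1 ≤ m → m < N → m ≤ S.card →
      (m : K) * c - m * (m - 1) + ((S.card : K) - m) ≠ 0)
    (hJ : ∀ x ∈ Inv, ∀ i ∈ S, c • x + ∑ j ∈ S.erase i, act (Equiv.swap i j) x ∈ P)
    (hN : ∀ x ∈ Inv, ∀ s : Finset (Fin k), s ⊆ S → s.card = N →
      (∀ a ∈ s, ∀ b ∈ s, a ≠ b → act (Equiv.swap a b) x = - x) → x ∈ P) :
    ∀ x ∈ Inv, x ∈ P := by
  have step : ∀ m : ℕ, 1 ≤ m → m < N →
      (∀ x ∈ Inv, ∀ s : Finset (Fin k), s ⊆ S → s.card = m + 1 →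
        (∀ a ∈ s, ∀ b ∈ s, a ≠ b → act (Equiv.swap a b) x = - x) → x ∈ P) →
      ∀ x ∈ Inv, ∀ s : Finset (Fin k), s ⊆ S → s.card = m →
        (∀ a ∈ s, ∀ b ∈ s, a ≠ b → act (Equiv.swap a b) x = - x) → x ∈ P := by
    intro m hm1 hmN ih x hx s hsS hs halt
    -- the alternations
    have h1 : ∀ j ∈ S \ s, x - ∑ i ∈ s, act (Equiv.swap i j) x ∈ P := by
      intro j hj
      have hj' := Finset.mem_sdiff.1 hj
      refine ih _ (Inv.sub_mem hx (Inv.sum_mem fun i hi => hI i (hsS hi) j hj'.1 x hx))
        (insert j s) (Finset.insert_subset hj'.1 hsS) ?_ (alt_insert act x s halt j hj'.2)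
      rw [Finset.card_insert_of_notMem hj'.2, hs]
    have hmk : m ≤ S.card := by
      rw [← hs]
      exact Finset.card_le_card hsS
    have h2 := P.sum_mem h1
    rw [Finset.sum_sub_distrib, Finset.sum_const, Finset.card_sdiff_of_subset hsS, hs] at h2
    have h3 : ∀ i ∈ s, c • x + ((- ((m : K) - 1)) • x +
        ∑ j ∈ S \ s, act (Equiv.swap i j) x) ∈ P := by
      intro i hi
      have h4 := hJ x hx i (hsS hi)
      have h5 : ∑ j ∈ S.erase i, act (Equiv.swap i j) x =
          ∑ j ∈ s.erase i, act (Equiv.swap i j) x + ∑ j ∈ S \ s, act (Equiv.swap i j) x := by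
        rw [← Finset.sum_union]
        · refine Finset.sum_congr ?_ fun _ _ => rfl
          ext j
          simp only [Finset.mem_erase, Finset.mem_union, Finset.mem_sdiff]
          constructor
          · intro h
            by_cases hjs : j ∈ s
            · exact Or.inl ⟨h.1, hjs⟩
            · exact Or.inr ⟨h.2, hjs⟩
          · rintro (⟨h, h'⟩ | h)
            · exact ⟨h, hsS h'⟩
            · exact ⟨fun h' => h.2 (h' ▸ hi), h.1⟩
        · rw [Finset.disjoint_left]
          intro j hj hj'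
          exact (Finset.mem_sdiff.1 hj').2 (Finset.mem_of_mem_erase hj)
      have h6 : ∑ j ∈ s.erase i, act (Equiv.swap i j) x = (- ((m : K) - 1)) • x := by
        rw [Finset.sum_congr rfl fun j hj => halt i hi j (Finset.mem_of_mem_erase hj)
          (Finset.ne_of_mem_erase hj).symm, Finset.sum_const, Finset.card_erase_of_mem hi, hs,
          ← Nat.cast_smul_eq_nsmul K, Nat.cast_sub hm1, Nat.cast_one, smul_neg, neg_smul]
      rw [h5, h6] at h4
      exact h4
    have h7 := P.sum_mem h3
    rw [Finset.sum_add_distrib, Finset.sum_const, hs, Finset.sum_add_distrib, Finset.sum_const,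
      hs, Finset.sum_comm] at h7
    have h8 := P.add_mem h7 h2
    have h9 : m • (c • x) + (m • ((- ((m : K) - 1)) • x) +
        ∑ j ∈ S \ s, ∑ i ∈ s, act (Equiv.swap i j) x) +
        ((S.card - m) • x - ∑ j ∈ S \ s, ∑ i ∈ s, act (Equiv.swap i j) x) =
        ((m : K) * c - m * (m - 1) + ((S.card : K) - m)) • x := by
      rw [← Nat.cast_smul_eq_nsmul K m, ← Nat.cast_smul_eq_nsmul K m,
        ← Nat.cast_smul_eq_nsmul K (S.card - m), smul_smul, smul_smul, Nat.cast_sub hmk]
      have h10 : (m : K) * c - m * (m - 1) + ((S.card : K) - m) =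
          (m : K) * c + (m : K) * (- ((m : K) - 1)) + ((S.card : K) - m) := by
        ring
      rw [h10, add_smul, add_smul]
      abel
    rw [h9] at h8
    exact (P.smul_mem_iff (hc m hm1 hmN hmk)).1 h8
  have all : ∀ n : ℕ, ∀ m : ℕ, 1 ≤ m → m + n = N →
      ∀ x ∈ Inv, ∀ s : Finset (Fin k), s ⊆ S → s.card = m →
        (∀ a ∈ s, ∀ b ∈ s, a ≠ b → act (Equiv.swap a b) x = - x) → x ∈ P := by
    intro n
    induction n with
    | zero =>
      intro m _ hm x hx s hsS hs
      exact hN x hx s hsS (by omega)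
    | succ n ih =>
      intro m hm1 hm
      exact step m hm1 (by omega) (ih (m + 1) (by omega) (by omega))
  intro x hx
  obtain ⟨i0, hi0⟩ := hS
  refine all (N - 1) 1 le_rfl (by omega) x hx {i0} (Finset.singleton_subset_iff.2 hi0)
    (Finset.card_singleton _) ?_
  intro a ha b hb hab
  exact absurd ((Finset.mem_singleton.1 ha).trans (Finset.mem_singleton.1 hb).symm) hab

end Pool.Agent.Lib.MP_640417_ag.Fg
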