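import Pool.Agent.Lib.MP_640417_ag.Fg.ComF

/-!
# MP_640417_ag, Fg, module BaseL (200 lines): the Lefschetz Lie algebra over `K`

`lef_span`: `b` a basis of `K` over `F` (`Module.Free.chooseBasis`), `X = ∑ t, b t • (cp (b.coord t) X).baseChange K` (`sum_cp`, `Four/Span.lean`), `cp ..` commutes with the commutant (`cp_mul_baseChange`, `cp_baseChange_mul`) and is
skew (compare the coefficients; see the proof of `skew_K` in `Lef/SkewL.lean`). `base_inL`: `comF_span` for the commutation, tensor induction for skewness. `center_K`: write `Z = ∑ b t • Z_t.baseChange`, `Z_t = cp (b.coord t) Z` is in `Lef ρ` and commutes with all `X ∈ Lef ρ`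
(`Z * X.baseChange = X.baseChange * Z`), so `InCom ρ Z_t` by `hB`, `Z ∈ comF ρ`.
-/

set_option autoImplicit false

namespace Pool.Agent.Lib.MP_640417_ag.Fg

open Module TensorProduct Pool.Agent.Lib.MP_640417_ag.Fr

variable {Γ : Type} [Group Γ] [TopologicalSpace Γ] {F : Type} [Field F]
  [TopologicalSpace F] {V : Type} [AddCommGroup V] [Module F V] [FiniteDimensional F V]

open Pool.Agent.Lib.MP_640417_ag.Four (cp pr sum_cp form_cp cp_mul_baseChange cp_baseChange_mul
  cp_apply pr_tmul)

omit [TopologicalSpace F] [FiniteDimensional F V] in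
private lemma form_cp' (form : LinearMap.BilinForm F V) (ℓ : AlgebraicClosure F →ₗ[F] F)
    (S : Module.End (AlgebraicClosure F) (AlgebraicClosure F ⊗[F] V)) (u v : V) :
    form u (cp ℓ S v) = ℓ (form.baseChange (AlgebraicClosure F) ((1 : AlgebraicClosure F) ⊗ₜ[F] u)
      (S ((1 : AlgebraicClosure F) ⊗ₜ[F] v))) := by
  rw [cp_apply]
  generalize S ((1 : AlgebraicClosure F) ⊗ₜ[F] v) = z
  induction z using TensorProduct.induction_on with
  | zero => simp
  | add x y hx hy =>
    simp only [map_add, hx, hy]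
  | tmul a y =>
    rw [pr_tmul, map_smul, LinearMap.BilinForm.baseChange_tmul, one_mul, smul_eq_mul, map_smul,
      smul_eq_mul, mul_comm]

private lemma lef_cp (ρ : FormRep Γ F V)
    {X : Module.End (AlgebraicClosure F) (AlgebraicClosure F ⊗[F] V)}
    (hX : InL (ρ.form.baseChange (AlgebraicClosure F)) (comF ρ) X)
    (ℓ : AlgebraicClosure F →ₗ[F] F) : Lef ρ (cp ℓ X) := by
  refine ⟨fun c hc => ?_, fun u v => ?_⟩
  · rw [← cp_mul_baseChange, ← cp_baseChange_mul, hX.1 _ (base_comF ρ hc)]
  · rw [form_cp, form_cp', ← map_add, hX.2, map_zero]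

theorem base_inL (ρ : FormRep Γ F V) {X : Module.End F V} (hX : Lef ρ X) :
    InL (ρ.form.baseChange (AlgebraicClosure F)) (comF ρ)
      (X.baseChange (AlgebraicClosure F)) := by
  refine ⟨fun c hc => ?_, fun x y => ?_⟩
  · have h := comF_span ρ hc
    clear hc
    induction h using Submodule.span_induction with
    | mem c hc' =>
      obtain ⟨c', hc', rfl⟩ := hc'
      rw [← LinearMap.baseChange_mul, ← LinearMap.baseChange_mul, hX.1 c' hc']
    | zero => rw [mul_zero, zero_mul]
    | add a b _ _ ha hb => rw [mul_add, add_mul, ha, hb]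
    | smul t a _ ha => rw [mul_smul_comm, smul_mul_assoc, ha]
  · induction x using TensorProduct.induction_on with
    | zero => simp
    | add x x' hx hx' =>
      rw [map_add, map_add, LinearMap.add_apply, map_add, LinearMap.add_apply, add_add_add_comm,
        hx, hx', add_zero]
    | tmul a u =>
      induction y using TensorProduct.induction_on with
      | zero => simp
      | add y y' hy hy' =>
        rw [map_add, map_add, map_add, add_add_add_comm, hy, hy', add_zero]
      | tmul b v =>
        rw [LinearMap.baseChange_tmul, LinearMap.baseChange_tmul,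
          LinearMap.BilinForm.baseChange_tmul, LinearMap.BilinForm.baseChange_tmul, ← add_smul,
          hX.2, zero_smul]

theorem lef_span (ρ : FormRep Γ F V)
    {X : Module.End (AlgebraicClosure F) (AlgebraicClosure F ⊗[F] V)}
    (hX : InL (ρ.form.baseChange (AlgebraicClosure F)) (comF ρ) X) :
    X ∈ Submodule.span (AlgebraicClosure F) {X | ∃ Y, Lef ρ Y ∧
      X = Y.baseChange (AlgebraicClosure F)} := by
  classical
  let b := Module.Free.chooseBasis F (AlgebraicClosure F)
  obtain ⟨τ, hτ⟩ := sum_cp b X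
  rw [hτ]
  exact Submodule.sum_mem _ fun t _ => Submodule.smul_mem _ _ (Submodule.subset_span
    ⟨_, lef_cp ρ hX _, rfl⟩)

theorem center_K (ρ : FormRep Γ F V)
    (hB : ∀ Z, Lef ρ Z → (∀ X, Lef ρ X → Z * X = X * Z) → InCom ρ Z)
    (Z : Module.End (AlgebraicClosure F) (AlgebraicClosure F ⊗[F] V))
    (hZ : InL (ρ.form.baseChange (AlgebraicClosure F)) (comF ρ) Z)
    (hc : ∀ X, InL (ρ.form.baseChange (AlgebraicClosure F)) (comF ρ) X → Z * X = X * Z) :
    Z ∈ comF ρ := by
  classical
  let b := Module.Free.chooseBasis F (AlgebraicClosure F)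
  obtain ⟨τ, hτ⟩ := sum_cp b Z
  rw [hτ]
  refine Subalgebra.sum_mem _ fun t _ => Subalgebra.smul_mem _ (base_comF ρ ?_) _
  refine hB _ (lef_cp ρ hZ _) fun X hX => ?_
  rw [← cp_mul_baseChange, ← cp_baseChange_mul, hc _ (base_inL ρ hX)]

/-- central elements over `K` are combinations of central elements -/
theorem cen_span (ρ : FormRep Γ F V)
    {z : Module.End (AlgebraicClosure F) (AlgebraicClosure F ⊗[F] V)}
    (hz : InZ (ρ.form.baseChange (AlgebraicClosure F)) (comF ρ) z) :
    z ∈ Submodule.span (AlgebraicClosure F) {X | ∃ Y, CenSkew ρ Y ∧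
      X = Y.baseChange (AlgebraicClosure F)} := by
  classical
  let b := Module.Free.chooseBasis F (AlgebraicClosure F)
  obtain ⟨τ, hτ⟩ := sum_cp b z
  obtain ⟨⟨U, hU⟩, hz2⟩ := hz
  rw [hτ]
  refine Submodule.sum_mem _ fun t _ => Submodule.smul_mem _ _ (Submodule.subset_span
    ⟨_, ⟨⟨U, fun γ hγ => ?_⟩, lef_cp ρ hz2 _⟩, rfl⟩)
  rw [← cp_mul_baseChange, ← cp_baseChange_mul, hU γ hγ]

end Pool.Agent.Lib.MP_640417_ag.Fg
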