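import Pool.Agent.Lib.MP_640417_ag.Fg.Defs
import Pool.Agent.Lib.MP_640417_ag.Orth.Bc

/-!
# MP_640417_ag, Fg, module BcF (150 lines): base change of forms

`exists_bcM` (`Orth/Bc.lean`) gives `g`. `hd`: both sides of `Dm (M.baseChange K) g (1 ⊗ v) = algebraMap (DF M f v)` by `update (1 ⊗ v) l (1 ⊗ M (v l))`; so if `DF M f = 0` then `Dm (M.baseChange K) g` vanishes at all
`1 ⊗ v`, which span, so it is zero (`Basis.ext_multilinear` with `Algebra.TensorProduct.basis K b`). `square`: `f` times `f`: from `TateG`, `TateF ρ k` for the product form in `2 k` variables; conversely if the product form is killed by `M` then so is `f`: choose `w` with `f w ≠ 0` (else clear):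
`DF M f v * f w + f v * DF M f w = 0` for all `v, w`; `v = w` gives `2 f w * DF M f w = 0`, so `DF M f w = 0`, so `DF M f v * f w = 0`.
-/

set_option autoImplicit false

namespace Pool.Agent.Lib.MP_640417_ag.Fg

open Module TensorProduct Pool.Agent.Lib.MP_640417_ag.Fr Pool.Agent.Lib.MP_640417_ag.Orth

theorem exists_bcF {F V : Type} [Field F] [AddCommGroup V] [Module F V] [FiniteDimensional F V]
    {k : ℕ} (f : MultilinearMap F (fun _ : Fin k => V) F) :
    ∃ g : Mf (AlgebraicClosure F) (AlgebraicClosure F ⊗[F] V) k,
      (∀ v : Fin k → V, g (fun i => 1 ⊗ₜ[F] v i) = algebraMap F (AlgebraicClosure F) (f v)) ∧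
      ∀ M : Module.End F V, (∀ v, DF M f v = 0) →
        Dm (M.baseChange (AlgebraicClosure F)) g = 0 := by
  obtain ⟨g, hg⟩ := exists_bcM (AlgebraicClosure F) f
  refine ⟨g, hg, fun M hM => ?_⟩
  let b := Module.finBasis F V
  let bK := Algebra.TensorProduct.basis (AlgebraicClosure F) b
  have hbK : ∀ i, bK i = (1 : AlgebraicClosure F) ⊗ₜ[F] b i :=
    fun i => Algebra.TensorProduct.basis_apply ..
  refine Module.Basis.ext_multilinear (fun _ => bK) fun u => ?_
  rw [Dm_apply, MultilinearMap.zero_apply]
  simp only [hbK]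
  have key : ∀ j, g (Function.update (fun i => (1 : AlgebraicClosure F) ⊗ₜ[F] b (u i)) j
      (M.baseChange (AlgebraicClosure F) ((1 : AlgebraicClosure F) ⊗ₜ[F] b (u j)))) =
      algebraMap F (AlgebraicClosure F)
        (f (Function.update (fun i => b (u i)) j (M (b (u j))))) := by
    intro j
    rw [LinearMap.baseChange_tmul, ← hg]
    congr 1
    funext i
    by_cases h : i = j
    · subst h
      rw [Function.update_self, Function.update_self]
    · rw [Function.update_of_ne h, Function.update_of_ne h]
  rw [Finset.sum_congr rfl fun j _ => key j, ← map_sum]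
  have h2 : ∑ j, f (Function.update (fun i => b (u i)) j (M (b (u j)))) = 0 :=
    hM fun i => b (u i)
  rw [h2, map_zero]

private theorem upd_ll {V : Type} {k n : ℕ} (e : Fin k ⊕ Fin k ≃ Fin n) (z : Fin n → V)
    (i : Fin k) (x : V) :
    (fun j => (Function.update z (e (Sum.inl i)) x) (e (Sum.inl j))) =
      Function.update (fun j => z (e (Sum.inl j))) i x := by
  funext j
  by_cases h : j = i
  · subst h
    rw [Function.update_self, Function.update_self]
  · rw [Function.update_of_ne, Function.update_of_ne h]
    intro h2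
    exact h (Sum.inl_injective (e.injective h2))

private theorem upd_rr {V : Type} {k n : ℕ} (e : Fin k ⊕ Fin k ≃ Fin n) (z : Fin n → V)
    (i : Fin k) (x : V) :
    (fun j => (Function.update z (e (Sum.inr i)) x) (e (Sum.inr j))) =
      Function.update (fun j => z (e (Sum.inr j))) i x := by
  funext j
  by_cases h : j = i
  · subst h
    rw [Function.update_self, Function.update_self]
  · rw [Function.update_of_ne, Function.update_of_ne h]
    intro h2
    exact h (Sum.inr_injective (e.injective h2))

private theorem upd_lr {V : Type} {k n : ℕ} (e : Fin k ⊕ Fin k ≃ Fin n) (z : Fin n → V)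
    (i : Fin k) (x : V) :
    (fun j => (Function.update z (e (Sum.inl i)) x) (e (Sum.inr j))) =
      fun j => z (e (Sum.inr j)) := by
  funext j
  rw [Function.update_of_ne]
  intro h2
  exact absurd (e.injective h2) (by simp)

private theorem upd_rl {V : Type} {k n : ℕ} (e : Fin k ⊕ Fin k ≃ Fin n) (z : Fin n → V)
    (i : Fin k) (x : V) :
    (fun j => (Function.update z (e (Sum.inr i)) x) (e (Sum.inl j))) =
      fun j => z (e (Sum.inl j)) := by
  funext j
  rw [Function.update_of_ne]
  intro h2
  exact absurd (e.injective h2) (by simp)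

/-- The product form. -/
private noncomputable def sqf {F V : Type} [Field F] [AddCommGroup V] [Module F V] {k n : ℕ}
    (e : Fin k ⊕ Fin k ≃ Fin n) (f : MultilinearMap F (fun _ : Fin k => V) F) :
    MultilinearMap F (fun _ : Fin n => V) F where
  toFun z := f (fun j => z (e (Sum.inl j))) * f (fun j => z (e (Sum.inr j)))
  map_update_add' := by
    intro inst z i x y
    rw [Subsingleton.elim inst (instDecidableEqFin n)]
    obtain ⟨s, rfl⟩ := e.surjective i
    rcases s with s | s
    · rw [upd_ll, upd_ll, upd_ll, upd_lr, upd_lr, upd_lr, MultilinearMap.map_update_add, add_mul]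
    · rw [upd_rr, upd_rr, upd_rr, upd_rl, upd_rl, upd_rl, MultilinearMap.map_update_add, mul_add]
  map_update_smul' := by
    intro inst z i r x
    rw [Subsingleton.elim inst (instDecidableEqFin n)]
    obtain ⟨s, rfl⟩ := e.surjective i
    rcases s with s | s
    · rw [upd_ll, upd_ll, upd_lr, upd_lr, MultilinearMap.map_update_smul, smul_eq_mul,
        smul_eq_mul, mul_assoc]
    · rw [upd_rr, upd_rr, upd_rl, upd_rl, MultilinearMap.map_update_smul, smul_eq_mul,
        smul_eq_mul, mul_left_comm]

private theorem sqf_apply {F V : Type} [Field F] [AddCommGroup V] [Module F V] {k n : ℕ}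
    (e : Fin k ⊕ Fin k ≃ Fin n) (f : MultilinearMap F (fun _ : Fin k => V) F) (z : Fin n → V) :
    sqf e f z = f (fun j => z (e (Sum.inl j))) * f (fun j => z (e (Sum.inr j))) := rfl

private theorem DF_sqf {F V : Type} [Field F] [AddCommGroup V] [Module F V] {k n : ℕ}
    (e : Fin k ⊕ Fin k ≃ Fin n) (f : MultilinearMap F (fun _ : Fin k => V) F)
    (M : Module.End F V) (z : Fin n → V) :
    DF M (sqf e f) z = DF M f (fun j => z (e (Sum.inl j))) * f (fun j => z (e (Sum.inr j))) +
      f (fun j => z (e (Sum.inl j))) * DF M f (fun j => z (e (Sum.inr j))) := by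
  unfold DF
  rw [← Equiv.sum_comp e, Fintype.sum_sum_type, Finset.sum_mul, Finset.mul_sum]
  congr 1
  · refine Finset.sum_congr rfl fun i _ => ?_
    rw [sqf_apply, upd_ll, upd_lr]
  · refine Finset.sum_congr rfl fun i _ => ?_
    rw [sqf_apply, upd_rr, upd_rl]

/-- the square of a form -/
theorem exists_square {Γ : Type} [Group Γ] [TopologicalSpace Γ] {F : Type} [Field F]
    [CharZero F] [TopologicalSpace F] {V : Type} [AddCommGroup V] [Module F V]
    (ρ : FormRep Γ F V) {k : ℕ} (f : MultilinearMap F (fun _ : Fin k => V) F)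
    (hf : TateG ρ k f) :
    ∃ f₂ : MultilinearMap F (fun _ : Fin (2 * k) => V) F, TateF ρ k f₂ ∧
      ∀ M : Module.End F V, (∀ v, DF M f₂ v = 0) → ∀ v, DF M f v = 0 := by
  let e : Fin k ⊕ Fin k ≃ Fin (2 * k) := finSumFinEquiv.trans (finCongr (two_mul k).symm)
  refine ⟨sqf e f, ?_, ?_⟩
  · obtain ⟨U, hU⟩ := hf
    exact ⟨U, fun γ hγ v => hU γ hγ (fun j => v (e (Sum.inl j))) (fun j => v (e (Sum.inr j)))⟩
  · intro M hM
    have key : ∀ v w, DF M f v * f w + f v * DF M f w = 0 := by
      intro v w
      have h1 := hM (fun l => Sum.elim v w (e.symm l))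
      rw [DF_sqf] at h1
      simp only [Equiv.symm_apply_apply, Sum.elim_inl, Sum.elim_inr] at h1
      exact h1
    by_cases h0 : ∃ w, f w ≠ 0
    · obtain ⟨w, hw⟩ := h0
      have h1 : DF M f w = 0 := by
        have h2 := key w w
        have h3 : (2 * f w) * DF M f w = 0 := by linear_combination h2
        rcases mul_eq_zero.1 h3 with h4 | h4
        · rcases mul_eq_zero.1 h4 with h5 | h5
          · exact absurd h5 two_ne_zero
          · exact absurd h5 hw
        · exact h4
      intro v
      have h2 := key v w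
      rw [h1, mul_zero, add_zero] at h2
      exact (mul_eq_zero.1 h2).resolve_right hw
    · intro v
      unfold DF
      refine Finset.sum_eq_zero fun j _ => ?_
      by_contra h
      exact h0 ⟨_, h⟩

end Pool.Agent.Lib.MP_640417_ag.Fg
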