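import Pool.Agent.Lib.MP_640417_ag.Fg.Defs
import Pool.Agent.Lib.MP_640417_ag.Fr.ResF
import Pool.Agent.Lib.MP_640417_ag.Lef.RegL

/-!
# MP_640417_ag, Fg, module ComF (250 lines): the commutant over `K`

`K = AlgebraicClosure F`. First the case that everything in the commutant commutes with all of `Γ`, then `Fr/ResF.lean` for an open subgroup `U` (the commutant over `F` is finite-dimensional, so there is an open subgroup `U` with which all of it
commutes; see `Ty.exists_U0`, which is for `H1Rep`; adapt for `FormRep`, e.g. with a basis of the commutant). `cenK`, `reg_L`, `mem_cenK`, `adjC_L` (`Lef/RegL.lean`; the last one is for alternating forms, adapt), `cp_comm`, `comK_full`, `comK_eq` (`Dfr/FullK.lean`, for `H1Rep`, adapt).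
-/

set_option autoImplicit false

namespace Pool.Agent.Lib.MP_640417_ag.Fg

open Module TensorProduct Pool.Agent.Lib.MP_640417_ag Pool.Agent.Lib.MP_640417_ag.Fr

variable {Γ : Type} [Group Γ] [TopologicalSpace Γ] {F : Type} [Field F]
  [TopologicalSpace F] {V : Type} [AddCommGroup V] [Module F V]

/-- the commutant over `K` as a subalgebra -/
noncomputable def comF (ρ : FormRep Γ F V) :
    Subalgebra (AlgebraicClosure F) (Module.End (AlgebraicClosure F) (AlgebraicClosure F ⊗[F] V)) where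
  carrier := {c | InComK ρ c}
  mul_mem' := by
    rintro a b ⟨U, hU⟩ ⟨W, hW⟩
    refine ⟨U ⊓ W, fun γ hγ => ?_⟩
    rw [mul_assoc, hW γ hγ.2, ← mul_assoc, hU γ hγ.1, mul_assoc]
  add_mem' := by
    rintro a b ⟨U, hU⟩ ⟨W, hW⟩
    refine ⟨U ⊓ W, fun γ hγ => ?_⟩
    rw [add_mul, mul_add, hU γ hγ.1, hW γ hγ.2]
  algebraMap_mem' := by
    intro c
    exact ⟨⊤, fun γ _ => Algebra.commutes c _⟩

theorem mem_comF (ρ : FormRep Γ F V)
    {c : Module.End (AlgebraicClosure F) (AlgebraicClosure F ⊗[F] V)} :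
    c ∈ comF ρ ↔ InComK ρ c := Iff.rfl

/-- the range of an idempotent of the commutant is stable under an open subgroup -/
theorem stable_range (ρ : FormRep Γ F V)
    {p : Module.End (AlgebraicClosure F) (AlgebraicClosure F ⊗[F] V)} (hp : p ∈ comF ρ) :
    StableK ρ (LinearMap.range p) := by
  obtain ⟨U, hU⟩ := hp
  refine ⟨U, fun γ hγ => ?_⟩
  rintro _ ⟨y, rfl⟩
  exact ⟨(ρ.T γ).baseChange (AlgebraicClosure F) y, LinearMap.congr_fun (hU γ hγ) y⟩

variable [FiniteDimensional F V]

/-- an element of the commutant over `K` is a combination of elements of the commutant -/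
theorem comF_span (ρ : FormRep Γ F V)
    {c : Module.End (AlgebraicClosure F) (AlgebraicClosure F ⊗[F] V)} (hc : c ∈ comF ρ) :
    c ∈ Submodule.span (AlgebraicClosure F) {c | ∃ c', InCom ρ c' ∧
      c = c'.baseChange (AlgebraicClosure F)} := by
  classical
  obtain ⟨U, hU⟩ := hc
  let b := Module.Free.chooseBasis F (AlgebraicClosure F)
  obtain ⟨τ, hτ⟩ := Four.sum_cp b c
  rw [hτ]
  refine Submodule.sum_mem _ fun t _ => Submodule.smul_mem _ _ (Submodule.subset_span
    ⟨Four.cp (b.coord t) c, ⟨U, fun γ hγ => ?_⟩, rfl⟩)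
  rw [← Four.cp_mul_baseChange, ← Four.cp_baseChange_mul, hU γ hγ]

theorem base_comF (ρ : FormRep Γ F V) {c : Module.End F V} (hc : InCom ρ c) :
    c.baseChange (AlgebraicClosure F) ∈ comF ρ := by
  obtain ⟨U, hU⟩ := hc
  refine ⟨U, fun γ hγ => ?_⟩
  rw [← LinearMap.baseChange_mul, hU γ hγ, LinearMap.baseChange_mul]

omit [TopologicalSpace F] [FiniteDimensional F V] in
private theorem symm_bc (form : LinearMap.BilinForm F V) (e : F)
    (h : ∀ x y, form x y = e * form y x) (x y : AlgebraicClosure F ⊗[F] V) :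
    form.baseChange (AlgebraicClosure F) x y = algebraMap F (AlgebraicClosure F) e *
      form.baseChange (AlgebraicClosure F) y x := by
  induction x using TensorProduct.induction_on with
  | zero => simp
  | add x₁ x₂ h1 h2 => simp only [map_add, LinearMap.add_apply, h1, h2, mul_add]
  | tmul a v =>
    induction y using TensorProduct.induction_on with
    | zero => simp
    | add y₁ y₂ h1 h2 => simp only [map_add, LinearMap.add_apply, h1, h2, mul_add]
    | tmul b w =>
      rw [LinearMap.BilinForm.baseChange_tmul, LinearMap.BilinForm.baseChange_tmul, h v w,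
        Algebra.smul_def, Algebra.smul_def, map_mul]
      ring

theorem symm_formK (ρ : FormRep Γ F V)
    (hs : (∀ x y, ρ.form x y = ρ.form y x) ∨ ∀ x, ρ.form x x = 0) :
    ∃ e : AlgebraicClosure F, e * e = 1 ∧
    ∀ x y, ρ.form.baseChange (AlgebraicClosure F) x y =
      e * ρ.form.baseChange (AlgebraicClosure F) y x := by
  rcases hs with h | h
  · refine ⟨algebraMap F _ 1, by rw [map_one, mul_one], symm_bc ρ.form 1 fun x y => ?_⟩
    rw [h x y, one_mul]
  · refine ⟨algebraMap F _ (-1), by rw [← map_mul, neg_mul_neg, mul_one, map_one],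
      symm_bc ρ.form (-1) fun x y => ?_⟩
    have h1 := h (x + y)
    simp only [map_add, LinearMap.add_apply, h x, h y, zero_add, add_zero] at h1
    rw [neg_one_mul, eq_neg_iff_add_eq_zero, add_comm]
    exact h1

omit [TopologicalSpace F] in
private theorem form_pr (form : LinearMap.BilinForm F V) (φ : AlgebraicClosure F →ₗ[F] F)
    (z : AlgebraicClosure F ⊗[F] V) (v : V) : form (Four.pr V φ z) v =
      φ (form.baseChange (AlgebraicClosure F) z ((1 : AlgebraicClosure F) ⊗ₜ[F] v)) := by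
  induction z using TensorProduct.induction_on with
  | zero => simp
  | add x y hx hy =>
    simp only [map_add, LinearMap.add_apply, hx, hy]
  | tmul a y =>
    rw [Four.pr_tmul, map_smul, LinearMap.smul_apply, LinearMap.BilinForm.baseChange_tmul,
      mul_one, smul_eq_mul, map_smul, smul_eq_mul, mul_comm]

theorem nondeg_formK (ρ : FormRep Γ F V) (x : AlgebraicClosure F ⊗[F] V)
    (hx : ∀ y, ρ.form.baseChange (AlgebraicClosure F) x y = 0) : x = 0 := by
  classical
  let b := Module.Free.chooseBasis F (AlgebraicClosure F)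
  obtain ⟨τ, -, hτ⟩ := Four.sum_pr (V := V) b x
  rw [hτ τ (Finset.Subset.refl τ)]
  refine Finset.sum_eq_zero fun t _ => ?_
  have h1 : Four.pr V (b.coord t) x = 0 := by
    refine ρ.form_nondeg _ fun v => ?_
    rw [form_pr, hx, map_zero]
  rw [h1, TensorProduct.tmul_zero]

omit [TopologicalSpace F] in
private theorem form_pr' (form : LinearMap.BilinForm F V) (φ : AlgebraicClosure F →ₗ[F] F)
    (z : AlgebraicClosure F ⊗[F] V) (v : V) : form v (Four.pr V φ z) =
      φ (form.baseChange (AlgebraicClosure F) ((1 : AlgebraicClosure F) ⊗ₜ[F] v) z) := by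
  induction z using TensorProduct.induction_on with
  | zero => simp
  | add x y hx hy =>
    simp only [map_add, hx, hy]
  | tmul a y =>
    rw [Four.pr_tmul, map_smul, LinearMap.BilinForm.baseChange_tmul,
      one_mul, smul_eq_mul, map_smul, smul_eq_mul, mul_comm]

theorem nondeg_formK' (ρ : FormRep Γ F V) (y : AlgebraicClosure F ⊗[F] V)
    (hy : ∀ x, ρ.form.baseChange (AlgebraicClosure F) x y = 0) : y = 0 := by
  classical
  let b := Module.Free.chooseBasis F (AlgebraicClosure F)
  obtain ⟨τ, -, hτ⟩ := Four.sum_pr (V := V) b y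
  rw [hτ τ (Finset.Subset.refl τ)]
  refine Finset.sum_eq_zero fun t _ => ?_
  have h1 : Four.pr V (b.coord t) y = 0 := by
    refine ρ.form_nondeg' _ fun v => ?_
    rw [form_pr', hy, map_zero]
  rw [h1, TensorProduct.tmul_zero]

/-- adjoints on the right -/
private theorem exists_adj {K W : Type} [Field K] [AddCommGroup W] [Module K W]
    [FiniteDimensional K W] (B : LinearMap.BilinForm K W)
    (hnd : ∀ y, (∀ x, B x y = 0) → y = 0) (c : Module.End K W) :
    ∃ c' : Module.End K W, ∀ x y, B (c x) y = B x (c' y) := by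
  have hinj : Function.Injective (B.flip : W →ₗ[K] Module.Dual K W) := by
    rw [← LinearMap.ker_eq_bot, LinearMap.ker_eq_bot']
    intro v hv
    exact hnd v fun y => LinearMap.congr_fun hv y
  have hsurj : Function.Surjective (B.flip : W →ₗ[K] Module.Dual K W) :=
    (LinearMap.injective_iff_surjective_of_finrank_eq_finrank
      (Subspace.dual_finrank_eq (K := K) (V := W)).symm).mp hinj
  let Be : W ≃ₗ[K] Module.Dual K W := LinearEquiv.ofBijective B.flip ⟨hinj, hsurj⟩
  refine ⟨Be.symm.toLinearMap ∘ₗ c.dualMap ∘ₗ B.flip, fun x y => ?_⟩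
  exact (LinearMap.congr_fun (Be.apply_symm_apply (c.dualMap (B.flip y))) x).symm

/-- an adjoint of a map which commutes with similitudes commutes with them -/
private theorem adj_comm {K W : Type} [Field K] [AddCommGroup W] [Module K W]
    (B : LinearMap.BilinForm K W) (hnd : ∀ y, (∀ x, B x y = 0) → y = 0) {c c' : Module.End K W}
    (hc : ∀ x y, B (c x) y = B x (c' y)) {T S : Module.End K W} (hTS : ∀ x, T (S x) = x) (a : K)
    (hT : ∀ x y, B (T x) (T y) = a * B x y) (hcT : c * T = T * c) : c' * T = T * c' := by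
  refine LinearMap.ext fun y => ?_
  rw [Module.End.mul_apply, Module.End.mul_apply, ← sub_eq_zero]
  refine hnd _ fun x => ?_
  rw [map_sub, ← hTS x, hT, ← hc, ← hc, ← hT, ← Module.End.mul_apply, hcT, Module.End.mul_apply,
    sub_self]

/-- the operators over the algebraic closure -/
private noncomputable def TF (ρ : FormRep Γ F V) :
    Γ →* Module.End (AlgebraicClosure F) (AlgebraicClosure F ⊗[F] V) :=
  ((Module.End.baseChangeHom F (AlgebraicClosure F) V :
      Module.End F V →ₐ[F] Module.End (AlgebraicClosure F) (AlgebraicClosure F ⊗[F] V)) :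
      Module.End F V →* Module.End (AlgebraicClosure F) (AlgebraicClosure F ⊗[F] V)).comp ρ.T

private theorem TF_inv (ρ : FormRep Γ F V) (γ : Γ) (z : AlgebraicClosure F ⊗[F] V) :
    (ρ.T γ).baseChange (AlgebraicClosure F) ((ρ.T γ⁻¹).baseChange (AlgebraicClosure F) z) = z := by
  have h1 : TF ρ γ * TF ρ γ⁻¹ = 1 := by rw [← map_mul, mul_inv_cancel, map_one]
  exact LinearMap.congr_fun h1 z

theorem adjCl_comF (ρ : FormRep Γ F V) :
    AdjCl (ρ.form.baseChange (AlgebraicClosure F)) (comF ρ) := by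
  rintro c ⟨U, hU⟩
  obtain ⟨c', hc'⟩ := exists_adj _ (nondeg_formK' ρ) c
  refine ⟨c', ⟨U, fun γ hγ => ?_⟩, hc'⟩
  exact adj_comm _ (nondeg_formK' ρ) hc' (TF_inv ρ γ) _
    (Frob.equivariant_baseChange (AlgebraicClosure F) ρ.form (ρ.T γ)
      ((ρ.χ γ)⁻¹ : Fˣ).val (ρ.form_equivariant γ)) (hU γ hγ)

/-- adjoints on the left -/
theorem adjCl_comF' (ρ : FormRep Γ F V)
    {c : Module.End (AlgebraicClosure F) (AlgebraicClosure F ⊗[F] V)} (hc : c ∈ comF ρ) :
    ∃ c' ∈ comF ρ, ∀ x y, ρ.form.baseChange (AlgebraicClosure F) x (c y) =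
      ρ.form.baseChange (AlgebraicClosure F) (c' x) y := by
  obtain ⟨U, hU⟩ := hc
  obtain ⟨c', hc'⟩ := exists_adj (LinearMap.flip (ρ.form.baseChange (AlgebraicClosure F)))
    (nondeg_formK ρ) c
  refine ⟨c', ⟨U, fun γ hγ => ?_⟩, fun x y => hc' y x⟩
  refine adj_comm (LinearMap.flip (ρ.form.baseChange (AlgebraicClosure F))) (nondeg_formK ρ) hc'
    (TF_inv ρ γ) ((algebraMap F (AlgebraicClosure F)) ((ρ.χ γ)⁻¹ : Fˣ).val)
    (fun x y => ?_) (hU γ hγ)
  exact Frob.equivariant_baseChange (AlgebraicClosure F) ρ.form (ρ.T γ)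
      ((ρ.χ γ)⁻¹ : Fˣ).val (ρ.form_equivariant γ) y x

/-- a subspace of `K ⊗ V` which is stable under an open subgroup is the range of an idempotent of the commutant -/
theorem exists_proj [CharZero F] [IsTopologicalGroup Γ] [CompactSpace Γ] (ρ : FormRep Γ F V)
    (hss : Semisimple ρ)
    (W : Submodule (AlgebraicClosure F) (AlgebraicClosure F ⊗[F] V)) (hW : StableK ρ W) :
    ∃ p ∈ comF ρ, (∀ y, p y ∈ W) ∧ ∀ y ∈ W, p y = y := by
  obtain ⟨U, hW⟩ := hW
  have hfin : Finite (Γ ⧸ U.toSubgroup) := inferInstance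
  have hfi : U.toSubgroup.FiniteIndex := Subgroup.finiteIndex_of_finite_quotient
  set U' : Subgroup Γ := U.toSubgroup.normalCore with hU'
  have hopen : IsOpen (U' : Set Γ) :=
    Subgroup.isOpen_of_isClosed_of_finiteIndex _ (U.toSubgroup.normalCore_isClosed U.isClosed)
  have hle : U' ≤ U.toSubgroup := U.toSubgroup.normalCore_le
  have hnormal : U'.Normal := inferInstance
  let R : Subalgebra (AlgebraicClosure F)
      (Module.End (AlgebraicClosure F) (AlgebraicClosure F ⊗[F] V)) :=
    Algebra.adjoin (AlgebraicClosure F) (TF ρ '' (U' : Set Γ))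
  have hR : Subalgebra.toSubmodule R =
      Submodule.span (AlgebraicClosure F) (TF ρ '' (U' : Set Γ)) := by
    have h1 : (Submonoid.closure (TF ρ '' (U' : Set Γ)) :
        Set (Module.End (AlgebraicClosure F) (AlgebraicClosure F ⊗[F] V))) =
        TF ρ '' (U' : Set Γ) := by
      have h2 : (TF ρ '' (U' : Set Γ)) = ((U'.toSubmonoid.map (TF ρ) :
          Submonoid (Module.End (AlgebraicClosure F) (AlgebraicClosure F ⊗[F] V))) :
          Set (Module.End (AlgebraicClosure F) (AlgebraicClosure F ⊗[F] V))) := rfl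
      rw [h2, Submonoid.closure_eq]
    rw [Algebra.adjoin_eq_span, h1]
  have hmem : ∀ γ ∈ U', TF ρ γ ∈ R := fun γ hγ => Algebra.subset_adjoin ⟨γ, hγ, rfl⟩
  have hmemR : ∀ M : Module.End (AlgebraicClosure F) (AlgebraicClosure F ⊗[F] V),
      M ∈ R ↔ M ∈ Submodule.span (AlgebraicClosure F) (TF ρ '' (U' : Set Γ)) := by
    intro M
    rw [← hR]
    rfl
  obtain ⟨p, hp1, hp2, hp3⟩ := Four.pSemi (AlgebraicClosure F) (AlgebraicClosure F ⊗[F] V) Γ
    (TF ρ) (by
    intro S hS htr
    exact Four.trace_nondeg_baseChange (fun γ => ρ.T γ) (Four.pTrace Γ F V ρ.T hss) S hS htr)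
    R (by
    rw [hR]
    exact Submodule.span_mono (Set.image_subset_range _ _)) (by
    intro γ M hM
    rw [hmemR] at hM ⊢
    induction hM using Submodule.span_induction with
    | mem x hx =>
      obtain ⟨u, hu, rfl⟩ := hx
      apply Submodule.subset_span
      refine ⟨γ * u * γ⁻¹, hnormal.conj_mem u hu γ, ?_⟩
      rw [map_mul, map_mul]
    | zero => rw [mul_zero, zero_mul]; exact Submodule.zero_mem _
    | add x y _ _ hx hy => rw [mul_add, add_mul]; exact Submodule.add_mem _ hx hy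
    | smul a x _ hx =>
      rw [mul_smul_comm, smul_mul_assoc]
      exact Submodule.smul_mem _ a hx) W (by
    intro M hM
    rw [hmemR] at hM
    induction hM using Submodule.span_induction with
    | mem x hx =>
      obtain ⟨u, hu, rfl⟩ := hx
      exact hW u (hle hu)
    | zero => intro y _; exact Submodule.zero_mem _
    | add x y _ _ hx hy => intro z hz; exact Submodule.add_mem _ (hx z hz) (hy z hz)
    | smul a x _ hx => intro z hz; exact Submodule.smul_mem _ a (hx z hz))
  exact ⟨p, ⟨⟨U', hopen⟩, fun γ hγ => hp3 _ (hmem γ hγ)⟩, hp1, hp2⟩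

private lemma exists_lift {K W : Type} [Field K] [AddCommGroup W] [Module K W]
    (c p : W →ₗ[K] W) (hp : ∀ y, p y ∈ LinearMap.range c) :
    ∃ s : W →ₗ[K] W, ∀ y, c (s y) = p y := by
  obtain ⟨s0, hs0⟩ := c.rangeRestrict.exists_rightInverse_of_surjective
    (LinearMap.range_rangeRestrict _)
  refine ⟨s0 ∘ₗ p.codRestrict _ hp, fun y => ?_⟩
  exact congrArg Subtype.val (LinearMap.congr_fun hs0 (p.codRestrict _ hp y))

theorem regC_comF [CharZero F] [IsTopologicalGroup Γ] [CompactSpace Γ] (ρ : FormRep Γ F V)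
    (hss : Semisimple ρ) : RegC (comF ρ) := by
  intro c hc
  obtain ⟨U, hU⟩ := hc
  have hUv : ∀ γ ∈ U, ∀ y, (ρ.T γ).baseChange (AlgebraicClosure F) (c y) =
      c ((ρ.T γ).baseChange (AlgebraicClosure F) y) :=
    fun γ hγ y => (LinearMap.congr_fun (hU γ hγ) y).symm
  obtain ⟨q, ⟨Uq, hUq'⟩, hq1, hq2⟩ := exists_proj ρ hss (LinearMap.ker c) ⟨U, by
    intro γ hγ y hy
    rw [LinearMap.mem_ker] at hy ⊢
    rw [← hUv γ hγ, hy, map_zero]⟩
  obtain ⟨p, ⟨Up, hUp'⟩, hp1, hp2⟩ := exists_proj ρ hss (LinearMap.range c) ⟨U, by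
    rintro γ hγ _ ⟨y, rfl⟩
    exact ⟨(ρ.T γ).baseChange (AlgebraicClosure F) y, (hUv γ hγ y).symm⟩⟩
  have hUq : ∀ γ ∈ Uq, ∀ y, (ρ.T γ).baseChange (AlgebraicClosure F) (q y) =
      q ((ρ.T γ).baseChange (AlgebraicClosure F) y) :=
    fun γ hγ y => (LinearMap.congr_fun (hUq' γ hγ) y).symm
  have hUp : ∀ γ ∈ Up, ∀ y, (ρ.T γ).baseChange (AlgebraicClosure F) (p y) =
      p ((ρ.T γ).baseChange (AlgebraicClosure F) y) :=
    fun γ hγ y => (LinearMap.congr_fun (hUp' γ hγ) y).symm
  have hq1' : ∀ y, c (q y) = 0 := fun y => hq1 y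
  have hq2' : ∀ y, c y = 0 → q y = y := fun y hy => hq2 y hy
  have hp2' : ∀ y, p (c y) = c y := fun y => hp2 _ ⟨y, rfl⟩
  obtain ⟨s0, hs0⟩ := exists_lift c p hp1
  let G : Module.End (AlgebraicClosure F) (AlgebraicClosure F ⊗[F] V) :=
    (LinearMap.id - q) ∘ₗ s0
  have hG : ∀ y, G y = s0 y - q (s0 y) := fun y => rfl
  have hcG : ∀ y, c (G y) = p y := by
    intro y
    rw [hG, map_sub, hq1', sub_zero, hs0]
  have hqG : ∀ y, q (G y) = 0 := by
    intro y
    rw [hG, map_sub, hq2' (q (s0 y)) (hq1' _), sub_self]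
  refine ⟨G, ⟨U ⊓ (Uq ⊓ Up), ?_⟩, ?_⟩
  · intro γ hγ
    have h1 := (OpenSubgroup.mem_inf.mp hγ).1
    have h2 := (OpenSubgroup.mem_inf.mp (OpenSubgroup.mem_inf.mp hγ).2).1
    have h3 := (OpenSubgroup.mem_inf.mp (OpenSubgroup.mem_inf.mp hγ).2).2
    apply LinearMap.ext
    intro y
    rw [Module.End.mul_apply, Module.End.mul_apply]
    have e1 : c ((ρ.T γ).baseChange (AlgebraicClosure F) (G y) -
        G ((ρ.T γ).baseChange (AlgebraicClosure F) y)) = 0 := by
      rw [map_sub, hcG, ← hUv γ h1, hcG, hUp γ h3, sub_self]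
    have e2 : q ((ρ.T γ).baseChange (AlgebraicClosure F) (G y) -
        G ((ρ.T γ).baseChange (AlgebraicClosure F) y)) = 0 := by
      rw [map_sub, hqG, sub_zero, ← hUq γ h2, hqG, map_zero]
    rw [hq2' _ e1] at e2
    exact (sub_eq_zero.1 e2).symm
  · apply LinearMap.ext
    intro y
    rw [Module.End.mul_apply, Module.End.mul_apply, hcG, hp2']

end Pool.Agent.Lib.MP_640417_ag.Fg
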