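import Pool.Agent.Lib.MP_640417_ag.Fg.Defs

/-!
# MP_640417_ag, Fg, module CtrI (200 lines): contractions

`h w = ∑ p, g (fun x => Sum.elim ![e p, e' p] w (eq.symm x))`, a multilinear map in `w : Fin k' → V` (e.g. `∑ p, MultilinearMap.mk ..` or `currySum`, `domDomCongr eq.symm` and `Orth/AltDet.lean`, `cur`).
For `v`, `ctrF e e' l m g v = h (fun x => v (eq (inr x)))`: the function `update (update v l (e p)) m (e' p)` is `Sum.elim ![e p, e' p] (v ∘ eq ∘ inr) ∘ eq.symm`.
`Sorted`: clear (`mem`, `mem'` for the two fixed entries: `ε (s l) (e p) = ε i (e p) = e p`).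
`Kd`: for `X ∈ InL` (the commutators `P Q - Q P` of elements of `InL` are in `InL`): if `Dm X g = 0` then `Dm X h = 0`: `0 = ∑ p, Dm X g (e p, e' p, w) = ∑ p, (g (X e p, e' p, w) + g (e p, X e' p, w)) + Dm X h w`, and the first sum is zero:
`X e p = ε i (X e p) = ∑ q, form (X e p) (a i (e' q)) • e q` (`exp`), `X e' p = ε (ds i) (X e' p) = ∑ q, form (e q) (a i (X e' p)) • e' q` (`exp'`), so it is
`∑ p q, form (X e p) (a i (e' q)) * g (e q, e' p, w) + ∑ p q, form (e q) (a i (X e' p)) * g (e p, e' q, w)`; exchange `p, q` in the second sum: `form (X e p) (a i (e' q)) + form (e p) (a i (X e' q)) = 0` because `a i ∈ C` commutes with `X`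
and `X` is skew.
-/

set_option autoImplicit false

namespace Pool.Agent.Lib.MP_640417_ag.Fg

open Module Pool.Agent.Lib.MP_640417_ag.Orth

variable {K V : Type} [Field K] [AddCommGroup V] [Module K V]

private theorem CtrI_inl {N k' k : ℕ} (e : Fin N ⊕ Fin k' ≃ Fin k) (w : Fin N → V)
    (u : Fin k' → V) (i : Fin N) (x : V) :
    Function.update (fun l => Sum.elim w u (e.symm l)) (e (Sum.inl i)) x =
      fun l => Sum.elim (Function.update w i x) u (e.symm l) := by
  funext l
  obtain ⟨s, rfl⟩ := e.surjective l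
  rcases s with a | a
  · rw [Equiv.symm_apply_apply]
    by_cases h : a = i
    · subst h
      rw [Function.update_self, Sum.elim_inl, Function.update_self]
    · rw [Function.update_of_ne, Equiv.symm_apply_apply, Sum.elim_inl, Sum.elim_inl,
        Function.update_of_ne h]
      intro h2
      exact h (Sum.inl_injective (e.injective h2))
  · rw [Function.update_of_ne, Equiv.symm_apply_apply, Sum.elim_inr, Sum.elim_inr]
    intro h2
    exact absurd (e.injective h2) (by simp)

private theorem CtrI_inr {N k' k : ℕ} (e : Fin N ⊕ Fin k' ≃ Fin k) (w : Fin N → V)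
    (u : Fin k' → V) (i : Fin k') (x : V) :
    Function.update (fun l => Sum.elim w u (e.symm l)) (e (Sum.inr i)) x =
      fun l => Sum.elim w (Function.update u i x) (e.symm l) := by
  funext l
  obtain ⟨s, rfl⟩ := e.surjective l
  rcases s with a | a
  · rw [Function.update_of_ne, Equiv.symm_apply_apply, Sum.elim_inl, Sum.elim_inl]
    intro h2
    exact absurd (e.injective h2) (by simp)
  · rw [Equiv.symm_apply_apply]
    by_cases h : a = i
    · subst h
      rw [Function.update_self, Sum.elim_inr, Function.update_self]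
    · rw [Function.update_of_ne, Equiv.symm_apply_apply, Sum.elim_inr, Sum.elim_inr,
        Function.update_of_ne h]
      intro h2
      exact h (Sum.inr_injective (e.injective h2))

/-- The partial evaluation. -/
private noncomputable def CtrI_par {k' k : ℕ} (eq : Fin 2 ⊕ Fin k' ≃ Fin k) (g : Mf K V k)
    (w : Fin 2 → V) : Mf K V k' where
  toFun u := g (fun l => Sum.elim w u (eq.symm l))
  map_update_add' := by
    intro inst u i x y
    rw [Subsingleton.elim inst (instDecidableEqFin k')]
    rw [← CtrI_inr, ← CtrI_inr, ← CtrI_inr, MultilinearMap.map_update_add]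
  map_update_smul' := by
    intro inst u i r x
    rw [Subsingleton.elim inst (instDecidableEqFin k')]
    rw [← CtrI_inr, ← CtrI_inr, MultilinearMap.map_update_smul]

private theorem CtrI_par_apply {k' k : ℕ} (eq : Fin 2 ⊕ Fin k' ≃ Fin k) (g : Mf K V k)
    (w : Fin 2 → V) (u : Fin k' → V) :
    CtrI_par eq g w u = g (fun l => Sum.elim w u (eq.symm l)) := rfl

private theorem CtrI_left {k' k : ℕ} (eq : Fin 2 ⊕ Fin k' ≃ Fin k) (g : Mf K V k)
    (u : Fin k' → V) (b : V) :
    ∃ L : V →ₗ[K] K, ∀ a, L a = CtrI_par eq g ![a, b] u := by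
  refine ⟨g.toLinearMap (fun l => Sum.elim ![0, b] u (eq.symm l)) (eq (Sum.inl 0)), fun a => ?_⟩
  rw [MultilinearMap.toLinearMap_apply, CtrI_inl, CtrI_par_apply]
  congr 2
  funext l
  congr 1
  funext j
  fin_cases j <;> rfl

private theorem CtrI_right {k' k : ℕ} (eq : Fin 2 ⊕ Fin k' ≃ Fin k) (g : Mf K V k)
    (u : Fin k' → V) (a : V) :
    ∃ L : V →ₗ[K] K, ∀ b, L b = CtrI_par eq g ![a, b] u := by
  refine ⟨g.toLinearMap (fun l => Sum.elim ![a, 0] u (eq.symm l)) (eq (Sum.inl 1)), fun b => ?_⟩
  rw [MultilinearMap.toLinearMap_apply, CtrI_inl, CtrI_par_apply]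
  congr 2
  funext l
  congr 1
  funext j
  fin_cases j <;> rfl

private theorem CtrI_Dm {k' k : ℕ} (eq : Fin 2 ⊕ Fin k' ≃ Fin k) (g : Mf K V k)
    (X : Module.End K V) (a b : V) (u : Fin k' → V) :
    Dm X g (fun l => Sum.elim ![a, b] u (eq.symm l)) =
      CtrI_par eq g ![X a, b] u + CtrI_par eq g ![a, X b] u + Dm X (CtrI_par eq g ![a, b]) u := by
  rw [Dm_apply, Dm_apply, ← eq.sum_comp, Fintype.sum_sum_type, Fin.sum_univ_two]
  congr 1
  · rw [CtrI_inl, CtrI_inl, CtrI_par_apply, CtrI_par_apply]
    congr 2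
    · funext l
      congr 1
      funext j
      fin_cases j
      · simp
      · rfl
    · funext l
      congr 1
      funext j
      fin_cases j
      · rfl
      · simp
  · refine Finset.sum_congr rfl fun j _ => ?_
    rw [CtrI_inr, CtrI_par_apply, Equiv.symm_apply_apply, Sum.elim_inr]

private theorem CtrI_inL {form : LinearMap.BilinForm K V} {C : Subalgebra K (Module.End K V)}
    {P Q : Module.End K V} (hP : InL form C P) (hQ : InL form C Q) :
    InL form C (P * Q - Q * P) := by
  refine ⟨fun c hc => ?_, fun x y => ?_⟩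
  · rw [sub_mul, mul_sub, mul_assoc, hQ.1 c hc, ← mul_assoc, hP.1 c hc, mul_assoc Q, hP.1 c hc,
      ← mul_assoc Q, hQ.1 c hc, mul_assoc, mul_assoc]
  · have h1 := hP.2 (Q x) y
    have h2 := hQ.2 x (P y)
    have h3 := hQ.2 (P x) y
    have h4 := hP.2 x (Q y)
    simp only [LinearMap.sub_apply, Module.End.mul_apply, map_sub]
    linear_combination h1 - h2 - h3 + h4

theorem exists_contr {K V : Type} [Field K] [AddCommGroup V] [Module K V]
    {form : LinearMap.BilinForm K V} {C : Subalgebra K (Module.End K V)} {N : ℕ}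
    {ε : Fin N → Module.End K V} {r ds : Fin N → Fin N} {u v a b : Fin N → Module.End K V}
    (h : Atoms C ε r u v) (hD : Duals form C ε r ds a b) (i : Fin N) (hi : r i = i) {d : ℕ}
    {e e' : Fin d → V} (hB : DB form ε ds a i e e') {k k' : ℕ} {s : Fin k → Fin N} (l m : Fin k)
    (hlm : l ≠ m) (hl : s l = i) (hm : s m = ds i) (eq : Fin 2 ⊕ Fin k' ≃ Fin k)
    (h0 : eq (Sum.inl 0) = l) (h1 : eq (Sum.inl 1) = m) (g : Mf K V k) (hg : Sorted ε s g)
    (hk : Kd form C g) :
    ∃ q : Mf K V k', (∀ v : Fin k → V, q (fun x => v (eq (Sum.inr x))) = ctrF e e' l m g v) ∧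
      Sorted ε (fun x => s (eq (Sum.inr x))) q ∧ Kd form C q := by
  have hqa : ∀ (p : Fin d) (v : Fin k → V), CtrI_par eq g ![e p, e' p] (fun x => v (eq (Sum.inr x))) =
      g (Function.update (Function.update v l (e p)) m (e' p)) := by
    intro p v
    rw [CtrI_par_apply]
    congr 1
    funext x
    obtain ⟨t, rfl⟩ := eq.surjective x
    rw [Equiv.symm_apply_apply]
    rcases t with t | t
    · fin_cases t
      · show e p = Function.update (Function.update v l (e p)) m (e' p) (eq (Sum.inl 0))
        rw [h0, Function.update_of_ne hlm, Function.update_self]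
      · show e' p = Function.update (Function.update v l (e p)) m (e' p) (eq (Sum.inl 1))
        rw [h1, Function.update_self]
    · rw [Sum.elim_inr, Function.update_of_ne, Function.update_of_ne]
      · rw [← h0]
        intro h2
        exact absurd (eq.injective h2) (by simp)
      · rw [← h1]
        intro h2
        exact absurd (eq.injective h2) (by simp)
  refine ⟨∑ p, CtrI_par eq g ![e p, e' p], fun v => ?_, fun v => ?_, fun P Q hP hQ => ?_⟩
  · rw [sum_apply]
    exact Finset.sum_congr rfl fun p _ => hqa p v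
  · rw [sum_apply, sum_apply]
    refine Finset.sum_congr rfl fun p _ => ?_
    rw [CtrI_par_apply, CtrI_par_apply, ← hg (fun l => Sum.elim ![e p, e' p] v (eq.symm l))]
    congr 1
    funext x
    obtain ⟨t, rfl⟩ := eq.surjective x
    rw [Equiv.symm_apply_apply]
    rcases t with t | t
    · fin_cases t
      · show e p = ε (s (eq (Sum.inl 0))) (e p)
        rw [h0, hl, hB.mem]
      · show e' p = ε (s (eq (Sum.inl 1))) (e' p)
        rw [h1, hm, hB.mem']
    · rw [Sum.elim_inr, Sum.elim_inr]
  · set X := P * Q - Q * P with hX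
    have hXL : InL form C X := CtrI_inL hP hQ
    have hXg : Dm X g = 0 := hk P Q hP hQ
    refine MultilinearMap.ext fun u => ?_
    have hlin : Dm X (∑ p, CtrI_par eq g ![e p, e' p]) u =
        ∑ p, Dm X (CtrI_par eq g ![e p, e' p]) u := by
      rw [Dm_apply]
      simp only [sum_apply, Dm_apply]
      exact Finset.sum_comm
    rw [hlin]
    have hterm : ∀ p, Dm X (CtrI_par eq g ![e p, e' p]) u =
        - (CtrI_par eq g ![X (e p), e' p] u + CtrI_par eq g ![e p, X (e' p)] u) := by
      intro p
      have h2 := CtrI_Dm eq g X (e p) (e' p) u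
      rw [hXg, zero_apply] at h2
      exact (neg_eq_of_add_eq_zero_right h2.symm).symm
    simp only [hterm, Finset.sum_neg_distrib, Finset.sum_add_distrib, zero_apply,
      neg_eq_zero]
    have hXe : ∀ p, X (e p) = ∑ q, form (X (e p)) (a i (e' q)) • e q := by
      intro p
      have h2 : ε i (X (e p)) = X (e p) := by
        have h3 := LinearMap.congr_fun (hXL.1 (ε i) (h.mem i)) (e p)
        rw [Module.End.mul_apply, Module.End.mul_apply, hB.mem] at h3
        exact h3.symm
      have h4 := hB.exp (X (e p))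
      rwa [h2] at h4
    have hXe' : ∀ p, X (e' p) = ∑ q, form (e q) (a i (X (e' p))) • e' q := by
      intro p
      have h2 : ε (ds i) (X (e' p)) = X (e' p) := by
        have h3 := LinearMap.congr_fun (hXL.1 (ε (ds i)) (h.mem (ds i))) (e' p)
        rw [Module.End.mul_apply, Module.End.mul_apply, hB.mem'] at h3
        exact h3.symm
      have h4 := hB.exp' (X (e' p))
      rwa [h2] at h4
    have hs1 : ∀ p, CtrI_par eq g ![X (e p), e' p] u =
        ∑ q, form (X (e p)) (a i (e' q)) * CtrI_par eq g ![e q, e' p] u := by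
      intro p
      obtain ⟨L, hL⟩ := CtrI_left eq g u (e' p)
      rw [← hL]
      conv_lhs => rw [hXe p]
      rw [map_sum]
      exact Finset.sum_congr rfl fun q _ => by rw [map_smul, hL, smul_eq_mul]
    have hs2 : ∀ p, CtrI_par eq g ![e p, X (e' p)] u =
        ∑ q, form (e q) (a i (X (e' p))) * CtrI_par eq g ![e p, e' q] u := by
      intro p
      obtain ⟨L, hL⟩ := CtrI_right eq g u (e p)
      rw [← hL]
      conv_lhs => rw [hXe' p]
      rw [map_sum]
      exact Finset.sum_congr rfl fun q _ => by rw [map_smul, hL, smul_eq_mul]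
    simp only [hs1, hs2]
    rw [Finset.sum_comm (f := fun p q => form (e q) (a i (X (e' p))) *
      CtrI_par eq g ![e p, e' q] u), ← Finset.sum_add_distrib]
    refine Finset.sum_eq_zero fun p _ => ?_
    rw [← Finset.sum_add_distrib]
    refine Finset.sum_eq_zero fun q _ => ?_
    have h5 : a i (X (e' q)) = X (a i (e' q)) :=
      (LinearMap.congr_fun (hXL.1 (a i) (hD.aC i)) (e' q)).symm
    rw [h5, ← add_mul, hXL.2, zero_mul]

end Pool.Agent.Lib.MP_640417_ag.Fg
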