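import Pool.Agent.Lib.MP_640417_ag.Fg.Defs

/-!
# MP_640417_ag, Fg, module DBI: dual bases

The linear form `x ↦ bas.coord q (ε i x)` is `x ↦ form x z`; let `e' q = ε (ds i) (b i z)`.
-/

set_option autoImplicit false

namespace Pool.Agent.Lib.MP_640417_ag.Fg

open Module

theorem exists_DB {K V : Type} [Field K] [AddCommGroup V] [Module K V] [FiniteDimensional K V]
    {form : LinearMap.BilinForm K V} (hnd : ∀ x, (∀ y, form x y = 0) → x = 0)
    (hnd' : ∀ y, (∀ x, form x y = 0) → y = 0) {C : Subalgebra K (Module.End K V)} {N : ℕ}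
    {ε : Fin N → Module.End K V} {r ds : Fin N → Fin N} {u v a b : Fin N → Module.End K V}
    (h : Atoms C ε r u v) (hD : Duals form C ε r ds a b) (i : Fin N) (hi : r i = i) {d : ℕ}
    (bas : Basis (Fin d) K (LinearMap.range (ε i))) :
    ∃ e' : Fin d → V, DB form ε ds a i (fun p => (bas p : V)) e' := by
  have hinj : Function.Injective (form.flip : V →ₗ[K] Module.Dual K V) := by
    rw [injective_iff_map_eq_zero]
    intro y hy
    exact hnd' y fun x => LinearMap.congr_fun hy x
  have hsurj : Function.Surjective (form.flip : V →ₗ[K] Module.Dual K V) :=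
    (LinearMap.injective_iff_surjective_of_finrank_eq_finrank
      (Subspace.dual_finrank_eq).symm).1 hinj
  have hrep : ∀ f : Module.Dual K V, ∃ z, ∀ x, form x z = f x := by
    intro f
    obtain ⟨z, hz⟩ := hsurj f
    exact ⟨z, fun x => LinearMap.congr_fun hz x⟩
  have hex : ∀ q, ∃ y, ε (ds i) y = y ∧
      ∀ x, form x (a i y) = bas.coord q ((ε i).rangeRestrict x) := by
    intro q
    obtain ⟨z, hz⟩ := hrep ((bas.coord q) ∘ₗ (ε i).rangeRestrict)
    refine ⟨ε (ds i) (b i z), LinearMap.congr_fun (h.idem (ds i)) (b i z), fun x => ?_⟩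
    have h1 : a i (ε (ds i) (b i z)) = a i (b i z) := LinearMap.congr_fun (hD.right i hi) (b i z)
    rw [h1, hD.ab i hi, hz]
    show bas.coord q ((ε i).rangeRestrict (ε i x)) = _
    congr 1
    exact Subtype.ext (LinearMap.congr_fun (h.idem i) x)
  choose e' he1 he2 using hex
  have hmem : ∀ p, ε i (bas p : V) = bas p := by
    intro p
    obtain ⟨y, hy⟩ := (bas p).2
    rw [← hy]
    exact LinearMap.congr_fun (h.idem i) y
  have hexp : ∀ x, ε i x = ∑ p, form x (a i (e' p)) • (bas p : V) := by
    intro x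
    have h1 := congrArg (fun w : LinearMap.range (ε i) => (w : V))
      (bas.sum_repr ((ε i).rangeRestrict x))
    simp only [Submodule.coe_sum, Submodule.coe_smul] at h1
    have h2 : (((ε i).rangeRestrict x : LinearMap.range (ε i)) : V) = ε i x := rfl
    rw [← h2, ← h1]
    exact Finset.sum_congr rfl fun p _ => by rw [he2 p, Basis.coord_apply]
  refine ⟨e', hmem, he1, fun p q => ?_, hexp, fun y => ?_⟩
  · rw [he2]
    have h1 : (ε i).rangeRestrict (bas p : V) = bas p := Subtype.ext (hmem p)
    rw [h1, Basis.coord_apply, Basis.repr_self, Finsupp.single_apply]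
  · have h1 : a i (ε (ds i) y) = a i (∑ p, form (bas p : V) (a i y) • e' p) := by
      rw [← sub_eq_zero]
      refine hnd' _ fun x => ?_
      have h2 : a i (ε (ds i) y) = a i y := LinearMap.congr_fun (hD.right i hi) y
      rw [h2, map_sub, sub_eq_zero, ← hD.left i hi, hexp]
      simp only [map_sum, map_smul, LinearMap.sum_apply, LinearMap.smul_apply, smul_eq_mul]
      exact Finset.sum_congr rfl fun p _ => mul_comm _ _
    have h3 : ∀ w, b i (a i w) = ε (ds i) w := fun w => LinearMap.congr_fun (hD.ba i hi) w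
    have h4 := congrArg (b i) h1
    rw [h3, h3] at h4
    have h5 : ε (ds i) (ε (ds i) y) = ε (ds i) y := LinearMap.congr_fun (h.idem (ds i)) y
    rw [h5, map_sum] at h4
    rw [h4]
    exact Finset.sum_congr rfl fun p _ => by rw [map_smul, he1]

end Pool.Agent.Lib.MP_640417_ag.Fg
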