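import Pool.Agent.Lib.MP_640417_ag.Fg.BaseL
import Pool.Agent.Lib.MP_640417_ag.Fr.WtD
import Pool.Agent.Lib.MP_640417_ag.Fr.SemiD

/-!
# MP_640417_ag, Fg, module DblF: the doubled representation with its alternating form, over `K`
-/

set_option autoImplicit false

namespace Pool.Agent.Lib.MP_640417_ag.Fg

open Module TensorProduct Pool.Agent.Lib.MP_640417_ag.Fr

variable {Γ : Type} [Group Γ] [TopologicalSpace Γ] {F : Type} [Field F]
  [TopologicalSpace F] [ContinuousAdd F] {V : Type} [AddCommGroup V] [Module F V]

/-- the doubled representation with its alternating form -/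
noncomputable def dblF (ρ : FormRep Γ F V) : FormRep Γ F (V × V) where
  T := (dbl ρ).T
  χ := ρ.χ
  continuous_coeff := (dbl ρ).continuous_coeff
  form := dblForm ρ.form
  form_nondeg := (dbl ρ).form_nondeg
  form_nondeg' y h := (dbl ρ).form_nondeg y fun x => by
    have h1 := h x
    rw [dblForm_apply] at h1
    rw [dbl_form, ← neg_sub, h1, neg_zero]
  form_equivariant := (dbl ρ).form_equivariant

variable (ρ : FormRep Γ F V)

theorem alt_dblF (x : V × V) : (dblF ρ).form x x = 0 := by
  show dblForm ρ.form x x = 0
  rw [dblForm_apply, sub_self]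

theorem inCom_dblF (c : Module.End F (V × V)) :
    InCom (dblF ρ) c ↔ ∀ a b, InCom ρ (cmp a b c) := commF_dbl ρ c

theorem lef_dblF (X' : Module.End F (V × V)) :
    Lef (dblF ρ) X' ↔ ∃ X, Lef ρ X ∧ X' = X.prodMap X := lef_dbl ρ X'

theorem semi_dblF (h : Semisimple ρ) : Semisimple (dblF ρ) := semi_dbl ρ h

private theorem cmp_pm (a b : Bool) (X : Module.End F V) :
    cmp a b (X.prodMap X) = if a = b then X else 0 := by
  refine LinearMap.ext fun x => ?_
  cases a <;> cases b <;> simp [Fr.cmp, pr, inj]

theorem lie_center_dblF (hB : ∀ Z, Lef ρ Z → (∀ X, Lef ρ X → Z * X = X * Z) → InCom ρ Z)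
    (Z' : Module.End F (V × V)) (hZ : Lef (dblF ρ) Z')
    (hc : ∀ X, Lef (dblF ρ) X → Z' * X = X * Z') : InCom (dblF ρ) Z' := by
  obtain ⟨Z, hZ1, rfl⟩ := (lef_dblF ρ Z').mp hZ
  have h1 : InCom ρ Z := by
    refine hB Z hZ1 fun X hX => ?_
    have h2 := hc _ ((lef_dblF ρ _).mpr ⟨X, hX, rfl⟩)
    refine LinearMap.ext fun x => ?_
    exact congrArg Prod.fst (LinearMap.congr_fun h2 (x, 0))
  rw [inCom_dblF]
  intro a b
  rw [cmp_pm]
  split_ifs
  · exact h1
  · exact ⟨⊤, fun γ _ => by rw [zero_mul, mul_zero]⟩

/-! ### over `K` -/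

omit [TopologicalSpace F] [ContinuousAdd F] in
private theorem injK_prodMap (a : Bool) (X : Module.End F V) (x : AlgebraicClosure F ⊗[F] V) :
    (X.prodMap X).baseChange (AlgebraicClosure F) (injK F V a x) =
      injK F V a (X.baseChange (AlgebraicClosure F) x) := by
  have h : (X.prodMap X) ∘ₗ inj F V a = inj F V a ∘ₗ X := by
    refine LinearMap.ext fun x => ?_
    cases a <;> simp [inj]
  have h1 : (X.prodMap X).baseChange (AlgebraicClosure F) (injK F V a x) =
      ((X.prodMap X) ∘ₗ inj F V a).baseChange (AlgebraicClosure F) x := by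
    rw [LinearMap.baseChange_comp]
    rfl
  rw [h1, h, LinearMap.baseChange_comp]
  rfl

/-- the components of an element of the commutant -/
theorem pr_comF {c : Module.End (AlgebraicClosure F) (AlgebraicClosure F ⊗[F] (V × V))}
    (hc : c ∈ comF (dblF ρ)) (a b : Bool) : prK F V a ∘ₗ c ∘ₗ injK F V b ∈ comF ρ := by
  obtain ⟨U, hU⟩ := hc
  refine ⟨U, fun γ hγ => LinearMap.ext fun x => ?_⟩
  have h1 := LinearMap.congr_fun (hU γ hγ) (injK F V b x)
  change c (((ρ.T γ).prodMap (ρ.T γ)).baseChange (AlgebraicClosure F) (injK F V b x)) =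
    ((ρ.T γ).prodMap (ρ.T γ)).baseChange (AlgebraicClosure F) (c (injK F V b x)) at h1
  show prK F V a (c (injK F V b ((ρ.T γ).baseChange (AlgebraicClosure F) x))) =
    (ρ.T γ).baseChange (AlgebraicClosure F) (prK F V a (c (injK F V b x)))
  rw [← injK_prodMap, h1, prK_prodMap]

/-- the elements of the commutant with one nonzero component -/
theorem inj_comF {c : Module.End (AlgebraicClosure F) (AlgebraicClosure F ⊗[F] V)}
    (hc : c ∈ comF ρ) (a b : Bool) : injK F V a ∘ₗ c ∘ₗ prK F V b ∈ comF (dblF ρ) := by
  obtain ⟨U, hU⟩ := hc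
  refine ⟨U, fun γ hγ => LinearMap.ext fun x => ?_⟩
  have h1 := LinearMap.congr_fun (hU γ hγ) (prK F V b x)
  change c ((ρ.T γ).baseChange (AlgebraicClosure F) (prK F V b x)) =
    (ρ.T γ).baseChange (AlgebraicClosure F) (c (prK F V b x)) at h1
  show injK F V a (c (prK F V b (((ρ.T γ).prodMap (ρ.T γ)).baseChange (AlgebraicClosure F) x))) =
    ((ρ.T γ).prodMap (ρ.T γ)).baseChange (AlgebraicClosure F) (injK F V a (c (prK F V b x)))
  rw [prK_prodMap, h1, injK_prodMap]

/-- the form of the doubled representation over `K` -/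
theorem dblF_formK (z w : AlgebraicClosure F ⊗[F] (V × V)) :
    (dblF ρ).form.baseChange (AlgebraicClosure F) z w =
      ρ.form.baseChange (AlgebraicClosure F) (prK F V false z) (prK F V true w) -
        ρ.form.baseChange (AlgebraicClosure F) (prK F V false w) (prK F V true z) := by
  induction z using TensorProduct.induction_on with
  | zero => simp
  | add z z' h h' =>
    simp only [map_add, LinearMap.add_apply, h, h']
    ring
  | tmul a z =>
    induction w using TensorProduct.induction_on with
    | zero => simp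
    | add w w' h h' =>
      simp only [map_add, LinearMap.add_apply, h, h']
      ring
    | tmul b w =>
      show (dblForm ρ.form).baseChange (AlgebraicClosure F) (a ⊗ₜ[F] z) (b ⊗ₜ[F] w) =
        ρ.form.baseChange (AlgebraicClosure F) (a ⊗ₜ[F] z.1) (b ⊗ₜ[F] w.2) -
          ρ.form.baseChange (AlgebraicClosure F) (b ⊗ₜ[F] w.1) (a ⊗ₜ[F] z.2)
      rw [LinearMap.BilinForm.baseChange_tmul, LinearMap.BilinForm.baseChange_tmul,
        LinearMap.BilinForm.baseChange_tmul, dblForm_apply, mul_comm b a]
      simp only [Algebra.smul_def, map_sub]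
      ring

theorem prK_injK_self (a : Bool) (x : AlgebraicClosure F ⊗[F] V) :
    prK F V a (injK F V a x) = x := by
  rw [prK_injK, if_pos rfl]

theorem prK_injK_ne {a b : Bool} (h : a ≠ b) (x : AlgebraicClosure F ⊗[F] V) :
    prK F V a (injK F V b x) = 0 := by
  rw [prK_injK, if_neg h]

variable {ρ}

/-- an element of the Lefschetz Lie algebra of the doubled representation is diagonal -/
theorem inL_dbl {P' : Module.End (AlgebraicClosure F) (AlgebraicClosure F ⊗[F] (V × V))}
    (h : InL ((dblF ρ).form.baseChange (AlgebraicClosure F)) (comF (dblF ρ)) P') :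
    InL (ρ.form.baseChange (AlgebraicClosure F)) (comF ρ)
        (prK F V false ∘ₗ P' ∘ₗ injK F V false) ∧
      (∀ a x, P' (injK F V a x) = injK F V a (prK F V false (P' (injK F V false x)))) ∧
      ∀ a z, prK F V a (P' z) = prK F V false (P' (injK F V false (prK F V a z))) := by
  have hone : (1 : Module.End (AlgebraicClosure F) (AlgebraicClosure F ⊗[F] V)) ∈ comF ρ :=
    (comF ρ).one_mem
  -- commutation with the matrix units
  have hE : ∀ a b z, P' (injK F V a (prK F V b z)) = injK F V a (prK F V b (P' z)) := fun a b z =>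
    LinearMap.congr_fun (h.1 _ (inj_comF ρ hone a b)) z
  have h2 : ∀ a x, P' (injK F V a x) =
      injK F V a (prK F V false (P' (injK F V false x))) := by
    intro a x
    have h3 := hE a false (injK F V false x)
    rw [prK_injK_self] at h3
    exact h3
  refine ⟨⟨fun c hc => LinearMap.ext fun x => ?_, fun x y => ?_⟩, h2, fun a z => ?_⟩
  · have h3 := LinearMap.congr_fun (h.1 _ (inj_comF ρ hc false false)) (injK F V false x)
    change P' (injK F V false (c (prK F V false (injK F V false x)))) =
      injK F V false (c (prK F V false (P' (injK F V false x)))) at h3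
    rw [prK_injK_self] at h3
    show prK F V false (P' (injK F V false (c x))) = c (prK F V false (P' (injK F V false x)))
    rw [h3, prK_injK_self]
  · have h3 := h.2 (injK F V false x) (injK F V true y)
    rw [dblF_formK, dblF_formK, h2 true y, prK_injK_self, prK_injK_self, prK_injK_self,
      prK_injK_ne (a := false) (b := true) (by decide), prK_injK_ne (a := false) (b := true)
        (by decide)] at h3
    simp only [map_zero, LinearMap.zero_apply, sub_zero] at h3
    exact h3
  · have h3 := hE a a z
    rw [h2 a] at h3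
    have h4 := congrArg (prK F V a) h3
    rw [prK_injK_self, prK_injK_self] at h4
    exact h4.symm

/-- the diagonal element of an element of the Lefschetz Lie algebra -/
theorem diag_inL {P : Module.End (AlgebraicClosure F) (AlgebraicClosure F ⊗[F] V)}
    (h : InL (ρ.form.baseChange (AlgebraicClosure F)) (comF ρ) P) :
    InL ((dblF ρ).form.baseChange (AlgebraicClosure F)) (comF (dblF ρ))
      (injK F V false ∘ₗ P ∘ₗ prK F V false + injK F V true ∘ₗ P ∘ₗ prK F V true) := by
  have hpr : ∀ a z, prK F V a ((injK F V false ∘ₗ P ∘ₗ prK F V false +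
      injK F V true ∘ₗ P ∘ₗ prK F V true) z) = P (prK F V a z) := by
    intro a z
    show prK F V a (injK F V false (P (prK F V false z)) + injK F V true (P (prK F V true z))) = _
    rw [map_add]
    cases a
    · rw [prK_injK_self, prK_injK_ne (by decide), add_zero]
    · rw [prK_injK_self, prK_injK_ne (by decide), zero_add]
  refine ⟨fun c hc => LinearMap.ext fun z => ?_, fun z w => ?_⟩
  · have h1 : ∀ a b x, P (prK F V a (c (injK F V b x))) = prK F V a (c (injK F V b (P x))) :=
      fun a b x => LinearMap.congr_fun (h.1 _ (pr_comF ρ hc a b)) x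
    have h2 : ∀ a, P (prK F V a (c z)) = prK F V a (c ((injK F V false ∘ₗ P ∘ₗ prK F V false +
        injK F V true ∘ₗ P ∘ₗ prK F V true) z)) := by
      intro a
      have h3 : c z = c (injK F V false (prK F V false z)) + c (injK F V true (prK F V true z)) := by
        rw [← map_add, injK_prK]
      rw [h3, map_add, map_add, h1, h1, ← map_add, ← map_add]
      rfl
    refine (injK_prK F V _).symm.trans (Eq.trans ?_ (injK_prK F V _))
    rw [Module.End.mul_apply, Module.End.mul_apply, hpr, hpr, h2, h2]
  · rw [dblF_formK, dblF_formK, hpr, hpr, hpr, hpr]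
    have h1 := h.2 (prK F V false z) (prK F V true w)
    have h2 := h.2 (prK F V false w) (prK F V true z)
    linear_combination h1 - h2

/-- the Lefschetz Lie algebra of `ρ` is spanned by commutators and central elements if this is so for the doubled
representation -/
theorem perf_dbl (hp : Perf ((dblF ρ).form.baseChange (AlgebraicClosure F)) (comF (dblF ρ))) :
    Perf (ρ.form.baseChange (AlgebraicClosure F)) (comF ρ) := by
  intro X hX
  let φ : Module.End (AlgebraicClosure F) (AlgebraicClosure F ⊗[F] (V × V)) →ₗ[AlgebraicClosure F]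
      Module.End (AlgebraicClosure F) (AlgebraicClosure F ⊗[F] V) :=
    (LinearMap.lcomp _ _ (injK F V false)) ∘ₗ (LinearMap.llcomp _ _ _ _ (prK F V false))
  have hφ : ∀ M x, φ M x = prK F V false (M (injK F V false x)) := fun M x => rfl
  have h1 := hp _ (diag_inL hX)
  have h2 := Submodule.mem_map_of_mem (f := φ) h1
  have h3 : φ (injK F V false ∘ₗ X ∘ₗ prK F V false + injK F V true ∘ₗ X ∘ₗ prK F V true) = X := by
    refine LinearMap.ext fun x => ?_
    rw [hφ]
    show prK F V false (injK F V false (X (prK F V false (injK F V false x))) +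
      injK F V true (X (prK F V true (injK F V false x)))) = X x
    rw [map_add, prK_injK_self, prK_injK_self, prK_injK_ne (by decide), add_zero]
  rw [h3, Submodule.map_span] at h2
  refine Submodule.span_mono ?_ h2
  rintro _ ⟨M, hM | hM, rfl⟩
  · obtain ⟨P, Q, hP, hQ, rfl⟩ := hM
    obtain ⟨hP1, hP2, -⟩ := inL_dbl hP
    obtain ⟨hQ1, hQ2, -⟩ := inL_dbl hQ
    refine Or.inl ⟨_, _, hP1, hQ1, LinearMap.ext fun x => ?_⟩
    rw [hφ]
    show prK F V false (P (Q (injK F V false x)) - Q (P (injK F V false x))) =
      prK F V false (P (injK F V false (prK F V false (Q (injK F V false x))))) -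
        prK F V false (Q (injK F V false (prK F V false (P (injK F V false x)))))
    rw [map_sub, ← hQ2, ← hP2]
  · obtain ⟨h4, h5⟩ := hM
    exact Or.inr ⟨pr_comF ρ h4 false false, (inL_dbl h5).1⟩

end Pool.Agent.Lib.MP_640417_ag.Fg
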