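import Pool.Agent.Lib.MP_640417_ag.Fg.Stmt
import Pool.Agent.Lib.MP_640417_ag.Orth.Ml
import Pool.Agent.Lib.MP_640417_ag.Orth.DefsA

/-!
# MP_640417_ag, Fg: atoms, duals, the Lefschetz Lie algebra

`K` a field, `form` with `form x y = e * form y x`, `e * e = 1`, `C` a subalgebra of `End V`. `ε j` are orthogonal minimal idempotents of
`C`, `r j` is the representative of the class of `j`, `u j : range (ε (r j)) → range (ε j)` and `v j` are inverse
isomorphisms. `ds i` is the dual of the representative `i`, and `form x (a i y)` is a perfect pairing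
between the ranges of `ε i` and `ε (ds i)`.
-/

set_option autoImplicit false

namespace Pool.Agent.Lib.MP_640417_ag.Fg

open Module Pool.Agent.Lib.MP_640417_ag.Orth

variable {K V : Type} [Field K] [AddCommGroup V] [Module K V]

/-- The functions of `k` vectors which are generated by the pairings `form (c x) y`, `c ∈ C`, and the determinants
`det_W (p₁ x₁, .., p_d x_d)`, `W` a subspace with the property `St`, `p i : V → W` in `C`, by sums and by products of
functions of disjoint sets of variables. -/
inductive Gen {K V : Type} [Field K] [AddCommGroup V] [Module K V]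
    (form : LinearMap.BilinForm K V) (C : Set (Module.End K V)) (St : Submodule K V → Prop) :
    (k : ℕ) → ((Fin k → V) → K) → Prop
  | const (a : K) : Gen form C St 0 fun _ => a
  | pair (c : Module.End K V) (hc : c ∈ C) : Gen form C St 2 fun v => form (c (v 0)) (v 1)
  | det (d : ℕ) (W : Submodule K V) (hW : St W) (b : Basis (Fin d) K W) (p : Fin d → V →ₗ[K] W)
      (hp : ∀ i, W.subtype ∘ₗ p i ∈ C) : Gen form C St d fun v => b.det fun i => p i (v i)
  | zero (k : ℕ) : Gen form C St k fun _ => 0
  | add (k : ℕ) (f g : (Fin k → V) → K) : Gen form C St k f → Gen form C St k g →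
      Gen form C St k fun v => f v + g v
  | mul (a b k : ℕ) (e : Fin a ⊕ Fin b ≃ Fin k) (f : (Fin a → V) → K) (g : (Fin b → V) → K) :
      Gen form C St a f → Gen form C St b g →
      Gen form C St k fun v => f (fun i => v (e (Sum.inl i))) * g (fun i => v (e (Sum.inr i)))

/-- `C` is a von Neumann regular ring. -/
def RegC (C : Subalgebra K (Module.End K V)) : Prop := ∀ c ∈ C, ∃ d ∈ C, c * d * c = c

/-- `C` contains the adjoints of its elements. -/
def AdjCl (form : LinearMap.BilinForm K V) (C : Subalgebra K (Module.End K V)) : Prop :=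
  ∀ c ∈ C, ∃ c' ∈ C, ∀ x y, form (c x) y = form x (c' y)

/-- A decomposition of `1` into orthogonal minimal idempotents of `C`. -/
structure MinIdem (C : Subalgebra K (Module.End K V)) {N : ℕ} (ε : Fin N → Module.End K V) :
    Prop where
  mem : ∀ j, ε j ∈ C
  ne : ∀ j, ε j ≠ 0
  sum : ∑ j, ε j = 1
  idem : ∀ j, ε j * ε j = ε j
  orth : ∀ j k, j ≠ k → ε j * ε k = 0
  one : ∀ j, ∀ c ∈ C, ∃ t : K, ε j * c * ε j = t • ε j

/-- Matrix units. -/
structure Atoms (C : Subalgebra K (Module.End K V)) {N : ℕ} (ε : Fin N → Module.End K V)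
    (r : Fin N → Fin N) (u v : Fin N → Module.End K V) : Prop extends MinIdem C ε where
  rr : ∀ j, r (r j) = r j
  uC : ∀ j, u j ∈ C
  vC : ∀ j, v j ∈ C
  uv : ∀ j, u j * v j = ε j
  vu : ∀ j, v j * u j = ε (r j)
  eu : ∀ j, ε j * u j = u j
  ue : ∀ j, u j * ε (r j) = u j
  ve : ∀ j, v j * ε j = v j
  ev : ∀ j, ε (r j) * v j = v j
  two : ∀ j k, ∀ c ∈ C, ∃ t : K, ε j * c * ε k = t • (u j * v k)

/-- Duals of the representatives. -/
structure Duals (form : LinearMap.BilinForm K V) (C : Subalgebra K (Module.End K V)) {N : ℕ}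
    (ε : Fin N → Module.End K V) (r ds : Fin N → Fin N) (a b : Fin N → Module.End K V) :
    Prop where
  rds : ∀ i, r i = i → r (ds i) = ds i
  dds : ∀ i, r i = i → ds (ds i) = i
  aC : ∀ i, a i ∈ C
  bC : ∀ i, b i ∈ C
  left : ∀ i, r i = i → ∀ x y, form (ε i x) (a i y) = form x (a i y)
  right : ∀ i, r i = i → a i * ε (ds i) = a i
  ab : ∀ i, r i = i → ∀ x y, form x (a i (b i y)) = form (ε i x) y
  ba : ∀ i, r i = i → b i * a i = ε (ds i)
  far : ∀ i k, r i = i → r k = k → k ≠ ds i → ∀ c ∈ C, ∀ x y, form (ε i x) (c (ε k y)) = 0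
  sgn : ∀ i, r i = i → ds i = i → ∃ s : K, s * s = 1 ∧ ∀ x y, form x (a i y) = s * form y (a i x)

/-- The Lefschetz Lie algebra. -/
def InL (form : LinearMap.BilinForm K V) (C : Subalgebra K (Module.End K V))
    (X : Module.End K V) : Prop :=
  (∀ c ∈ C, X * c = c * X) ∧ ∀ x y, form (X x) y + form x (X y) = 0

/-- The skew elements of the center of `C`. -/
def InZ (form : LinearMap.BilinForm K V) (C : Subalgebra K (Module.End K V))
    (z : Module.End K V) : Prop := z ∈ C ∧ InL form C z

/-- The Lefschetz Lie algebra is spanned by the commutators of its elements and its central elements in `C`. -/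
def Perf (form : LinearMap.BilinForm K V) (C : Subalgebra K (Module.End K V)) : Prop :=
  ∀ X, InL form C X → X ∈ Submodule.span K
    ({M | ∃ P Q, InL form C P ∧ InL form C Q ∧ M = P * Q - Q * P} ∪ {z | InZ form C z})

/-- The form `f` is killed by the commutators of the elements of the Lefschetz Lie algebra. -/
def Kd (form : LinearMap.BilinForm K V) (C : Subalgebra K (Module.End K V)) {k : ℕ}
    (f : Mf K V k) : Prop :=
  ∀ P Q, InL form C P → InL form C Q → Dm (P * Q - Q * P) f = 0

/-- The form `g` depends only on the `ε (s l) (v l)`. -/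
def Sorted {N : ℕ} (ε : Fin N → Module.End K V) {k : ℕ} (s : Fin k → Fin N) (g : Mf K V k) :
    Prop := ∀ v, g (fun l => ε (s l) (v l)) = g v

/-- Dual bases of the ranges of `ε i` and `ε (ds i)`. -/
structure DB (form : LinearMap.BilinForm K V) {N : ℕ} (ε : Fin N → Module.End K V)
    (ds : Fin N → Fin N) (a : Fin N → Module.End K V) (i : Fin N) {d : ℕ} (e e' : Fin d → V) :
    Prop where
  mem : ∀ p, ε i (e p) = e p
  mem' : ∀ p, ε (ds i) (e' p) = e' p
  dual : ∀ p q, form (e p) (a i (e' q)) = if p = q then 1 else 0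
  exp : ∀ x, ε i x = ∑ p, form x (a i (e' p)) • e p
  exp' : ∀ y, ε (ds i) y = ∑ p, form (e p) (a i y) • e' p

/-- The contraction of `g` in the variables `l`, `m`: `∑ p, g (.. e p at l .. e' p at m ..)`. -/
def ctrF {k d : ℕ} (e e' : Fin d → V) (l m : Fin k) (g : Mf K V k) (v : Fin k → V) : K :=
  ∑ p, g (Function.update (Function.update v l (e p)) m (e' p))

end Pool.Agent.Lib.MP_640417_ag.Fg
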