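import Pool.Agent.Lib.MP_640417_ag.Fg.Defs

/-!
# MP_640417_ag, Fg, module DetI (250 lines): forms which are alternating in the variables of one sort

`det_extract`: see `Orth/AltDet.lean` (`exists_of_alt`, `cur`, `cur_alt`), the case of the whole space. Here for fixed `w : Fin k' → V` the map `y ↦ g (Sum.elim (fun p => (y p : V)) w ∘ eq.symm)` is alternating in `y : Fin d → W`, `W = range (ε i)`, so
it is `g (Sum.elim b w ∘ eq.symm) • b.det y`. `q w = g (Sum.elim (fun p => (b p : V)) w ∘ eq.symm)`, multilinear in `w`. By `Sorted` `g v = g (fun x => ε (s x) (v x))`, the variables `eq (inl p)` are `ε i (v ..) ∈ W`, and the other ones can be changed back.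
`Sorted` for `q` from that of `g`. `Kd`: `X = P Q - Q P` preserves `W` (commutes with `ε i`), and its restriction to `W` is a commutator, of trace `0`; `0 = Dm X g (b, w) = ∑ p, g (b with b p replaced by X b p, w) + Dm X q w`,
`∑ p, g (.. X b p ..) = (∑ p, b.det (update b p (X b p))) * q w = tr (X | W) * q w = 0` (`AltDet.lean` has `det_update` (private): `b.det (update b p y) = b.repr y p`).
`alt_zero`: `g v` depends on the `ε i (v x)`, `x ∈ t`, alternating in `t.card > dim W` vectors of `W`: zero (`AlternatingMap.map_eq_zero_of_not_injective` .. or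
`AlternatingMap` of linearly dependent vectors: `AlternatingMap.map_linearDependent`).
-/

set_option autoImplicit false

namespace Pool.Agent.Lib.MP_640417_ag.Fg

open Module Pool.Agent.Lib.MP_640417_ag.Orth

private theorem di_det_update {K W : Type} [Field K] [AddCommGroup W] [Module K W] {N : ℕ}
    (b : Basis (Fin N) K W) (i : Fin N) (y : W) :
    b.det (Function.update b i y) = b.repr y i := by
  have h : b.det.toMultilinearMap.toLinearMap b i = b.coord i := by
    refine b.ext fun j => ?_
    rw [MultilinearMap.toLinearMap_apply, Basis.coord_apply, Basis.repr_self]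
    by_cases hij : i = j
    · subst hij
      rw [Function.update_eq_self, Finsupp.single_eq_same]
      exact b.det_self
    · rw [Finsupp.single_eq_of_ne hij]
      refine b.det.map_eq_zero_of_eq _ (i := i) (j := j) ?_ hij
      rw [Function.update_self, Function.update_of_ne (Ne.symm hij)]
  have h2 := LinearMap.congr_fun h y
  rw [MultilinearMap.toLinearMap_apply, Basis.coord_apply] at h2
  exact h2

private theorem di_sum_det {K W : Type} [Field K] [AddCommGroup W] [Module K W] {N : ℕ}
    (b : Basis (Fin N) K W) (M : Module.End K W) :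
    ∑ i, b.det (Function.update b i (M (b i))) = LinearMap.trace K W M := by
  rw [LinearMap.trace_eq_matrix_trace K b M, Matrix.trace]
  refine Finset.sum_congr rfl fun i _ => ?_
  rw [di_det_update, Matrix.diag_apply, LinearMap.toMatrix_apply]

private theorem di_upd_inl {V : Type} {N k' k : ℕ} (e : Fin N ⊕ Fin k' ≃ Fin k) (w : Fin N → V)
    (u : Fin k' → V) (i : Fin N) (x : V) :
    Function.update (fun l => Sum.elim w u (e.symm l)) (e (Sum.inl i)) x =
      fun l => Sum.elim (Function.update w i x) u (e.symm l) := by
  funext l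
  obtain ⟨s, rfl⟩ := e.surjective l
  rcases s with a | a
  · rw [Equiv.symm_apply_apply]
    by_cases h : a = i
    · subst h
      rw [Function.update_self, Sum.elim_inl, Function.update_self]
    · rw [Function.update_of_ne, Equiv.symm_apply_apply, Sum.elim_inl, Sum.elim_inl,
        Function.update_of_ne h]
      intro h2
      exact h (Sum.inl_injective (e.injective h2))
  · rw [Function.update_of_ne, Equiv.symm_apply_apply, Sum.elim_inr, Sum.elim_inr]
    intro h2
    exact absurd (e.injective h2) (by simp)

private theorem di_upd_inr {V : Type} {N k' k : ℕ} (e : Fin N ⊕ Fin k' ≃ Fin k) (w : Fin N → V)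
    (u : Fin k' → V) (i : Fin k') (x : V) :
    Function.update (fun l => Sum.elim w u (e.symm l)) (e (Sum.inr i)) x =
      fun l => Sum.elim w (Function.update u i x) (e.symm l) := by
  funext l
  obtain ⟨s, rfl⟩ := e.surjective l
  rcases s with a | a
  · rw [Function.update_of_ne, Equiv.symm_apply_apply, Sum.elim_inl, Sum.elim_inl]
    intro h2
    exact absurd (e.injective h2) (by simp)
  · rw [Equiv.symm_apply_apply]
    by_cases h : a = i
    · subst h
      rw [Function.update_self, Sum.elim_inr, Function.update_self]
    · rw [Function.update_of_ne, Equiv.symm_apply_apply, Sum.elim_inr, Sum.elim_inr,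
        Function.update_of_ne h]
      intro h2
      exact h (Sum.inr_injective (e.injective h2))

/-- The partial evaluation. -/
private noncomputable def di_cur {K V : Type} [Field K] [AddCommGroup V] [Module K V]
    {N k' k : ℕ} (e : Fin N ⊕ Fin k' ≃ Fin k) (f : Mf K V k) :
    MultilinearMap K (fun _ : Fin N => V) (Mf K V k') where
  toFun w :=
    { toFun := fun u => f (fun l => Sum.elim w u (e.symm l))
      map_update_add' := by
        intro inst u i x y
        rw [Subsingleton.elim inst (instDecidableEqFin k')]
        rw [← di_upd_inr, ← di_upd_inr, ← di_upd_inr, MultilinearMap.map_update_add]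
      map_update_smul' := by
        intro inst u i r x
        rw [Subsingleton.elim inst (instDecidableEqFin k')]
        rw [← di_upd_inr, ← di_upd_inr, MultilinearMap.map_update_smul] }
  map_update_add' := by
    intro inst w i x y
    rw [Subsingleton.elim inst (instDecidableEqFin N)]
    ext u
    change f _ = f _ + f _
    rw [← di_upd_inl, ← di_upd_inl, ← di_upd_inl, MultilinearMap.map_update_add]
  map_update_smul' := by
    intro inst w i r x
    rw [Subsingleton.elim inst (instDecidableEqFin N)]
    ext u
    change f _ = r • f _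
    rw [← di_upd_inl, ← di_upd_inl, MultilinearMap.map_update_smul]

private theorem di_cur_apply {K V : Type} [Field K] [AddCommGroup V] [Module K V]
    {N k' k : ℕ} (e : Fin N ⊕ Fin k' ≃ Fin k) (f : Mf K V k)
    (w : Fin N → V) (u : Fin k' → V) :
    di_cur e f w u = f (fun l => Sum.elim w u (e.symm l)) := rfl

private theorem di_cur_alt {K V : Type} [Field K] [CharZero K] [AddCommGroup V] [Module K V]
    {N k' k : ℕ} (e : Fin N ⊕ Fin k' ≃ Fin k) (f : Mf K V k)
    (hf : ∀ i j : Fin N, i ≠ j →
      perm (Equiv.swap (e (Sum.inl i)) (e (Sum.inl j))) f = - f)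
    (w : Fin N → V) (i j : Fin N) (hw : w i = w j) (hij : i ≠ j) : di_cur e f w = 0 := by
  ext u
  rw [di_cur_apply]
  have h1 := congrArg (fun h : Mf K V k => h (fun l => Sum.elim w u (e.symm l))) (hf i j hij)
  simp only [perm_apply] at h1
  have h2 : (fun l => Sum.elim w u (e.symm (Equiv.swap (e (Sum.inl i)) (e (Sum.inl j)) l))) =
      fun l => Sum.elim w u (e.symm l) := by
    funext l
    by_cases hi : l = e (Sum.inl i)
    · rw [hi, Equiv.swap_apply_left, Equiv.symm_apply_apply, Equiv.symm_apply_apply,
        Sum.elim_inl, Sum.elim_inl, hw]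
    · by_cases hj : l = e (Sum.inl j)
      · rw [hj, Equiv.swap_apply_right, Equiv.symm_apply_apply, Equiv.symm_apply_apply,
          Sum.elim_inl, Sum.elim_inl, hw]
      · rw [Equiv.swap_apply_of_ne_of_ne hi hj]
  rw [h2] at h1
  have h3 : f (fun l => Sum.elim w u (e.symm l)) = - f (fun l => Sum.elim w u (e.symm l)) := h1
  exact self_eq_neg.1 h3

/-- the partial evaluation at vectors of a subspace is a multiple of the determinant -/
private theorem di_key {K V : Type} [Field K] [CharZero K] [AddCommGroup V] [Module K V]
    {W : Submodule K V} {N k' k : ℕ} (b : Basis (Fin N) K W) (e : Fin N ⊕ Fin k' ≃ Fin k)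
    (f : Mf K V k) (hf : ∀ i j : Fin N, i ≠ j →
      perm (Equiv.swap (e (Sum.inl i)) (e (Sum.inl j))) f = - f) (w : Fin N → W)
    (u : Fin k' → V) :
    di_cur e f (fun p => (w p : V)) u = b.det w * di_cur e f (fun p => (b p : V)) u := by
  let A : W [⋀^Fin N]→ₗ[K] (Mf K V k') :=
    { (di_cur e f).compLinearMap (fun _ => W.subtype) with
      map_eq_zero_of_eq' := fun w i j hw hij =>
        di_cur_alt e f hf (fun p => (w p : V)) i j (congrArg Subtype.val hw) hij }
  let ev : (Mf K V k') →ₗ[K] K :=
    { toFun := fun h => h u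
      map_add' := fun _ _ => rfl
      map_smul' := fun _ _ => rfl }
  have h1 := AlternatingMap.eq_smul_basis_det b (ev.compAlternatingMap A)
  have h2 := congrArg (fun h : W [⋀^Fin N]→ₗ[K] K => h w) h1
  have h3 : di_cur e f (fun p => (w p : V)) u =
    di_cur e f (fun p => (b p : V)) u * b.det w := h2
  rw [h3, mul_comm]

theorem det_extract {K V : Type} [Field K] [CharZero K] [AddCommGroup V] [Module K V]
    [FiniteDimensional K V] {form : LinearMap.BilinForm K V}
    {C : Subalgebra K (Module.End K V)} {N : ℕ}
    {ε : Fin N → Module.End K V} {r : Fin N → Fin N} {u v : Fin N → Module.End K V}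
    (h : Atoms C ε r u v) (i : Fin N) {d : ℕ} (b : Basis (Fin d) K (LinearMap.range (ε i)))
    {k k' : ℕ} {s : Fin k → Fin N} (eq : Fin d ⊕ Fin k' ≃ Fin k)
    (hs : ∀ p, s (eq (Sum.inl p)) = i) (g : Mf K V k) (hg : Sorted ε s g) (hk : Kd form C g)
    (halt : ∀ p q : Fin d, p ≠ q →
      perm (Equiv.swap (eq (Sum.inl p)) (eq (Sum.inl q))) g = - g) :
    ∃ q : Mf K V k', (∀ v : Fin k → V, g v =
        b.det (fun p => (ε i).rangeRestrict (v (eq (Sum.inl p)))) *
          q (fun x => v (eq (Sum.inr x)))) ∧
      Sorted ε (fun x => s (eq (Sum.inr x))) q ∧ Kd form C q := by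
  have hbi : ∀ p, ε i (b p : V) = (b p : V) := by
    intro p
    obtain ⟨y, hy⟩ := (b p).2
    rw [← hy]
    exact LinearMap.congr_fun (h.idem i) y
  have hsort : Sorted ε (fun x => s (eq (Sum.inr x))) (di_cur eq g (fun p => (b p : V))) := by
    intro w
    rw [di_cur_apply, di_cur_apply, ← hg, ← hg (fun l => Sum.elim _ w (eq.symm l))]
    congr 1
    funext l
    obtain ⟨t, rfl⟩ := eq.surjective l
    rw [Equiv.symm_apply_apply]
    rcases t with a | a
    · rfl
    · exact LinearMap.congr_fun (h.idem _) (w a)
  refine ⟨di_cur eq g (fun p => (b p : V)), fun v => ?_, hsort, fun P Q hP hQ => ?_⟩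
  · have h1 := hsort (fun x => v (eq (Sum.inr x)))
    rw [← h1, ← di_key b eq g halt, di_cur_apply, ← hg]
    congr 1
    funext l
    obtain ⟨t, rfl⟩ := eq.surjective l
    rw [Equiv.symm_apply_apply]
    rcases t with a | a
    · rw [hs]
      rfl
    · rfl
  · have hPi : ∀ y, P (ε i y) = ε i (P y) := fun y => LinearMap.congr_fun (hP.1 _ (h.mem i)) y
    have hQi : ∀ y, Q (ε i y) = ε i (Q y) := fun y => LinearMap.congr_fun (hQ.1 _ (h.mem i)) y
    have hPW : ∀ y ∈ LinearMap.range (ε i), P y ∈ LinearMap.range (ε i) := by
      rintro _ ⟨y, rfl⟩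
      exact ⟨P y, (hPi y).symm⟩
    have hQW : ∀ y ∈ LinearMap.range (ε i), Q y ∈ LinearMap.range (ε i) := by
      rintro _ ⟨y, rfl⟩
      exact ⟨Q y, (hQi y).symm⟩
    let PW : Module.End K (LinearMap.range (ε i)) := P.restrict hPW
    let QW : Module.End K (LinearMap.range (ε i)) := Q.restrict hQW
    have hXW : ∀ y : LinearMap.range (ε i), (((PW * QW - QW * PW) y : LinearMap.range (ε i)) : V) =
        (P * Q - Q * P) (y : V) := fun y => rfl
    have htr : LinearMap.trace K (LinearMap.range (ε i)) (PW * QW - QW * PW) = 0 := by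
      rw [map_sub, LinearMap.trace_mul_comm, sub_self]
    ext w
    have h1 := congrArg
      (fun h : Mf K V k => h (fun l => Sum.elim (fun p => (b p : V)) w (eq.symm l))) (hk P Q hP hQ)
    have h2 : Dm (P * Q - Q * P) g (fun l => Sum.elim (fun p => (b p : V)) w (eq.symm l)) = 0 := h1
    rw [Dm_apply, ← Equiv.sum_comp eq, Fintype.sum_sum_type] at h2
    have h3 : ∑ p, g (Function.update (fun l => Sum.elim (fun p => (b p : V)) w (eq.symm l))
        (eq (Sum.inl p)) ((P * Q - Q * P)
          (Sum.elim (fun p => (b p : V)) w (eq.symm (eq (Sum.inl p)))))) = 0 := by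
      have h4 : ∀ p, g (Function.update (fun l => Sum.elim (fun p => (b p : V)) w (eq.symm l))
          (eq (Sum.inl p)) ((P * Q - Q * P)
            (Sum.elim (fun p => (b p : V)) w (eq.symm (eq (Sum.inl p)))))) =
          b.det (Function.update b p ((PW * QW - QW * PW) (b p))) *
            di_cur eq g (fun p => (b p : V)) w := by
        intro p
        rw [di_upd_inl, Equiv.symm_apply_apply, Sum.elim_inl, ← di_cur_apply,
          ← di_key b eq g halt]
        congr 2
        funext p'
        by_cases hp : p' = p
        · subst hp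
          rw [Function.update_self, Function.update_self, hXW]
        · rw [Function.update_of_ne hp, Function.update_of_ne hp]
      rw [Finset.sum_congr rfl fun p _ => h4 p, ← Finset.sum_mul, di_sum_det, htr, zero_mul]
    rw [h3, zero_add] at h2
    rw [Dm_apply]
    refine Eq.trans (Finset.sum_congr rfl fun j _ => ?_) h2
    rw [di_upd_inr, Equiv.symm_apply_apply, Sum.elim_inr, ← di_cur_apply]

theorem alt_zero {K V : Type} [Field K] [CharZero K] [AddCommGroup V] [Module K V]
    [FiniteDimensional K V] {N : ℕ} {ε : Fin N → Module.End K V} (i : Fin N) {k : ℕ}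
    {s : Fin k → Fin N} (g : Mf K V k) (hg : Sorted ε s g) (t : Finset (Fin k))
    (hs : ∀ x ∈ t, s x = i) (ht : finrank K (LinearMap.range (ε i)) < t.card)
    (halt : ∀ x ∈ t, ∀ y ∈ t, x ≠ y → perm (Equiv.swap x y) g = - g) : g = 0 := by
  classical
  ext v
  rw [← hg v]
  set v' : Fin k → V := fun l => ε (s l) (v l) with hv'
  have hmem : ∀ x : t, v' x ∈ LinearMap.range (ε i) := by
    intro x
    refine ⟨v x, ?_⟩
    change ε i (v x) = ε (s x) (v x)
    rw [hs x x.2]
  have hdep : ¬ LinearIndependent K (fun x : t => (⟨v' x, hmem x⟩ : LinearMap.range (ε i))) := by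
    intro hli
    have h1 := hli.fintype_card_le_finrank
    rw [Fintype.card_coe] at h1
    omega
  rw [Fintype.not_linearIndependent_iff] at hdep
  obtain ⟨c, hc, x₀, hx₀⟩ := hdep
  have hc' : ∑ x : t, c x • v' x = 0 := by
    have h1 := congrArg Subtype.val hc
    rw [Submodule.coe_sum] at h1
    exact h1
  have h2 := congrArg (g.toLinearMap v' (x₀ : Fin k)) hc'
  rw [map_sum, map_zero, Finset.sum_eq_single x₀] at h2
  · rw [map_smul, MultilinearMap.toLinearMap_apply, Function.update_eq_self, smul_eq_mul] at h2
    exact (mul_eq_zero.1 h2).resolve_left hx₀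
  · intro x _ hx
    rw [map_smul, MultilinearMap.toLinearMap_apply]
    have hne : (x : Fin k) ≠ x₀ := fun h => hx (Subtype.ext h)
    have h3 := congrArg (fun f : Mf K V k => f (Function.update v' (x₀ : Fin k) (v' x)))
      (halt x x.2 x₀ x₀.2 hne)
    simp only [perm_apply] at h3
    have h4 : (fun l => Function.update v' (x₀ : Fin k) (v' x)
        (Equiv.swap (x : Fin k) (x₀ : Fin k) l)) = Function.update v' (x₀ : Fin k) (v' x) := by
      funext l
      by_cases hl : l = x
      · rw [hl, Equiv.swap_apply_left, Function.update_self, Function.update_of_ne hne]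
      · by_cases hl' : l = x₀
        · rw [hl', Equiv.swap_apply_right, Function.update_self, Function.update_of_ne hne]
        · rw [Equiv.swap_apply_of_ne_of_ne hl hl']
    rw [h4] at h3
    have h5 : g (Function.update v' (x₀ : Fin k) (v' x)) =
      - g (Function.update v' (x₀ : Fin k) (v' x)) := h3
    rw [self_eq_neg.1 h5, smul_zero]
  · intro hx
    exact absurd (Finset.mem_univ _) hx

end Pool.Agent.Lib.MP_640417_ag.Fg
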