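import Pool.Agent.Lib.MP_640417_ag.Fg.Defs

/-!
# MP_640417_ag, Fg, module DualI: duals of the minimal idempotents

The adjoint `E i` of `ε i` is a minimal idempotent of `C`, equivalent to some `ε j`: `x y = ε j`, `y x = E i`. Then
`ds i = r j`, `a i = y * u j`, `b i = v j * x`.
-/

set_option autoImplicit false

namespace Pool.Agent.Lib.MP_640417_ag.Fg

open Module

/-- equivalence of minimal idempotents -/
private theorem dualI_inv {K V : Type} [Field K] [AddCommGroup V] [Module K V]
    {C : Subalgebra K (Module.End K V)} (hreg : RegC C) {p q c : Module.End K V}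
    (hp : p ∈ C) (hq : q ∈ C) (hpp : p * p = p) (hqq : q * q = q)
    (hp1 : ∀ c ∈ C, ∃ t : K, p * c * p = t • p) (hq1 : ∀ c ∈ C, ∃ t : K, q * c * q = t • q)
    (hc : c ∈ C) (hne : p * c * q ≠ 0) :
    ∃ b ∈ C, q * b = b ∧ b * p = b ∧ b * (p * c * q) = q ∧ (p * c * q) * b = p := by
  obtain ⟨a, ha⟩ : ∃ a, a = p * c * q := ⟨_, rfl⟩
  rw [← ha] at hne ⊢
  have haC : a ∈ C := by
    rw [ha]
    exact C.mul_mem (C.mul_mem hp hc) hq
  have hia : p * a = a := by
    rw [ha, ← mul_assoc, ← mul_assoc, hpp]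
  have haj : a * q = a := by
    rw [ha, mul_assoc, hqq]
  obtain ⟨d, hdC, hd⟩ := hreg a haC
  obtain ⟨b, hb⟩ : ∃ b, b = q * d * p := ⟨_, rfl⟩
  have hbC : b ∈ C := by
    rw [hb]
    exact C.mul_mem (C.mul_mem hq hdC) hp
  have hjb : q * b = b := by
    rw [hb, ← mul_assoc, ← mul_assoc, hqq]
  have hbi : b * p = b := by
    rw [hb, mul_assoc, hpp]
  have haba : a * b * a = a := by
    calc a * b * a = (a * q) * d * (p * a) := by rw [hb]; simp only [mul_assoc]
      _ = a := by rw [haj, hia, hd]
  have key : ∀ t : K, a = t • a → t = 1 := by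
    intro t ht
    by_contra h
    apply hne
    have h1 : (1 - t) • a = 0 := by rw [sub_smul, one_smul, ← ht, sub_self]
    exact (smul_eq_zero.1 h1).resolve_left (sub_ne_zero.2 (Ne.symm h))
  refine ⟨b, hbC, hjb, hbi, ?_, ?_⟩
  · obtain ⟨t, ht⟩ := hq1 (b * a) (C.mul_mem hbC haC)
    have h1 : q * (b * a) * q = b * a := by
      rw [← mul_assoc, hjb, mul_assoc, haj]
    rw [h1] at ht
    have h2 : t = 1 := by
      apply key
      have h3 : a * b * a = t • a := by rw [mul_assoc, ht, mul_smul_comm, haj]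
      rw [← h3, haba]
    rw [ht, h2, one_smul]
  · obtain ⟨t, ht⟩ := hp1 (a * b) (C.mul_mem haC hbC)
    have h1 : p * (a * b) * p = a * b := by
      rw [← mul_assoc, hia, mul_assoc, hbi]
    rw [h1] at ht
    have h2 : t = 1 := by
      apply key
      have h3 : a * b * a = t • a := by rw [ht, smul_mul_assoc, hia]
      rw [← h3, haba]
    rw [ht, h2, one_smul]

theorem exists_duals {K V : Type} [Field K] [AddCommGroup V] [Module K V]
    {form : LinearMap.BilinForm K V} (e : K) (he : e * e = 1)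
    (hsym : ∀ x y, form x y = e * form y x) (hnd : ∀ x, (∀ y, form x y = 0) → x = 0)
    {C : Subalgebra K (Module.End K V)} (hreg : RegC C) (hadj : AdjCl form C) {N : ℕ}
    {ε : Fin N → Module.End K V} {r : Fin N → Fin N} {u v : Fin N → Module.End K V}
    (h : Atoms C ε r u v) :
    ∃ (ds : Fin N → Fin N) (a b : Fin N → Module.End K V), Duals form C ε r ds a b := by
  have hnd' : ∀ y, (∀ x, form x y = 0) → y = 0 := by
    intro y hy
    refine hnd y fun x => ?_
    rw [hsym, hy, mul_zero]
  have huniq : ∀ M M' : Module.End K V, (∀ x y, form x (M y) = form x (M' y)) → M = M' := by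
    intro M M' hM
    refine LinearMap.ext fun y => ?_
    rw [← sub_eq_zero]
    refine hnd' _ fun x => ?_
    rw [map_sub, hM, sub_self]
  have hadj' : ∀ c : Module.End K V, ∃ c' : Module.End K V, c ∈ C → c' ∈ C ∧
      (∀ x y, form (c x) y = form x (c' y)) ∧ ∀ x y, form (c' x) y = form x (c y) := by
    intro c
    by_cases hc : c ∈ C
    · obtain ⟨c', hc', hcc⟩ := hadj c hc
      refine ⟨c', fun _ => ⟨hc', hcc, fun x y => ?_⟩⟩
      rw [hsym, ← hcc y x, hsym (c y) x, ← mul_assoc, he, one_mul]
    · exact ⟨0, fun h => absurd h hc⟩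
  choose adj hadj1 using hadj'
  have ac : ∀ c ∈ C, adj c ∈ C := fun c hc => (hadj1 c hc).1
  have a1 : ∀ c ∈ C, ∀ x y, form (c x) y = form x (adj c y) := fun c hc => (hadj1 c hc).2.1
  have a2 : ∀ c ∈ C, ∀ x y, form (adj c x) y = form x (c y) := fun c hc => (hadj1 c hc).2.2
  -- the adjoints of the idempotents
  obtain ⟨E, hE⟩ : ∃ E : Fin N → Module.End K V, ∀ i, E i = adj (ε i) := ⟨_, fun i => rfl⟩
  have hEC : ∀ i, E i ∈ C := fun i => by rw [hE]; exact ac _ (h.mem i)
  have hE1 : ∀ i x y, form (ε i x) y = form x (E i y) := fun i => by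
    rw [hE]; exact a1 _ (h.mem i)
  have hE2 : ∀ i x y, form (E i x) y = form x (ε i y) := fun i => by
    rw [hE]; exact a2 _ (h.mem i)
  have hidem : ∀ i x, ε i (ε i x) = ε i x := fun i x => LinearMap.congr_fun (h.idem i) x
  have hEE : ∀ i, E i * E i = E i := by
    intro i
    refine huniq _ _ fun x y => ?_
    show form x (E i (E i y)) = form x (E i y)
    rw [← hE1, ← hE1, hidem, hE1]
  have hE0 : ∀ i, E i ≠ 0 := by
    intro i h0
    refine h.ne i (LinearMap.ext fun x => hnd _ fun y => ?_)
    rw [hE1, h0, LinearMap.zero_apply, map_zero]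
  have hEone : ∀ i, ∀ c ∈ C, ∃ t : K, E i * c * E i = t • E i := by
    intro i c hc
    obtain ⟨t, ht⟩ := h.one i (adj c) (ac c hc)
    refine ⟨t, huniq _ _ fun x y => ?_⟩
    show form x (E i (c (E i y))) = form x (t • E i y)
    have h1 : ε i (adj c (ε i x)) = t • ε i x := LinearMap.congr_fun ht x
    rw [← hE1, ← a2 c hc, ← hE1, h1, map_smul, LinearMap.smul_apply, map_smul, hE1]
  have hex : ∀ i, ∃ (d : Fin N) (a b : Module.End K V), a ∈ C ∧ b ∈ C ∧ r d = d ∧
      E i * a = a ∧ a * ε d = a ∧ ε d * b = b ∧ a * b = E i ∧ b * a = ε d := by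
    intro i
    have h1 : ∃ j, ε j * E i ≠ 0 := by
      by_contra hcon
      push Not at hcon
      apply hE0 i
      calc E i = (∑ j, ε j) * E i := by rw [h.sum, one_mul]
        _ = 0 := by
          rw [Finset.sum_mul]
          exact Finset.sum_eq_zero fun j _ => hcon j
    obtain ⟨j, hj⟩ := h1
    have hj' : ε j * 1 * E i ≠ 0 := by rwa [mul_one]
    obtain ⟨y, hyC, hy1, hy2, hy3, hy4⟩ := dualI_inv hreg (h.mem j) (hEC i) (h.idem j) (hEE i)
      (h.one j) (hEone i) C.one_mem hj'
    rw [mul_one] at hy3 hy4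
    refine ⟨r j, y * u j, v j * (ε j * E i), C.mul_mem hyC (h.uC j),
      C.mul_mem (h.vC j) (C.mul_mem (h.mem j) (hEC i)), h.rr j, ?_, ?_, ?_, ?_, ?_⟩
    · rw [← mul_assoc, hy1]
    · rw [mul_assoc, h.ue]
    · rw [← mul_assoc, h.ev]
    · have e1 : y * u j * (v j * (ε j * E i)) = y * (u j * v j) * (ε j * E i) := by
        simp only [mul_assoc]
      rw [e1, h.uv, hy2, hy3]
    · have e1 : v j * (ε j * E i) * (y * u j) = v j * (ε j * E i * y) * u j := by
        simp only [mul_assoc]
      rw [e1, hy4, h.ve, h.vu]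
  choose ds a b haC hbC hrds hEa haε hεb hab hba using hex
  -- the pairing of different representatives
  have hfar : ∀ i k, r i = i → r k = k → k ≠ ds i → ∀ c ∈ C, ∀ x y,
      form (ε i x) (c (ε k y)) = 0 := by
    intro i k hi hk hne c hc x y
    have h1 : b i * c * ε k = 0 := by
      obtain ⟨t, ht⟩ := h.two (ds i) k (b i * c) (C.mul_mem (hbC i) hc)
      have h2 : u (ds i) * v k = 0 := by
        rw [← h.ue (ds i), ← h.ev k, hrds i, hk, mul_assoc, ← mul_assoc (ε (ds i)),
          h.orth _ _ (Ne.symm hne), zero_mul, mul_zero]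
      rw [h2, smul_zero, ← mul_assoc, hεb] at ht
      exact ht
    have h2 : E i * (c * ε k) = 0 := by
      rw [← hab, mul_assoc, ← mul_assoc (b i), h1, mul_zero]
    rw [hE1]
    have h3 : E i (c (ε k y)) = 0 := LinearMap.congr_fun h2 y
    rw [h3, map_zero]
  have ha0 : ∀ i, a i ≠ 0 := by
    intro i h0
    apply h.ne (ds i)
    rw [← hba, h0, mul_zero]
  have hleft : ∀ i x y, form (ε i x) (a i y) = form x (a i y) := by
    intro i x y
    have h1 : E i (a i y) = a i y := LinearMap.congr_fun (hEa i) y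
    rw [hE1, h1]
  refine ⟨ds, a, b, fun i _ => hrds i, fun i hi => ?_, haC, hbC, fun i _ => hleft i,
    fun i _ => haε i, fun i _ x y => ?_, fun i _ => hba i, hfar, fun i hi hdi => ?_⟩
  · by_contra hne
    apply ha0 i
    refine huniq _ _ fun x y => ?_
    rw [LinearMap.zero_apply, map_zero, ← hleft]
    have h1 : a i y = a i (ε (ds i) y) := (LinearMap.congr_fun (haε i) y).symm
    rw [h1, ← a2 (a i) (haC i), hsym]
    have h2 := hfar (ds i) i (hrds i) hi (Ne.symm hne) (adj (a i)) (ac _ (haC i)) y x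
    rw [h2, mul_zero]
  · have h1 : a i (b i y) = E i y := LinearMap.congr_fun (hab i) y
    rw [h1, hE1]
  · obtain ⟨a', ha'⟩ : ∃ a', a' = adj (a i) := ⟨_, rfl⟩
    have ha'C : a' ∈ C := by rw [ha']; exact ac _ (haC i)
    have h1 : ∀ x y, form (a i x) y = form x (a' y) := by rw [ha']; exact a1 _ (haC i)
    have h2 : ∀ x y, form (a' x) y = form x (a i y) := by rw [ha']; exact a2 _ (haC i)
    have h3 : E i * a' = a' := by
      refine huniq _ _ fun x y => ?_
      show form x (E i (a' y)) = form x (a' y)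
      have h4 : a i (ε i x) = a i x := by
        have := LinearMap.congr_fun (haε i) x
        rw [hdi] at this
        exact this
      rw [← hE1, ← h1, h4, h1]
    have h5 : a' * ε i = a' := by
      refine huniq _ _ fun x y => ?_
      show form x (a' (ε i y)) = form x (a' y)
      have h4 : E i (a i x) = a i x := LinearMap.congr_fun (hEa i) x
      rw [← h1, ← hE2, h4, h1]
    obtain ⟨t, ht⟩ := h.one i (b i * a') (C.mul_mem (hbC i) ha'C)
    have h6 : ε i * b i = b i := by
      have := hεb i
      rwa [hdi] at this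
    have h7 : a i * ε i = a i := by
      have := haε i
      rwa [hdi] at this
    rw [← mul_assoc, h6, mul_assoc, h5] at ht
    have h8 : a' = t • a i := by
      calc a' = E i * a' := h3.symm
        _ = a i * (b i * a') := by rw [← hab, mul_assoc]
        _ = t • a i := by rw [ht, mul_smul_comm, h7]
    have h9 : ∀ x y, form x (a i y) = (t * e) * form y (a i x) := by
      intro x y
      rw [← h2, h8, LinearMap.smul_apply, map_smul, LinearMap.smul_apply, smul_eq_mul,
        hsym (a i x) y, mul_assoc]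
    refine ⟨t * e, ?_, h9⟩
    by_contra hne
    apply ha0 i
    refine huniq _ _ fun x y => ?_
    rw [LinearMap.zero_apply, map_zero]
    have h10 : form x (a i y) = (t * e) * ((t * e) * form x (a i y)) := by
      rw [← h9 y x]
      exact h9 x y
    have h11 : (t * e * (t * e) - 1) * form x (a i y) = 0 := by
      linear_combination -h10
    exact (mul_eq_zero.1 h11).resolve_left (sub_ne_zero.2 hne)

end Pool.Agent.Lib.MP_640417_ag.Fg
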