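import Pool.Agent.Lib.MP_640417_ag.Fg.GenMl

/-!
# MP_640417_ag, Fg, module Eig: the Tate part of a generated form
-/

set_option autoImplicit false

namespace Pool.Agent.Lib.MP_640417_ag.Fg

open Module TensorProduct Pool.Agent.Lib.MP_640417_ag.Fr Pool.Agent.Lib.MP_640417_ag.Orth

section abs

variable {K V : Type} [Field K] [AddCommGroup V] [Module K V] {form : LinearMap.BilinForm K V}
  {C : Set (Module.End K V)} {St : Submodule K V → Prop}

theorem mono_smul {k : ℕ} (t : K) {f : (Fin k → V) → K} (hf : Mono form C St k f) :
    Mono form C St k fun v => t * f v := by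
  have h := Mono.mul 0 k k ((Equiv.sumComm _ _).trans (Equiv.sumEmpty (Fin k) (Fin 0)))
    (fun _ => t) f (Mono.const t) hf
  exact h

/-- the span of the products -/
theorem gen_mono {k : ℕ} {g : (Fin k → V) → K} (hg : Gen form C St k g) :
    g ∈ Submodule.span K {m : (Fin k → V) → K | Mono form C St k m} := by
  induction hg with
  | const a => exact Submodule.subset_span (Mono.const a)
  | pair c hc => exact Submodule.subset_span (Mono.pair c hc)
  | det d W hW b p hp => exact Submodule.subset_span (Mono.det d W hW b p hp)
  | zero k => exact Submodule.zero_mem _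
  | add k f g _ _ h1 h2 => exact Submodule.add_mem _ h1 h2
  | mul a b k e f g _ _ h1 h2 =>
    have key : ∀ f ∈ Submodule.span K {m : (Fin a → V) → K | Mono form C St a m},
        ∀ g ∈ Submodule.span K {m : (Fin b → V) → K | Mono form C St b m},
        (fun v : Fin k → V => f (fun i => v (e (Sum.inl i))) * g (fun i => v (e (Sum.inr i)))) ∈
          Submodule.span K {m : (Fin k → V) → K | Mono form C St k m} := by
      intro f hf g hg
      induction hf using Submodule.span_induction with
      | mem f hf =>
        induction hg using Submodule.span_induction with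
        | mem g hg => exact Submodule.subset_span (Mono.mul a b k e f g hf hg)
        | zero =>
          have : (fun v : Fin k → V => f (fun i => v (e (Sum.inl i))) *
              (0 : (Fin b → V) → K) (fun i => v (e (Sum.inr i)))) = 0 := by
            funext v
            simp
          rw [this]
          exact Submodule.zero_mem _
        | add g g' _ _ h1 h2 =>
          have : (fun v : Fin k → V => f (fun i => v (e (Sum.inl i))) *
              (g + g') (fun i => v (e (Sum.inr i)))) =
              (fun v : Fin k → V => f (fun i => v (e (Sum.inl i))) *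
                g (fun i => v (e (Sum.inr i)))) +
              fun v : Fin k → V => f (fun i => v (e (Sum.inl i))) *
                g' (fun i => v (e (Sum.inr i))) := by
            funext v
            simp [mul_add]
          rw [this]
          exact Submodule.add_mem _ h1 h2
        | smul t g _ h1 =>
          have : (fun v : Fin k → V => f (fun i => v (e (Sum.inl i))) *
              (t • g) (fun i => v (e (Sum.inr i)))) =
              t • fun v : Fin k → V => f (fun i => v (e (Sum.inl i))) *
                g (fun i => v (e (Sum.inr i))) := by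
            funext v
            simp only [Pi.smul_apply, smul_eq_mul]
            ring
          rw [this]
          exact Submodule.smul_mem _ _ h1
      | zero =>
        have : (fun v : Fin k → V => (0 : (Fin a → V) → K) (fun i => v (e (Sum.inl i))) *
            g (fun i => v (e (Sum.inr i)))) = 0 := by
          funext v
          simp
        rw [this]
        exact Submodule.zero_mem _
      | add f f' _ _ h1 h2 =>
        have : (fun v : Fin k → V => (f + f') (fun i => v (e (Sum.inl i))) *
            g (fun i => v (e (Sum.inr i)))) =
            (fun v : Fin k → V => f (fun i => v (e (Sum.inl i))) *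
              g (fun i => v (e (Sum.inr i)))) +
            fun v : Fin k → V => f' (fun i => v (e (Sum.inl i))) *
              g (fun i => v (e (Sum.inr i))) := by
          funext v
          simp [add_mul]
        rw [this]
        exact Submodule.add_mem _ h1 h2
      | smul t f _ h1 =>
        have : (fun v : Fin k → V => (t • f) (fun i => v (e (Sum.inl i))) *
            g (fun i => v (e (Sum.inr i)))) =
            t • fun v : Fin k → V => f (fun i => v (e (Sum.inl i))) *
              g (fun i => v (e (Sum.inr i))) := by
          funext v
          simp only [Pi.smul_apply, smul_eq_mul]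
          ring
        rw [this]
        exact Submodule.smul_mem _ _ h1
    exact key f h1 g h2

theorem mono_gen {k : ℕ} {m : (Fin k → V) → K} (hm : Mono form C St k m) :
    Gen form C St k m := by
  induction hm with
  | const a => exact Gen.const a
  | pair c hc => exact Gen.pair c hc
  | det d W hW b p hp => exact Gen.det d W hW b p hp
  | mul a b k e f g _ _ h1 h2 => exact Gen.mul a b k e f g h1 h2

theorem gen_smul' {k : ℕ} (t : K) {f : (Fin k → V) → K} (hf : Gen form C St k f) :
    Gen form C St k fun v => t * f v := by
  have h := Gen.mul 0 k k ((Equiv.sumComm _ _).trans (Equiv.sumEmpty (Fin k) (Fin 0)))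
    (fun _ => t) f (Gen.const t) hf
  exact h

theorem gen_of_span {k : ℕ} {g : (Fin k → V) → K}
    (hg : g ∈ Submodule.span K {m : (Fin k → V) → K | Mono form C St k m}) :
    Gen form C St k g := by
  induction hg using Submodule.span_induction with
  | mem g hg => exact mono_gen hg
  | zero => exact Gen.zero k
  | add g g' _ _ h1 h2 => exact Gen.add k g g' h1 h2
  | smul t g _ h1 => exact gen_smul' t h1

/-- The part of an eigenvector. -/
theorem eig_part {M G : Type} [AddCommGroup M] [Module K M] (A : G → Module.End K M)
    (J : Finset ℕ) : ∀ (m : ℕ → M) (θ : ℕ → G → K) (θ₀ : G → K) (x : M),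
      (∀ j ∈ J, ∀ γ, A γ (m j) = θ j γ • m j) → (∀ γ, A γ x = θ₀ γ • x) → x = ∑ j ∈ J, m j →
      x ∈ Submodule.span K {y | ∃ j ∈ J, θ j = θ₀ ∧ y = m j} := by
  classical
  induction J using Finset.strongInduction with
  | _ J ih =>
    intro m θ θ₀ x hm hx hsum
    by_cases hbad : ∃ j ∈ J, θ j ≠ θ₀
    · obtain ⟨j₀, hj₀, hne⟩ := hbad
      obtain ⟨γ, hγ⟩ := Function.ne_iff.mp hne
      have hne' : θ₀ γ - θ j₀ γ ≠ 0 := sub_ne_zero.mpr (Ne.symm hγ)
      let m' : ℕ → M := fun j => ((θ₀ γ - θ j₀ γ)⁻¹ * (θ j γ - θ j₀ γ)) • m j
      have h1 : x = ∑ j ∈ J.erase j₀, m' j := by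
        have h2 : (θ₀ γ - θ j₀ γ) • x = ∑ j ∈ J, (θ j γ - θ j₀ γ) • m j := by
          rw [sub_smul, ← hx γ]
          conv_lhs => rw [hsum]
          rw [map_sum, Finset.smul_sum, ← Finset.sum_sub_distrib]
          refine Finset.sum_congr rfl fun j hj => ?_
          rw [hm j hj γ, sub_smul]
        rw [← Finset.add_sum_erase J _ hj₀, sub_self, zero_smul, zero_add] at h2
        calc x = (θ₀ γ - θ j₀ γ)⁻¹ • (θ₀ γ - θ j₀ γ) • x := by
              rw [smul_smul, inv_mul_cancel₀ hne', one_smul]
          _ = ∑ j ∈ J.erase j₀, m' j := by
              rw [h2, Finset.smul_sum]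
              exact Finset.sum_congr rfl fun j _ => smul_smul _ _ _
      have h3 := ih (J.erase j₀) (Finset.erase_ssubset hj₀) m' θ θ₀ x
        (fun j hj δ => by
          change A δ (_ • m j) = _ • (_ • m j)
          rw [map_smul, hm j (Finset.mem_of_mem_erase hj) δ, smul_comm])
        hx h1
      refine Submodule.span_le.mpr ?_ h3
      rintro _ ⟨j, hj, hθ, rfl⟩
      refine Submodule.smul_mem _ _ (Submodule.subset_span
        ⟨j, Finset.mem_of_mem_erase hj, hθ, rfl⟩)
    · push Not at hbad
      rw [hsum]
      exact Submodule.sum_mem _ fun j hj => Submodule.subset_span ⟨j, hj, hbad j hj, rfl⟩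

end abs

end Pool.Agent.Lib.MP_640417_ag.Fg
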