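import Pool.Agent.Lib.MP_640417_ag.Fg.Eig
import Pool.Agent.Lib.MP_640417_ag.Frob.BaseRep

/-!
# MP_640417_ag, Fg, module EigT: a generated Tate form is a combination of Tate products
-/

set_option autoImplicit false

namespace Pool.Agent.Lib.MP_640417_ag.Fg

open Module TensorProduct Pool.Agent.Lib.MP_640417_ag.Fr Pool.Agent.Lib.MP_640417_ag.Orth
  Pool.Agent.Lib.MP_640417_ag.Frob

variable {Γ : Type} [Group Γ] [TopologicalSpace Γ] {F : Type} [Field F]
  [TopologicalSpace F] {V : Type} [AddCommGroup V] [Module F V]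

/-- products are eigenfunctions of an open subgroup -/
theorem mono_eig [FiniteDimensional F V] (ρ : FormRep Γ F V) {k : ℕ}
    {m : (Fin k → AlgebraicClosure F ⊗[F] V) → AlgebraicClosure F}
    (hm : Mono (ρ.form.baseChange (AlgebraicClosure F)) {c | InComK ρ c} (StableK ρ) k m) :
    ∃ (U : OpenSubgroup Γ) (θ : Γ → AlgebraicClosure F), ∀ γ ∈ U, ∀ v,
      m (fun j => (ρ.T γ).baseChange (AlgebraicClosure F) (v j)) = θ γ * m v := by
  induction hm with
  | const a => exact ⟨⊤, fun _ => 1, fun γ _ v => (one_mul a).symm⟩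
  | pair c hc =>
    obtain ⟨U, hU⟩ := hc
    refine ⟨U, fun γ => algebraMap F (AlgebraicClosure F) ((ρ.χ γ)⁻¹ : Fˣ).val, fun γ hγ v => ?_⟩
    have h1 : c ((ρ.T γ).baseChange (AlgebraicClosure F) (v 0)) =
        (ρ.T γ).baseChange (AlgebraicClosure F) (c (v 0)) := LinearMap.congr_fun (hU γ hγ) (v 0)
    beta_reduce
    rw [h1]
    exact equivariant_baseChange (AlgebraicClosure F) ρ.form (ρ.T γ) _ (ρ.form_equivariant γ) _ _
  | det d W hW b p hp =>
    obtain ⟨U₁, hU₁⟩ := hW
    choose U₂ hU₂ using hp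
    obtain ⟨U, hUle, hU⟩ : ∃ U : OpenSubgroup Γ, U ≤ U₁ ∧ ∀ i, U ≤ U₂ i := by
      have h1 : ∀ s : Finset (Fin d), ∃ U : OpenSubgroup Γ, U ≤ U₁ ∧ ∀ i ∈ s, U ≤ U₂ i := by
        intro s
        induction s using Finset.cons_induction with
        | empty => exact ⟨U₁, le_refl _, fun i hi => by simp at hi⟩
        | cons i s _ ih =>
          obtain ⟨U, h1, h2⟩ := ih
          refine ⟨U ⊓ U₂ i, inf_le_left.trans h1, fun j hj => ?_⟩
          rcases Finset.mem_cons.mp hj with rfl | hj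
          · exact inf_le_right
          · exact inf_le_left.trans (h2 j hj)
      obtain ⟨U, h2, h3⟩ := h1 Finset.univ
      exact ⟨U, h2, fun i => h3 i (Finset.mem_univ i)⟩
    classical
    let A : Γ → Module.End (AlgebraicClosure F) W := fun γ =>
      if hγ : γ ∈ U₁ then ((ρ.T γ).baseChange (AlgebraicClosure F)).restrict (hU₁ γ hγ) else 0
    refine ⟨U, fun γ => LinearMap.det (A γ), fun γ hγ v => ?_⟩
    have h1 : ∀ i, p i ((ρ.T γ).baseChange (AlgebraicClosure F) (v i)) = A γ (p i (v i)) := by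
      intro i
      apply Subtype.ext
      have hγ₁ : γ ∈ U₁ := hUle hγ
      have h2 : ((A γ (p i (v i)) : W) : AlgebraicClosure F ⊗[F] V) =
          (ρ.T γ).baseChange (AlgebraicClosure F) (p i (v i)) := by
        simp only [A, dif_pos hγ₁]
        rfl
      rw [h2]
      exact LinearMap.congr_fun (hU₂ i γ (hU i hγ)) (v i)
    simp only [h1]
    exact b.det_comp (A γ) fun i => p i (v i)
  | mul a b k e f g _ _ h1 h2 =>
    obtain ⟨U₁, θ₁, h1⟩ := h1
    obtain ⟨U₂, θ₂, h2⟩ := h2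
    refine ⟨U₁ ⊓ U₂, fun γ => θ₁ γ * θ₂ γ, fun γ hγ v => ?_⟩
    have e1 := h1 γ hγ.1 fun i => v (e (Sum.inl i))
    have e2 := h2 γ hγ.2 fun i => v (e (Sum.inr i))
    simp only [e1, e2]
    ring

/-- a combination of products is a sum of products -/
theorem span_sum (ρ : FormRep Γ F V) {k : ℕ}
    {g : (Fin k → AlgebraicClosure F ⊗[F] V) → AlgebraicClosure F}
    (hg : g ∈ Submodule.span (AlgebraicClosure F)
      {m | Mono (ρ.form.baseChange (AlgebraicClosure F)) {c | InComK ρ c} (StableK ρ) k m}) :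
    ∃ (n : ℕ) (m : ℕ → (Fin k → AlgebraicClosure F ⊗[F] V) → AlgebraicClosure F),
      (∀ j ∈ Finset.range n,
        Mono (ρ.form.baseChange (AlgebraicClosure F)) {c | InComK ρ c} (StableK ρ) k (m j)) ∧
      g = ∑ j ∈ Finset.range n, m j := by
  induction hg using Submodule.span_induction with
  | mem g hg => exact ⟨1, fun _ => g, fun j _ => hg, by simp⟩
  | zero => exact ⟨0, fun _ => 0, fun j hj => by simp at hj, by simp⟩
  | add g g' _ _ h1 h2 =>
    obtain ⟨n, m, hm, rfl⟩ := h1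
    obtain ⟨n', m', hm', rfl⟩ := h2
    refine ⟨n + n', fun j => if j < n then m j else m' (j - n), fun j hj => ?_, ?_⟩
    · by_cases h : j < n
      · simp only [h, if_true]
        exact hm j (Finset.mem_range.mpr h)
      · simp only [h, if_false]
        exact hm' _ (Finset.mem_range.mpr (by
          have := Finset.mem_range.mp hj
          omega))
    · rw [Finset.sum_range_add]
      congr 1
      · exact Finset.sum_congr rfl fun j hj => by rw [if_pos (Finset.mem_range.mp hj)]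
      · exact Finset.sum_congr rfl fun j _ => by
          rw [if_neg (by omega), Nat.add_sub_cancel_left]
  | smul t g _ h1 =>
    obtain ⟨n, m, hm, rfl⟩ := h1
    refine ⟨n, fun j => t • m j, fun j hj => mono_smul t (hm j hj), ?_⟩
    rw [Finset.smul_sum]

theorem generated_of_gen [FiniteDimensional F V] (ρ : FormRep Γ F V) {k : ℕ}
    (f : MultilinearMap F (fun _ : Fin k => V) F) (hf : TateG ρ k f)
    (g : Mf (AlgebraicClosure F) (AlgebraicClosure F ⊗[F] V) k)
    (hg : ∀ v : Fin k → V, g (fun i => 1 ⊗ₜ[F] v i) = algebraMap F (AlgebraicClosure F) (f v))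
    (hgen : Gen (ρ.form.baseChange (AlgebraicClosure F)) {c | InComK ρ c} (StableK ρ) k g) :
    Generated ρ k f := by
  classical
  by_cases h0 : ∀ w, f w = 0
  · refine ⟨0, Submodule.zero_mem _, fun v => ?_⟩
    rw [h0 v, map_zero]
    rfl
  push Not at h0
  obtain ⟨w, hw⟩ := h0
  obtain ⟨U, hU⟩ := hf
  obtain ⟨n, m, hm, hsum⟩ := span_sum ρ (gen_mono hgen)
  have h1 : ∀ j : ℕ, ∃ (W : OpenSubgroup Γ) (θ : Γ → AlgebraicClosure F), j ∈ Finset.range n →
      ∀ γ ∈ W, ∀ v, m j (fun i => (ρ.T γ).baseChange (AlgebraicClosure F) (v i)) =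
        θ γ * m j v := by
    intro j
    by_cases hj : j ∈ Finset.range n
    · obtain ⟨W, θ, h⟩ := mono_eig ρ (hm j hj)
      exact ⟨W, θ, fun _ => h⟩
    · exact ⟨⊤, fun _ => 0, fun h => absurd h hj⟩
  choose W θ hθ using h1
  obtain ⟨U', hU'U, hU'⟩ : ∃ U' : OpenSubgroup Γ, U' ≤ U ∧ ∀ j ∈ Finset.range n, U' ≤ W j := by
    have h1 : ∀ s : Finset ℕ, ∃ U' : OpenSubgroup Γ, U' ≤ U ∧ ∀ i ∈ s, U' ≤ W i := by
      intro s
      induction s using Finset.cons_induction with
      | empty => exact ⟨U, le_refl _, fun i hi => by simp at hi⟩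
      | cons i s _ ih =>
        obtain ⟨U', h1, h2⟩ := ih
        refine ⟨U' ⊓ W i, inf_le_left.trans h1, fun j hj => ?_⟩
        rcases Finset.mem_cons.mp hj with rfl | hj
        · exact inf_le_right
        · exact inf_le_left.trans (h2 j hj)
    exact h1 (Finset.range n)
  -- the eigenvalue of `f`
  let θ₀ : Γ → F := fun γ => f (fun j => ρ.T γ (w j)) / f w
  have h2 : ∀ γ ∈ U', (ρ.χ γ : F) ^ k * (θ₀ γ * θ₀ γ) = 1 := by
    intro γ hγ
    have h3 := hU γ (hU'U hγ) w w
    simp only [θ₀]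
    field_simp
    rw [pow_two, pow_two]
    linear_combination h3
  have h4 : ∀ γ ∈ U', ∀ v, f (fun j => ρ.T γ (v j)) = θ₀ γ * f v := by
    intro γ hγ v
    have h3 := hU γ (hU'U hγ) v w
    have h5 := h2 γ hγ
    have h6 : f (fun j => ρ.T γ (w j)) = θ₀ γ * f w := by
      simp only [θ₀]
      field_simp
    rw [h6] at h3
    have h7 : (ρ.χ γ : F) ^ k ≠ 0 := pow_ne_zero _ (Units.ne_zero _)
    have h8 : θ₀ γ ≠ 0 := by
      intro h8
      rw [h8, mul_zero, mul_zero] at h5
      exact zero_ne_one h5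
    have h9 : (ρ.χ γ : F) ^ k * θ₀ γ * f (fun j => ρ.T γ (v j)) = f v := by
      apply mul_right_cancel₀ hw
      linear_combination h3
    calc f (fun j => ρ.T γ (v j)) = ((ρ.χ γ : F) ^ k * (θ₀ γ * θ₀ γ)) *
          f (fun j => ρ.T γ (v j)) := by rw [h5, one_mul]
      _ = θ₀ γ * ((ρ.χ γ : F) ^ k * θ₀ γ * f (fun j => ρ.T γ (v j))) := by ring
      _ = θ₀ γ * f v := by rw [h9]
  -- over `K`
  have h5 : ∀ γ ∈ U', ∀ v, g (fun j => (ρ.T γ).baseChange (AlgebraicClosure F) (v j)) =
      algebraMap F (AlgebraicClosure F) (θ₀ γ) * g v := by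
    intro γ hγ
    have h6 : g.compLinearMap (fun _ => (ρ.T γ).baseChange (AlgebraicClosure F)) =
        algebraMap F (AlgebraicClosure F) (θ₀ γ) • g := by
      refine Basis.ext_multilinear (fun _ => Algebra.TensorProduct.basis (AlgebraicClosure F)
        (Module.finBasis F V)) fun q => ?_
      simp only [Algebra.TensorProduct.basis_apply, MultilinearMap.compLinearMap_apply,
        LinearMap.baseChange_tmul, smul_apply]
      rw [hg, hg, h4 γ hγ, map_mul, smul_eq_mul]
    intro v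
    exact congrArg (fun G : Mf _ _ k => G v) h6
  let A : U' → Module.End (AlgebraicClosure F)
      ((Fin k → AlgebraicClosure F ⊗[F] V) → AlgebraicClosure F) := fun γ =>
    { toFun := fun q v => q fun j => (ρ.T γ.1).baseChange (AlgebraicClosure F) (v j)
      map_add' := fun _ _ => rfl
      map_smul' := fun _ _ => rfl }
  have key := eig_part A (Finset.range n) m (fun j γ => θ j γ.1)
    (fun γ => algebraMap F (AlgebraicClosure F) (θ₀ γ.1)) (g : (Fin k → _) → _)
    (fun j hj γ => funext fun v => hθ j hj γ.1 (hU' j hj γ.2) v)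
    (fun γ => funext fun v => h5 γ.1 γ.2 v) hsum
  refine ⟨g, Submodule.span_mono ?_ key, hg⟩
  rintro _ ⟨j, hj, hθj, rfl⟩
  refine ⟨⟨U', fun γ hγ v v' => ?_⟩, hm j hj⟩
  have h6 : θ j γ = algebraMap F (AlgebraicClosure F) (θ₀ γ) :=
    congrFun hθj ⟨γ, hγ⟩
  rw [hθ j hj γ (hU' j hj hγ), hθ j hj γ (hU' j hj hγ), h6]
  have h7 := congrArg (algebraMap F (AlgebraicClosure F)) (h2 γ hγ)
  rw [map_mul, map_mul, map_pow, map_one] at h7
  linear_combination (m j v * m j v') * h7

end Pool.Agent.Lib.MP_640417_ag.Fg
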