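import Pool.Agent.Lib.MP_640417_ag.Fg.Defs

/-!
# MP_640417_ag, Fg, module ExtI: elements of the Lefschetz Lie algebra

`A = ∑ j, u j * (v i * Y * u i) * v j` commutes with `C`, `A * ε i = Y`; `X = A - adj A`, `Ys = adj A * ε (ds i)`.
-/

set_option autoImplicit false

namespace Pool.Agent.Lib.MP_640417_ag.Fg

open Module

section adjoints

variable {K V : Type} [Field K] [AddCommGroup V] [Module K V] [FiniteDimensional K V]
  {form : LinearMap.BilinForm K V}

/-- the adjoints of endomorphisms -/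
private theorem extI_adj (e : K) (he : e * e = 1)
    (hsym : ∀ x y, form x y = e * form y x) (hnd : ∀ x, (∀ y, form x y = 0) → x = 0)
    (M : Module.End K V) :
    ∃ M' : Module.End K V, (∀ x y, form (M x) y = form x (M' y)) ∧
      (∀ x y, form (M' x) y = form x (M y)) := by
  have hinj : Function.Injective (form.flip : V →ₗ[K] Module.Dual K V) := by
    rw [injective_iff_map_eq_zero]
    intro y hy
    refine hnd y fun x => ?_
    have h1 : form x y = 0 := by
      have := LinearMap.congr_fun hy x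
      exact this
    rw [hsym y x, h1, mul_zero]
  have hbij : Function.Bijective (form.flip : V →ₗ[K] Module.Dual K V) :=
    ⟨hinj, (LinearMap.injective_iff_surjective_of_finrank_eq_finrank
      (Subspace.dual_finrank_eq).symm).1 hinj⟩
  let ψ : V ≃ₗ[K] Module.Dual K V := LinearEquiv.ofBijective _ hbij
  have hψ : ∀ x y, ψ y x = form x y := fun x y => rfl
  have h1 : ∀ x y,
      form (M x) y = form x ((ψ.symm.conj (Module.Dual.transpose (R := K) M) : V →ₗ[K] V) y) := by
    intro x y
    rw [← hψ x, LinearEquiv.conj_apply]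
    show form (M x) y = ψ (ψ.symm (Module.Dual.transpose (R := K) M (ψ.symm.symm y))) x
    rw [LinearEquiv.apply_symm_apply, LinearEquiv.symm_symm]
    exact (hψ (M x) y).symm
  refine ⟨ψ.symm.conj (Module.Dual.transpose (R := K) M), h1, fun x y => ?_⟩
  rw [hsym, ← h1 y x, hsym (M y) x, ← mul_assoc, he, one_mul]

end adjoints

section units

variable {K V : Type} [Field K] [AddCommGroup V] [Module K V]
  {C : Subalgebra K (Module.End K V)} {N : ℕ}
  {ε : Fin N → Module.End K V} {r : Fin N → Fin N} {u v : Fin N → Module.End K V}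

private theorem extI_v_u (h : Atoms C ε r u v) {j k : Fin N} (hjk : j ≠ k) : v j * u k = 0 := by
  rw [← h.ve j, ← h.eu k, mul_assoc, ← mul_assoc (ε j) (ε k) (u k), h.orth j k hjk, zero_mul,
    mul_zero]

private theorem extI_v_ext (h : Atoms C ε r u v) {Y : Module.End K V}
    (hY : ∀ j, Y * ε (r j) = ε (r j) * Y) (j : Fin N) :
    v j * (∑ l, u l * Y * v l) = Y * v j := by
  rw [Finset.mul_sum, Finset.sum_eq_single j]
  · rw [← mul_assoc, ← mul_assoc, h.vu, ← hY, mul_assoc, h.ev]
  · intro k _ hk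
    rw [← mul_assoc, ← mul_assoc, extI_v_u h (Ne.symm hk), zero_mul, zero_mul]
  · intro hj
    exact absurd (Finset.mem_univ _) hj

private theorem extI_ext_u (h : Atoms C ε r u v) {Y : Module.End K V}
    (hY : ∀ j, Y * ε (r j) = ε (r j) * Y) (j : Fin N) :
    (∑ l, u l * Y * v l) * u j = u j * Y := by
  rw [Finset.sum_mul, Finset.sum_eq_single j]
  · rw [mul_assoc, h.vu, mul_assoc, hY, ← mul_assoc, h.ue]
  · intro k _ hk
    rw [mul_assoc, extI_v_u h hk, mul_zero]
  · intro hj
    exact absurd (Finset.mem_univ _) hj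

private theorem extI_comm (h : Atoms C ε r u v) {Y : Module.End K V}
    (hY : ∀ j, Y * ε (r j) = ε (r j) * Y) {c : Module.End K V} (hc : c ∈ C) :
    (∑ l, u l * Y * v l) * c = c * ∑ l, u l * Y * v l := by
  have h1 : ∀ j k, (∑ l, u l * Y * v l) * (u j * v k) = (u j * v k) * ∑ l, u l * Y * v l := by
    intro j k
    rw [← mul_assoc, extI_ext_u h hY, mul_assoc, mul_assoc, extI_v_ext h hY]
  have h2 : c = ∑ j, ∑ k, ε j * c * ε k := by
    calc c = (∑ j, ε j) * c * (∑ k, ε k) := by rw [h.sum, one_mul, mul_one]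
      _ = ∑ j, ∑ k, ε j * c * ε k := by
        rw [Finset.sum_mul, Finset.sum_mul]
        exact Finset.sum_congr rfl fun j _ => Finset.mul_sum _ _ _
  have h3 : ∀ j k, (∑ l, u l * Y * v l) * (ε j * c * ε k) =
      (ε j * c * ε k) * ∑ l, u l * Y * v l := by
    intro j k
    obtain ⟨t, ht⟩ := h.two j k c hc
    rw [ht, mul_smul_comm, smul_mul_assoc, h1]
  rw [h2, Finset.mul_sum, Finset.sum_mul]
  refine Finset.sum_congr rfl fun j _ => ?_
  rw [Finset.mul_sum, Finset.sum_mul]
  exact Finset.sum_congr rfl fun k _ => h3 j k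

end units

theorem exists_lef {K V : Type} [Field K] [AddCommGroup V] [Module K V] [FiniteDimensional K V]
    {form : LinearMap.BilinForm K V} (e : K) (he : e * e = 1)
    (hsym : ∀ x y, form x y = e * form y x) (hnd : ∀ x, (∀ y, form x y = 0) → x = 0)
    {C : Subalgebra K (Module.End K V)} (hadj : AdjCl form C) {N : ℕ}
    {ε : Fin N → Module.End K V} {r ds : Fin N → Fin N} {u v a b : Fin N → Module.End K V}
    (h : Atoms C ε r u v) (hD : Duals form C ε r ds a b) (i : Fin N) (hi : r i = i)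
    (Y : Module.End K V) (hY : ε i * Y * ε i = Y) :
    ∃ X Ys : Module.End K V, InL form C X ∧ ε (ds i) * Ys * ε (ds i) = Ys ∧
      (∀ x y, form (Y x) (a i y) = form x (a i (Ys y))) ∧
      ∀ k, r k = k → X * ε k = (if k = i then Y else 0) - (if k = ds i then Ys else 0) := by
  have hnd' : ∀ y, (∀ x, form x y = 0) → y = 0 := by
    intro y hy
    refine hnd y fun x => ?_
    rw [hsym, hy, mul_zero]
  have huniq : ∀ M M' : Module.End K V, (∀ x y, form x (M y) = form x (M' y)) → M = M' := by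
    intro M M' hM
    refine LinearMap.ext fun y => ?_
    rw [← sub_eq_zero]
    refine hnd' _ fun x => ?_
    rw [map_sub, hM, sub_self]
  obtain ⟨Y', hY'⟩ : ∃ Y', Y' = v i * Y * u i := ⟨_, rfl⟩
  have hvi : ε i * v i = v i := by
    have := h.ev i
    rwa [hi] at this
  have hui : u i * ε i = u i := by
    have := h.ue i
    rwa [hi] at this
  have hYl : ε i * Y' = Y' := by rw [hY', ← mul_assoc, ← mul_assoc, hvi]
  have hYr : Y' * ε i = Y' := by rw [hY', mul_assoc, hui]
  have hYne : ∀ k, k ≠ i → Y' * ε k = 0 ∧ ε k * Y' = 0 := by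
    intro k hk
    constructor
    · rw [← hYr, mul_assoc, h.orth i k (Ne.symm hk), mul_zero]
    · rw [← hYl, ← mul_assoc, h.orth k i hk, zero_mul]
  have hYc : ∀ j, Y' * ε (r j) = ε (r j) * Y' := by
    intro j
    by_cases hj : r j = i
    · rw [hj, hYl, hYr]
    · rw [(hYne _ hj).1, (hYne _ hj).2]
  obtain ⟨A, hA⟩ : ∃ A, A = ∑ l, u l * Y' * v l := ⟨_, rfl⟩
  have hAc : ∀ c ∈ C, A * c = c * A := by
    intro c hc
    rw [hA]
    exact extI_comm h hYc hc
  have hAε : ∀ k, A * ε k = u k * Y' * v k := by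
    intro k
    rw [← h.uv k, ← mul_assoc, hA, extI_ext_u h hYc]
  have hAi : A * ε i = Y := by
    rw [hAε, hY']
    have e1 : u i * (v i * Y * u i) * v i = (u i * v i) * Y * (u i * v i) := by
      simp only [mul_assoc]
    rw [e1, h.uv, hY]
  have hAk : ∀ k, r k = k → k ≠ i → A * ε k = 0 := by
    intro k hk hki
    rw [hAε, ← h.ev k, hk, mul_assoc, ← mul_assoc Y', (hYne k hki).1, zero_mul, mul_zero]
  obtain ⟨A', hA1, hA2⟩ := extI_adj e he hsym hnd A
  -- adjoints of elements of `C`
  have hadj' : ∀ c ∈ C, ∃ c' ∈ C, (∀ x y, form (c x) y = form x (c' y)) ∧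
      ∀ x y, form (c' x) y = form x (c y) := by
    intro c hc
    obtain ⟨c', hc', hcc⟩ := hadj c hc
    refine ⟨c', hc', hcc, fun x y => ?_⟩
    rw [hsym, ← hcc y x, hsym (c y) x, ← mul_assoc, he, one_mul]
  have hA'c : ∀ c ∈ C, A' * c = c * A' := by
    intro c hc
    obtain ⟨c', hc', -, hcc⟩ := hadj' c hc
    refine huniq _ _ fun x y => ?_
    have h1 : A (c' x) = c' (A x) := LinearMap.congr_fun (hAc c' hc') x
    show form x (A' (c y)) = form x (c (A' y))
    rw [← hA1, ← hcc, ← hcc, ← hA1, h1]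
  have hA'k : ∀ k, r k = k → k ≠ ds i → A' * ε k = 0 := by
    intro k hk hki
    refine huniq _ _ fun x y => ?_
    show form x (A' (ε k y)) = form x 0
    rw [← hA1, map_zero, hA, LinearMap.sum_apply, map_sum, LinearMap.sum_apply]
    refine Finset.sum_eq_zero fun j _ => ?_
    obtain ⟨c', hc', hcc, -⟩ := hadj' (u j) (h.uC j)
    have e1 : (u j * Y' * v j) x = u j (ε i (Y' (v j x))) := by
      show u j (Y' (v j x)) = u j (ε i (Y' (v j x)))
      have e2 : Y' (v j x) = ε i (Y' (v j x)) := (LinearMap.congr_fun hYl (v j x)).symm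
      rw [← e2]
    rw [e1, hcc]
    exact hD.far i k hi hk hki c' hc' _ _
  refine ⟨A - A', A' * ε (ds i), ⟨fun c hc => ?_, fun x y => ?_⟩, ?_, fun x y => ?_,
    fun k hk => ?_⟩
  · rw [sub_mul, mul_sub, hAc c hc, hA'c c hc]
  · rw [LinearMap.sub_apply, LinearMap.sub_apply, map_sub, map_sub, LinearMap.sub_apply, hA1,
      hA2]
    ring
  · rw [← mul_assoc, ← hA'c _ (h.mem _), mul_assoc, mul_assoc, h.idem, h.idem]
  · have e1 : Y x = A (ε i x) := (LinearMap.congr_fun hAi x).symm
    have e2 : A' (a i y) = a i (A' y) := LinearMap.congr_fun (hA'c _ (hD.aC i)) y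
    have e3 : a i (A' y) = a i (ε (ds i) (A' y)) :=
      (LinearMap.congr_fun (hD.right i hi) (A' y)).symm
    have e4 : ε (ds i) (A' y) = A' (ε (ds i) y) :=
      (LinearMap.congr_fun (hA'c _ (h.mem (ds i))) y).symm
    rw [e1, hA1, e2, hD.left i hi, e3, e4]
    rfl
  · rw [sub_mul]
    congr 1
    · split_ifs with hki
      · rw [hki, hAi]
      · exact hAk k hk hki
    · split_ifs with hki
      · rw [hki]
      · exact hA'k k hk hki

end Pool.Agent.Lib.MP_640417_ag.Fg
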