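import Pool.Agent.Lib.MP_640417_ag.Fg.Defs
import Pool.Agent.Lib.MP_4ca46c_ag.Split

/-!
# MP_640417_ag, Fg, module PerfK: the Lefschetz Lie algebra is spanned by commutators and central elements

`A = {M | M commutes with C}`, adjoint-stable; `adj M` = adjoint of `M`.
1. For `X ∈ A`, `X ≠ 0` there is `B ∈ A` with `tr (X B) ≠ 0`.
2. For `X ∈ InL`, `X ≠ 0` there is `Y = B - adj B ∈ InL` with `tr (X Y) ≠ 0`.
3. If the span `N` is not all of `InL` there is `Z ∈ InL`, `Z ≠ 0`, with `tr (Z n) = 0` for all `n ∈ N`. By 2 `Z`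
commutes with `InL`, so `Z ∈ C` and `Z` is nilpotent, a contradiction to 1.
-/

set_option autoImplicit false

namespace Pool.Agent.Lib.MP_640417_ag.Fg

open Module

section adjoints

variable {K V : Type} [Field K] [AddCommGroup V] [Module K V] [FiniteDimensional K V]
  {form : LinearMap.BilinForm K V}

/-- the adjoints of endomorphisms -/
private theorem perf_adj (e : K) (he : e * e = 1)
    (hsym : ∀ x y, form x y = e * form y x) (hnd : ∀ x, (∀ y, form x y = 0) → x = 0) :
    ∃ adj : Module.End K V → Module.End K V,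
      (∀ M x y, form (M x) y = form x (adj M y)) ∧
      (∀ M x y, form (adj M x) y = form x (M y)) ∧
      (∀ M, LinearMap.trace K V (adj M) = LinearMap.trace K V M) := by
  have hinj : Function.Injective (form.flip : V →ₗ[K] Module.Dual K V) := by
    rw [injective_iff_map_eq_zero]
    intro y hy
    refine hnd y fun x => ?_
    have h1 : form x y = 0 := by
      have := LinearMap.congr_fun hy x
      exact this
    rw [hsym y x, h1, mul_zero]
  have hbij : Function.Bijective (form.flip : V →ₗ[K] Module.Dual K V) :=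
    ⟨hinj, (LinearMap.injective_iff_surjective_of_finrank_eq_finrank
      (Subspace.dual_finrank_eq).symm).1 hinj⟩
  let ψ : V ≃ₗ[K] Module.Dual K V := LinearEquiv.ofBijective _ hbij
  have hψ : ∀ x y, ψ y x = form x y := fun x y => rfl
  have h1 : ∀ (M : Module.End K V) x y,
      form (M x) y = form x ((ψ.symm.conj (Module.Dual.transpose (R := K) M) : V →ₗ[K] V) y) := by
    intro M x y
    rw [← hψ x, LinearEquiv.conj_apply]
    show form (M x) y = ψ (ψ.symm (Module.Dual.transpose (R := K) M (ψ.symm.symm y))) x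
    rw [LinearEquiv.apply_symm_apply, LinearEquiv.symm_symm]
    exact (hψ (M x) y).symm
  refine ⟨fun M => ψ.symm.conj (Module.Dual.transpose (R := K) M), h1, fun M x y => ?_,
    fun M => ?_⟩
  · rw [hsym, ← h1 M y x, hsym (M y) x, ← mul_assoc, he, one_mul]
  · rw [LinearMap.trace_conj']
    exact LinearMap.trace_transpose' M

end adjoints

section units

variable {K V : Type} [Field K] [AddCommGroup V] [Module K V]
  {C : Subalgebra K (Module.End K V)} {N : ℕ}
  {ε : Fin N → Module.End K V} {r : Fin N → Fin N} {u v : Fin N → Module.End K V}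

private theorem perf_v_u (h : Atoms C ε r u v) {j k : Fin N} (hjk : j ≠ k) : v j * u k = 0 := by
  rw [← h.ve j, ← h.eu k, mul_assoc, ← mul_assoc (ε j) (ε k) (u k), h.orth j k hjk, zero_mul,
    mul_zero]

private theorem perf_v_ext (h : Atoms C ε r u v) {Y : Module.End K V}
    (hY : ∀ j, Y * ε (r j) = ε (r j) * Y) (j : Fin N) :
    v j * (∑ l, u l * Y * v l) = Y * v j := by
  rw [Finset.mul_sum, Finset.sum_eq_single j]
  · rw [← mul_assoc, ← mul_assoc, h.vu, ← hY, mul_assoc, h.ev]
  · intro k _ hk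
    rw [← mul_assoc, ← mul_assoc, perf_v_u h (Ne.symm hk), zero_mul, zero_mul]
  · intro hj
    exact absurd (Finset.mem_univ _) hj

private theorem perf_ext_u (h : Atoms C ε r u v) {Y : Module.End K V}
    (hY : ∀ j, Y * ε (r j) = ε (r j) * Y) (j : Fin N) :
    (∑ l, u l * Y * v l) * u j = u j * Y := by
  rw [Finset.sum_mul, Finset.sum_eq_single j]
  · rw [mul_assoc, h.vu, mul_assoc, hY, ← mul_assoc, h.ue]
  · intro k _ hk
    rw [mul_assoc, perf_v_u h hk, mul_zero]
  · intro hj
    exact absurd (Finset.mem_univ _) hj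

private theorem perf_ext_comm (h : Atoms C ε r u v) {Y : Module.End K V}
    (hY : ∀ j, Y * ε (r j) = ε (r j) * Y) {c : Module.End K V} (hc : c ∈ C) :
    (∑ l, u l * Y * v l) * c = c * ∑ l, u l * Y * v l := by
  have h1 : ∀ j k, (∑ l, u l * Y * v l) * (u j * v k) = (u j * v k) * ∑ l, u l * Y * v l := by
    intro j k
    rw [← mul_assoc, perf_ext_u h hY, mul_assoc, mul_assoc, perf_v_ext h hY]
  have h2 : c = ∑ j, ∑ k, ε j * c * ε k := by
    calc c = (∑ j, ε j) * c * (∑ k, ε k) := by rw [h.sum, one_mul, mul_one]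
      _ = ∑ j, ∑ k, ε j * c * ε k := by
        rw [Finset.sum_mul, Finset.sum_mul]
        exact Finset.sum_congr rfl fun j _ => Finset.mul_sum _ _ _
  have h3 : ∀ j k, (∑ l, u l * Y * v l) * (ε j * c * ε k) =
      (ε j * c * ε k) * ∑ l, u l * Y * v l := by
    intro j k
    obtain ⟨t, ht⟩ := h.two j k c hc
    rw [ht, mul_smul_comm, smul_mul_assoc, h1]
  rw [h2, Finset.mul_sum, Finset.sum_mul]
  refine Finset.sum_congr rfl fun j _ => ?_
  rw [Finset.mul_sum, Finset.sum_mul]
  exact Finset.sum_congr rfl fun k _ => h3 j k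

/-- the trace form of the commutant of `C` is nondegenerate -/
private theorem perf_tr [CharZero K] [FiniteDimensional K V] (h : Atoms C ε r u v)
    {X : Module.End K V} (hX : ∀ c ∈ C, X * c = c * X) (hX0 : X ≠ 0) :
    ∃ B : Module.End K V, (∀ c ∈ C, B * c = c * B) ∧ LinearMap.trace K V (X * B) ≠ 0 := by
  -- a representative `i` with `X ε i ≠ 0`
  have h1 : ∃ j, X * ε j ≠ 0 := by
    by_contra hcon
    push Not at hcon
    apply hX0
    calc X = X * ∑ j, ε j := by rw [h.sum, mul_one]
      _ = 0 := by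
        rw [Finset.mul_sum]
        exact Finset.sum_eq_zero fun j _ => hcon j
  obtain ⟨j₀, hj₀⟩ := h1
  have h2 : X * ε (r j₀) ≠ 0 := by
    intro h3
    apply hj₀
    rw [← h.uv j₀, ← h.ue j₀, mul_assoc (u j₀), ← mul_assoc X, hX _ (h.uC j₀), mul_assoc (u j₀),
      ← mul_assoc X, h3, zero_mul, mul_zero]
  obtain ⟨i, hi⟩ : ∃ i, i = r j₀ := ⟨_, rfl⟩
  rw [← hi] at h2
  have hri : r i = i := by rw [hi, h.rr]
  have h4 : ∃ x₀, X (ε i x₀) ≠ 0 := by
    by_contra hcon
    push Not at hcon
    exact h2 (LinearMap.ext hcon)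
  obtain ⟨x₀, hx₀⟩ := h4
  have h5 : ∃ φ : Module.Dual K V, φ (X (ε i x₀)) ≠ 0 := by
    by_contra hcon
    push Not at hcon
    exact hx₀ ((Module.forall_dual_apply_eq_zero_iff K _).1 hcon)
  obtain ⟨φ, hφ⟩ := h5
  obtain ⟨Y, hYdef⟩ : ∃ Y : Module.End K V, Y = (φ ∘ₗ ε i).smulRight (ε i x₀) := ⟨_, rfl⟩
  have hYl : ε i * Y = Y := by
    rw [hYdef]
    refine LinearMap.ext fun z => ?_
    show ε i (φ (ε i z) • ε i x₀) = φ (ε i z) • ε i x₀
    rw [map_smul]
    congr 1
    exact LinearMap.congr_fun (h.idem i) x₀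
  have hYr : Y * ε i = Y := by
    rw [hYdef]
    refine LinearMap.ext fun z => ?_
    show φ (ε i (ε i z)) • ε i x₀ = φ (ε i z) • ε i x₀
    congr 2
    exact LinearMap.congr_fun (h.idem i) z
  have hYne : ∀ k, k ≠ i → Y * ε k = 0 ∧ ε k * Y = 0 := by
    intro k hk
    constructor
    · rw [← hYr, mul_assoc, h.orth i k (Ne.symm hk), mul_zero]
    · rw [← hYl, ← mul_assoc, h.orth k i hk, zero_mul]
  have hY : ∀ j, Y * ε (r j) = ε (r j) * Y := by
    intro j
    by_cases hj : r j = i
    · rw [hj, hYl, hYr]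
    · rw [(hYne _ hj).1, (hYne _ hj).2]
  refine ⟨∑ l, u l * Y * v l, fun c hc => perf_ext_comm h hY hc, ?_⟩
  have h6 : ∀ l, LinearMap.trace K V (X * (u l * Y * v l)) =
      if r l = i then LinearMap.trace K V (X * Y) else 0 := by
    intro l
    have h7 : X * (u l * Y * v l) = u l * (X * Y * v l) := by
      rw [← mul_assoc, ← mul_assoc, hX _ (h.uC l)]
      simp only [mul_assoc]
    rw [h7, LinearMap.trace_mul_comm, mul_assoc, h.vu, LinearMap.trace_mul_comm, ← mul_assoc,
      ← hX _ (h.mem _), mul_assoc, ← hY]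
    split_ifs with hl
    · rw [hl, hYr]
    · rw [(hYne _ hl).1, mul_zero, map_zero]
  rw [Finset.mul_sum, map_sum, Finset.sum_congr rfl fun l _ => h6 l, ← Finset.sum_filter,
    Finset.sum_const, nsmul_eq_mul]
  refine mul_ne_zero ?_ ?_
  · rw [Nat.cast_ne_zero]
    refine Finset.card_ne_zero_of_mem (a := i) ?_
    rw [Finset.mem_filter]
    exact ⟨Finset.mem_univ _, hri⟩
  · have h8 : X * Y = (φ ∘ₗ ε i).smulRight (X (ε i x₀)) := by
      rw [hYdef]
      refine LinearMap.ext fun z => ?_
      show X (φ (ε i z) • ε i x₀) = φ (ε i z) • X (ε i x₀)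
      rw [map_smul]
    rw [h8, LinearMap.trace_smulRight]
    show φ (ε i (X (ε i x₀))) ≠ 0
    have h9 : ε i (X (ε i x₀)) = X (ε i x₀) := by
      have h10 := LinearMap.congr_fun (hX _ (h.mem i)) (ε i x₀)
      have h11 := LinearMap.congr_fun (h.idem i) x₀
      calc ε i (X (ε i x₀)) = X (ε i (ε i x₀)) := h10.symm
        _ = X (ε i x₀) := congrArg X h11
    rw [h9]
    exact hφ

end units

theorem perf_of {K V : Type} [Field K] [CharZero K] [IsAlgClosed K] [AddCommGroup V] [Module K V]
    [FiniteDimensional K V] {form : LinearMap.BilinForm K V} (e : K) (he : e * e = 1)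
    (hsym : ∀ x y, form x y = e * form y x) (hnd : ∀ x, (∀ y, form x y = 0) → x = 0)
    {C : Subalgebra K (Module.End K V)} (hadj : AdjCl form C) {N : ℕ}
    {ε : Fin N → Module.End K V} {r : Fin N → Fin N} {u v : Fin N → Module.End K V}
    (h : Atoms C ε r u v)
    (hZ : ∀ Z, InL form C Z → (∀ X, InL form C X → Z * X = X * Z) → Z ∈ C) :
    Perf form C := by
  have he0 : e ≠ 0 := by
    rintro rfl
    rw [mul_zero] at he
    exact zero_ne_one he
  have hnd' : ∀ y, (∀ x, form x y = 0) → y = 0 := by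
    intro y hy
    refine hnd y fun x => ?_
    rw [hsym, hy, mul_zero]
  obtain ⟨adj, adj1, adj2, adj3⟩ := perf_adj e he hsym hnd
  have huniq : ∀ M M' : Module.End K V, (∀ x y, form x (M y) = form x (M' y)) → M = M' := by
    intro M M' hM
    refine LinearMap.ext fun y => ?_
    rw [← sub_eq_zero]
    refine hnd' _ fun x => ?_
    rw [map_sub, hM, sub_self]
  have adj4 : ∀ M M', adj (M * M') = adj M' * adj M := by
    intro M M'
    refine huniq _ _ fun x y => ?_
    rw [← adj1]
    show form (M (M' x)) y = form x (adj M' (adj M y))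
    rw [adj1, adj1]
  have adj5 : ∀ M, adj (adj M) = M := by
    intro M
    refine huniq _ _ fun x y => ?_
    rw [← adj1, adj2]
  -- the commutant of `C` is stable under adjoints
  have hA : ∀ M : Module.End K V, (∀ c ∈ C, M * c = c * M) → ∀ c ∈ C, adj M * c = c * adj M := by
    intro M hM c hc
    obtain ⟨c', hc', hcc⟩ := hadj c hc
    refine huniq _ _ fun x y => ?_
    have hcc' : ∀ x y, form (c' x) y = form x (c y) := by
      intro x y
      rw [hsym, ← hcc y x, hsym (c y) x, ← mul_assoc, he, one_mul]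
    have h1 : M (c' x) = c' (M x) := LinearMap.congr_fun (hM c' hc') x
    show form x (adj M (c y)) = form x (c (adj M y))
    rw [← adj1, ← hcc', ← hcc', ← adj1, h1]
  -- the trace form of the Lie algebra is nondegenerate
  have hL : ∀ X, InL form C X → X ≠ 0 → ∃ Y, InL form C Y ∧ LinearMap.trace K V (X * Y) ≠ 0 := by
    intro X hX hX0
    obtain ⟨B, hB, hXB⟩ := perf_tr h hX.1 hX0
    have hadjX : adj X = - X := by
      refine huniq _ _ fun x y => ?_
      rw [← adj1]
      show form (X x) y = form x (-(X y))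
      rw [map_neg]
      exact eq_neg_of_add_eq_zero_left (hX.2 x y)
    refine ⟨B - adj B, ⟨fun c hc => ?_, fun x y => ?_⟩, ?_⟩
    · rw [sub_mul, mul_sub, hB c hc, hA B hB c hc]
    · rw [LinearMap.sub_apply, LinearMap.sub_apply, map_sub, map_sub, LinearMap.sub_apply, adj1 B,
        adj2 B]
      ring
    · have h1 : LinearMap.trace K V (X * adj B) = - LinearMap.trace K V (X * B) := by
        rw [← adj3, adj4, adj5, hadjX, mul_neg, map_neg, LinearMap.trace_mul_comm]
      rw [mul_sub, map_sub, h1, sub_neg_eq_add, ← two_mul]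
      exact mul_ne_zero two_ne_zero hXB
  have hLz : ∀ X, InL form C X → (∀ Y, InL form C Y → LinearMap.trace K V (X * Y) = 0) →
      X = 0 := by
    intro X hX hY
    by_contra hX0
    obtain ⟨Y, hY1, hY2⟩ := hL X hX hX0
    exact hY2 (hY Y hY1)
  have hcomm : ∀ P Q, InL form C P → InL form C Q → InL form C (P * Q - Q * P) := by
    intro P Q hP hQ
    refine ⟨fun c hc => ?_, fun x y => ?_⟩
    · rw [sub_mul, mul_sub, mul_assoc, hQ.1 c hc, ← mul_assoc, hP.1 c hc, mul_assoc Q,
        hP.1 c hc, ← mul_assoc Q, hQ.1 c hc]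
      simp only [mul_assoc]
    · have p1 := hP.2 (Q x) y
      have p2 := hP.2 x (Q y)
      have q1 := hQ.2 (P x) y
      have q2 := hQ.2 x (P y)
      show form (P (Q x) - Q (P x)) y + form x (P (Q y) - Q (P y)) = 0
      rw [map_sub, map_sub, LinearMap.sub_apply]
      linear_combination p1 - q1 + p2 - q2
  -- the subspaces
  let L : Submodule K (Module.End K V) :=
    { carrier := {X | InL form C X}
      zero_mem' := ⟨fun c _ => by rw [zero_mul, mul_zero], fun x y => by simp⟩
      add_mem' := by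
        rintro X Y hX hY
        refine ⟨fun c hc => by rw [add_mul, mul_add, hX.1 c hc, hY.1 c hc], fun x y => ?_⟩
        have h1 := hX.2 x y
        have h2 := hY.2 x y
        rw [LinearMap.add_apply, LinearMap.add_apply, map_add, map_add, LinearMap.add_apply]
        linear_combination h1 + h2
      smul_mem' := by
        rintro t X hX
        refine ⟨fun c hc => by rw [smul_mul_assoc, mul_smul_comm, hX.1 c hc], fun x y => ?_⟩
        have h1 := hX.2 x y
        rw [LinearMap.smul_apply, LinearMap.smul_apply, map_smul, map_smul, LinearMap.smul_apply,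
          smul_eq_mul, smul_eq_mul]
        linear_combination t * h1 }
  have hLmem : ∀ X, X ∈ L ↔ InL form C X := fun X => Iff.rfl
  intro X hX
  obtain ⟨S, hS⟩ : ∃ S : Submodule K (Module.End K V), S = Submodule.span K
    ({M | ∃ P Q, InL form C P ∧ InL form C Q ∧ M = P * Q - Q * P} ∪ {z | InZ form C z}) :=
    ⟨_, rfl⟩
  rw [← hS]
  by_contra hXS
  have hSL : S < L := by
    refine lt_of_le_of_ne ?_ ?_
    · rw [hS, Submodule.span_le]
      rintro M (⟨P, Q, hP, hQ, rfl⟩ | hM)
      · exact hcomm P Q hP hQ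
      · exact hM.2
    · rintro rfl
      exact hXS hX
  have hlt := Submodule.finrank_lt_finrank_of_lt hSL
  let Θ : L →ₗ[K] Module.Dual K S :=
    ((LinearMap.mul K (Module.End K V)).compr₂ (LinearMap.trace K V)).compl₁₂ L.subtype S.subtype
  have hΘ : ∀ (Z : L) (n : S), Θ Z n = LinearMap.trace K V ((Z : Module.End K V) * n) :=
    fun Z n => rfl
  have hker : LinearMap.ker Θ ≠ ⊥ := by
    refine LinearMap.ker_ne_bot_of_finrank_lt ?_
    rwa [Subspace.dual_finrank_eq]
  obtain ⟨⟨Z, hZL⟩, hZk, hZ0⟩ := (Submodule.ne_bot_iff _).1 hker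
  have hZ0' : Z ≠ 0 := fun h0 => hZ0 (Subtype.ext h0)
  have hZn : ∀ n ∈ S, LinearMap.trace K V (Z * n) = 0 := by
    intro n hn
    have h1 := LinearMap.congr_fun (LinearMap.mem_ker.1 hZk) ⟨n, hn⟩
    rwa [hΘ] at h1
  have hZL' : InL form C Z := hZL
  -- `Z` commutes with the Lie algebra
  have hZc : ∀ P, InL form C P → Z * P = P * Z := by
    intro P hP
    have h1 : Z * P - P * Z = 0 := by
      refine hLz _ (hcomm Z P hZL' hP) fun Q hQ => ?_
      have h2 : P * Q - Q * P ∈ S := by
        rw [hS]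
        exact Submodule.subset_span (Or.inl ⟨P, Q, hP, hQ, rfl⟩)
      have h3 := hZn _ h2
      have h4 : LinearMap.trace K V (P * Z * Q) = LinearMap.trace K V (Z * (Q * P)) := by
        rw [mul_assoc, LinearMap.trace_mul_comm, mul_assoc]
      rw [sub_mul, map_sub, h4, ← map_sub, mul_assoc, ← mul_sub]
      exact h3
    exact sub_eq_zero.1 h1
  have hZC : Z ∈ C := hZ Z hZL' hZc
  -- the powers of `Z`
  have hskew : ∀ (n : ℕ) (x y : V), form ((Z ^ n) x) y = (-1) ^ n * form x ((Z ^ n) y) := by
    intro n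
    induction n with
    | zero => intro x y; simp
    | succ n ih =>
      intro x y
      have h1 := hZL'.2 ((Z ^ n) x) y
      have h2 := ih x (Z y)
      have h3 : (Z ^ (n + 1)) x = Z ((Z ^ n) x) := by
        rw [pow_succ']
        rfl
      have h4 : (Z ^ (n + 1)) y = (Z ^ n) (Z y) := by
        rw [pow_succ]
        rfl
      rw [h3, h4, pow_succ]
      linear_combination h1 - h2
  have hodd : ∀ k : ℕ, LinearMap.trace K V (Z ^ (2 * (k + 1))) = 0 := by
    intro k
    have h1 : Z ^ (2 * k + 1) ∈ S := by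
      rw [hS]
      refine Submodule.subset_span (Or.inr ⟨Subalgebra.pow_mem _ hZC _, fun c hc => ?_,
        fun x y => ?_⟩)
      · exact (Commute.pow_left (hZL'.1 c hc) (2 * k + 1) : Commute (Z ^ (2 * k + 1)) c)
      · rw [hskew]
        have h2 : ((-1 : K)) ^ (2 * k + 1) = -1 := by
          rw [pow_succ, pow_mul]
          norm_num
        rw [h2]
        ring
    have h3 := hZn _ h1
    rw [← pow_succ'] at h3
    exact h3
  have hnil : IsNilpotent (Z ^ 2) := by
    refine Pool.Agent.Lib.MP_4ca46c_ag.isNilpotent_of_trace_pow _ fun m hm => ?_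
    obtain ⟨k, rfl⟩ : ∃ k, m = k + 1 := ⟨m - 1, by omega⟩
    rw [← pow_mul]
    exact hodd k
  have hnil' : IsNilpotent Z := hnil.of_pow
  obtain ⟨B, hB, hZB⟩ := perf_tr h hZL'.1 hZ0'
  have hcomm' : Commute Z B := (hB Z hZC).symm
  exact hZB (LinearMap.isNilpotent_trace_of_isNilpotent
    (hcomm'.isNilpotent_mul_right hnil')).eq_zero

end Pool.Agent.Lib.MP_640417_ag.Fg
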