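import Pool.Agent.Lib.MP_640417_ag.Fg.Defs

/-!
# MP_640417_ag, Fg, module RepI: matrix units

Adapted from `Lef/Units.lean`, without the adjunction.
-/

set_option autoImplicit false

namespace Pool.Agent.Lib.MP_640417_ag.Fg

open Module

private theorem rep_inv {K V : Type} [Field K] [AddCommGroup V] [Module K V]
    {C : Subalgebra K (Module.End K V)} (hreg : RegC C) {N : ℕ} {ε : Fin N → Module.End K V}
    (hM : MinIdem C ε) {i j : Fin N} {c : Module.End K V}
    (hc : c ∈ C) (hne : ε i * c * ε j ≠ 0) :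
    ∃ b ∈ C, ε j * b = b ∧ b * ε i = b ∧ b * (ε i * c * ε j) = ε j ∧
      (ε i * c * ε j) * b = ε i := by
  obtain ⟨a, ha⟩ : ∃ a, a = ε i * c * ε j := ⟨_, rfl⟩
  rw [← ha] at hne ⊢
  have haC : a ∈ C := by
    rw [ha]
    exact C.mul_mem (C.mul_mem (hM.mem i) hc) (hM.mem j)
  have hia : ε i * a = a := by
    rw [ha, ← mul_assoc, ← mul_assoc, hM.idem]
  have haj : a * ε j = a := by
    rw [ha, mul_assoc, hM.idem]
  obtain ⟨d, hdC, hd⟩ := hreg a haC
  obtain ⟨b, hb⟩ : ∃ b, b = ε j * d * ε i := ⟨_, rfl⟩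
  have hbC : b ∈ C := by
    rw [hb]
    exact C.mul_mem (C.mul_mem (hM.mem j) hdC) (hM.mem i)
  have hjb : ε j * b = b := by
    rw [hb, ← mul_assoc, ← mul_assoc, hM.idem]
  have hbi : b * ε i = b := by
    rw [hb, mul_assoc, hM.idem]
  have haba : a * b * a = a := by
    calc a * b * a = (a * ε j) * d * (ε i * a) := by rw [hb]; simp only [mul_assoc]
      _ = a := by rw [haj, hia, hd]
  have key : ∀ t : K, a = t • a → t = 1 := by
    intro t ht
    by_contra h
    apply hne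
    have h1 : (1 - t) • a = 0 := by rw [sub_smul, one_smul, ← ht, sub_self]
    exact (smul_eq_zero.1 h1).resolve_left (sub_ne_zero.2 (Ne.symm h))
  refine ⟨b, hbC, hjb, hbi, ?_, ?_⟩
  · obtain ⟨t, ht⟩ := hM.one j (b * a) (C.mul_mem hbC haC)
    have h1 : ε j * (b * a) * ε j = b * a := by
      rw [← mul_assoc, hjb, mul_assoc, haj]
    rw [h1] at ht
    have h2 : t = 1 := by
      apply key
      have h3 : a * b * a = t • a := by rw [mul_assoc, ht, mul_smul_comm, haj]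
      rw [← h3, haba]
    rw [ht, h2, one_smul]
  · obtain ⟨t, ht⟩ := hM.one i (a * b) (C.mul_mem haC hbC)
    have h1 : ε i * (a * b) * ε i = a * b := by
      rw [← mul_assoc, hia, mul_assoc, hbi]
    rw [h1] at ht
    have h2 : t = 1 := by
      apply key
      have h3 : a * b * a = t • a := by rw [ht, smul_mul_assoc, hia]
      rw [← h3, haba]
    rw [ht, h2, one_smul]

theorem exists_atoms {K V : Type} [Field K] [AddCommGroup V] [Module K V]
    {C : Subalgebra K (Module.End K V)} (hreg : RegC C) {N : ℕ} {ε : Fin N → Module.End K V}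
    (hM : MinIdem C ε) :
    ∃ (r : Fin N → Fin N) (u v : Fin N → Module.End K V), Atoms C ε r u v := by
  classical
  obtain ⟨R, hRdef⟩ : ∃ R : Fin N → Fin N → Prop,
      ∀ i j, R i j ↔ ∃ c ∈ C, ε i * c * ε j ≠ 0 := ⟨fun i j => ∃ c ∈ C, ε i * c * ε j ≠ 0,
        fun _ _ => Iff.rfl⟩
  have hsymm : ∀ i j, R i j → R j i := by
    intro i j h
    obtain ⟨c, hc, hne⟩ := (hRdef i j).1 h
    obtain ⟨b, hbC, hjb, hbi, hba, hab⟩ := rep_inv hreg hM hc hne
    refine (hRdef j i).2 ⟨b, hbC, ?_⟩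
    rw [hjb, hbi]
    intro h0
    apply hM.ne j
    rw [← hba, h0, zero_mul]
  have hR : Equivalence R := by
    refine ⟨fun i => ?_, fun {i j} h => hsymm i j h, fun {i j k} h h' => ?_⟩
    · refine (hRdef i i).2 ⟨1, C.one_mem, ?_⟩
      rw [mul_one, hM.idem]
      exact hM.ne i
    · obtain ⟨c, hc, hne⟩ := (hRdef i j).1 h
      obtain ⟨c', hc', hne'⟩ := (hRdef j k).1 h'
      obtain ⟨b, hbC, hjb, hbi, hba, hab⟩ := rep_inv hreg hM hc hne
      obtain ⟨b', hbC', hjb', hbi', hba', hab'⟩ := rep_inv hreg hM hc' hne'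
      refine (hRdef i k).2 ⟨c * ε j * c', C.mul_mem (C.mul_mem hc (hM.mem j)) hc', ?_⟩
      intro h0
      apply hM.ne j
      have h1 : (b * (ε i * c * ε j)) * ((ε j * c' * ε k) * b') = ε j := by
        rw [hba, hab', hM.idem]
      have h2 : (b * (ε i * c * ε j)) * ((ε j * c' * ε k) * b') =
          b * (ε i * (c * ε j * c') * ε k) * b' := by
        have h3 : ε j * (ε j * (c' * (ε k * b'))) = ε j * (c' * (ε k * b')) := by
          rw [← mul_assoc, hM.idem]
        simp only [mul_assoc]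
        rw [h3]
      rw [← h1, h2, h0, mul_zero, zero_mul]
  obtain ⟨r, hr1, hr2⟩ : ∃ r : Fin N → Fin N, (∀ j, R j (r j)) ∧ ∀ i j, R i j → r i = r j := by
    let st : Setoid (Fin N) := ⟨R, hR⟩
    refine ⟨fun j => (Quotient.mk st j).out, fun j => ?_, fun i j h => ?_⟩
    · exact hsymm _ _ (Quotient.mk_out (s := st) j)
    · have h1 : Quotient.mk st i = Quotient.mk st j := Quotient.sound h
      show (Quotient.mk st i).out = (Quotient.mk st j).out
      rw [h1]
  have hrr : ∀ j, r (r j) = r j := fun j => (hr2 _ _ (hr1 j)).symm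
  have hex : ∀ j, ∃ p : Module.End K V × Module.End K V, p.1 ∈ C ∧ p.2 ∈ C ∧
      p.1 * p.2 = ε j ∧ p.2 * p.1 = ε (r j) ∧ ε j * p.1 = p.1 ∧ p.1 * ε (r j) = p.1 ∧
      p.2 * ε j = p.2 ∧ ε (r j) * p.2 = p.2 := by
    intro j
    obtain ⟨c, hc, hne⟩ := (hRdef j (r j)).1 (hr1 j)
    obtain ⟨b, hbC, hjb, hbi, hba, hab⟩ := rep_inv hreg hM hc hne
    refine ⟨(ε j * c * ε (r j), b), C.mul_mem (C.mul_mem (hM.mem j) hc) (hM.mem _), hbC, hab,
      hba, ?_, ?_, hbi, hjb⟩
    · show ε j * (ε j * c * ε (r j)) = ε j * c * ε (r j)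
      rw [← mul_assoc, ← mul_assoc, hM.idem]
    · show ε j * c * ε (r j) * ε (r j) = ε j * c * ε (r j)
      rw [mul_assoc, hM.idem]
  choose p hp using hex
  obtain ⟨u, hu⟩ : ∃ u : Fin N → Module.End K V, ∀ j, u j = (p j).1 :=
    ⟨fun j => (p j).1, fun _ => rfl⟩
  obtain ⟨v, hv⟩ : ∃ v : Fin N → Module.End K V, ∀ j, v j = (p j).2 :=
    ⟨fun j => (p j).2, fun _ => rfl⟩
  simp only [← hu, ← hv] at hp
  have huC : ∀ j, u j ∈ C := fun j => (hp j).1
  have hvC : ∀ j, v j ∈ C := fun j => (hp j).2.1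
  have huv : ∀ j, u j * v j = ε j := fun j => (hp j).2.2.1
  have hvu : ∀ j, v j * u j = ε (r j) := fun j => (hp j).2.2.2.1
  have heu : ∀ j, ε j * u j = u j := fun j => (hp j).2.2.2.2.1
  have hue : ∀ j, u j * ε (r j) = u j := fun j => (hp j).2.2.2.2.2.1
  have hve : ∀ j, v j * ε j = v j := fun j => (hp j).2.2.2.2.2.2.1
  have hev : ∀ j, ε (r j) * v j = v j := fun j => (hp j).2.2.2.2.2.2.2
  refine ⟨r, u, v, ⟨hM, hrr, huC, hvC, huv, hvu, heu, hue, hve, hev, ?_⟩⟩
  intro j k c hc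
  by_cases hjk : r j = r k
  · obtain ⟨t, ht⟩ := hM.one (r j) (v j * c * u k)
      (C.mul_mem (C.mul_mem (hvC j) hc) (huC k))
    refine ⟨t, ?_⟩
    have h1 : ε (r j) * (v j * c * u k) * ε (r j) = v j * c * u k := by
      rw [← mul_assoc, ← mul_assoc, hev, mul_assoc, hjk, hue]
    rw [h1] at ht
    calc ε j * c * ε k = (u j * v j) * c * (u k * v k) := by rw [huv, huv]
      _ = u j * (v j * c * u k) * v k := by simp only [mul_assoc]
      _ = u j * (t • ε (r j)) * v k := by rw [ht]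
      _ = t • (u j * v k) := by rw [mul_smul_comm, hue, smul_mul_assoc]
  · refine ⟨0, ?_⟩
    rw [zero_smul]
    by_contra hne
    exact hjk (hr2 _ _ ((hRdef j k).2 ⟨c, hc, hne⟩))

end Pool.Agent.Lib.MP_640417_ag.Fg
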