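import Pool.Agent.Lib.MP_640417_ag.Fg.Defs

/-!
# MP_640417_ag, Fg, module GenB: closure properties of `Gen`

`smul`: `mul` with `const a`, `e : Fin 0 ⊕ Fin k ≃ Fin k`. `sum`: induction.
`comp`: induction over `Gen`; `pair`: `form (c (c₀ x)) (c₁ y) = form (c₁' (c (c₀ x))) y` where `form (c₁' x) y = form x (c₁ y)`: `c₁'` from
`AdjCl` by the symmetry of the form (`form x (c₁ y) = e * form (c₁ y) x = e * form y (c₁'' x) = form (c₁'' x) y`). `det`: compose `p i` with `c i`.
`mul`: `c ∘ e ∘ inl`, `c ∘ e ∘ inr`.
-/

set_option autoImplicit false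

namespace Pool.Agent.Lib.MP_640417_ag.Fg

open Module Pool.Agent.Lib.MP_640417_ag.Orth

variable {K V : Type} [Field K] [AddCommGroup V] [Module K V] {form : LinearMap.BilinForm K V}
  {C : Subalgebra K (Module.End K V)} {St : Submodule K V → Prop}

private theorem left_adj (e : K) (he : e * e = 1) (hsym : ∀ x y, form x y = e * form y x)
    (hadj : AdjCl form C) (c : Module.End K V) (hc : c ∈ C) :
    ∃ c' ∈ C, ∀ x y, form x (c y) = form (c' x) y := by
  obtain ⟨c', hc', h⟩ := hadj c hc
  refine ⟨c', hc', fun x y => ?_⟩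
  rw [hsym x (c y), h y x, hsym y (c' x), ← mul_assoc, he, one_mul]

theorem gen_smul {k : ℕ} (t : K) {f : (Fin k → V) → K} (hf : Gen form C St k f) :
    Gen form C St k fun v => t * f v :=
  Gen.mul 0 k k (Equiv.emptySum (Fin 0) (Fin k)) _ f (Gen.const t) hf

theorem gen_sum {k : ℕ} {I : Type} (s : Finset I) (f : I → (Fin k → V) → K)
    (hf : ∀ i ∈ s, Gen form C St k (f i)) : Gen form C St k fun v => ∑ i ∈ s, f i v := by
  classical
  induction s using Finset.induction_on with
  | empty =>
    simp only [Finset.sum_empty]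
    exact Gen.zero k
  | insert a s ha ih =>
    have h1 := ih fun i hi => hf i (Finset.mem_insert_of_mem hi)
    have h2 := hf a (Finset.mem_insert_self a s)
    have h3 := Gen.add k _ _ h2 h1
    simp only [Finset.sum_insert ha]
    exact h3

theorem gen_comp (e : K) (he : e * e = 1) (hsym : ∀ x y, form x y = e * form y x)
    (hadj : AdjCl form C) {k : ℕ} {f : (Fin k → V) → K} (hf : Gen form C St k f)
    (c : Fin k → Module.End K V) (hc : ∀ l, c l ∈ C) :
    Gen form C St k fun v => f fun l => c l (v l) := by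
  revert c
  induction hf with
  | const a =>
    intro c _
    exact Gen.const a
  | pair c0 hc0 =>
    intro c hc
    obtain ⟨d, hd, hd'⟩ := left_adj e he hsym hadj (c 1) (hc 1)
    have h1 : (fun v : Fin 2 → V => form (c0 (c 0 (v 0))) (c 1 (v 1))) =
        fun v => form ((d * c0 * c 0) (v 0)) (v 1) := by
      funext v
      rw [hd']
      rfl
    change Gen form C St 2 fun v : Fin 2 → V => form (c0 (c 0 (v 0))) (c 1 (v 1))
    rw [h1]
    exact Gen.pair _ (C.mul_mem (C.mul_mem hd hc0) (hc 0))
  | det d W hW b p hp =>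
    intro c hc
    exact Gen.det d W hW b (fun i => p i ∘ₗ c i) fun i => C.mul_mem (hp i) (hc i)
  | zero k =>
    intro c _
    exact Gen.zero k
  | add k f g _ _ ihf ihg =>
    intro c hc
    exact Gen.add k _ _ (ihf c hc) (ihg c hc)
  | mul a b k e' f g _ _ ihf ihg =>
    intro c hc
    exact Gen.mul a b k e' _ _ (ihf (fun i => c (e' (Sum.inl i))) fun i => hc _)
      (ihg (fun i => c (e' (Sum.inr i))) fun i => hc _)

/-- a pairing times a form of the other variables -/
theorem gen_beta_mul (e : K) (he : e * e = 1) (hsym : ∀ x y, form x y = e * form y x)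
    (hadj : AdjCl form C) {k k' : ℕ} (eq : Fin 2 ⊕ Fin k' ≃ Fin k) (a : Module.End K V)
    (ha : a ∈ C) {h : (Fin k' → V) → K} (hh : Gen form C St k' h) :
    Gen form C St k fun v => form (v (eq (Sum.inl 0))) (a (v (eq (Sum.inl 1)))) *
      h fun x => v (eq (Sum.inr x)) := by
  obtain ⟨d, hd, hd'⟩ := left_adj e he hsym hadj a ha
  have h1 : Gen form C St 2 fun v : Fin 2 → V => form (v 0) (a (v 1)) := by
    have h2 : (fun v : Fin 2 → V => form (v 0) (a (v 1))) = fun v => form (d (v 0)) (v 1) := by
      funext v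
      exact hd' _ _
    rw [h2]
    exact Gen.pair d hd
  exact Gen.mul 2 k' k eq _ h h1 hh

/-- a determinant times a form of the other variables -/
theorem gen_det_mul {k k' d : ℕ} (eq : Fin d ⊕ Fin k' ≃ Fin k) (ε : Module.End K V) (hε : ε ∈ C)
    (hSt : St (LinearMap.range ε)) (b : Basis (Fin d) K (LinearMap.range ε))
    {h : (Fin k' → V) → K} (hh : Gen form C St k' h) :
    Gen form C St k fun v => b.det (fun p => ε.rangeRestrict (v (eq (Sum.inl p)))) *
      h fun x => v (eq (Sum.inr x)) := by
  have h1 : Gen form C St d fun v : Fin d → V => b.det fun p => ε.rangeRestrict (v p) := by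
    refine Gen.det d (LinearMap.range ε) hSt b (fun _ => ε.rangeRestrict) fun i => ?_
    have h2 : (LinearMap.range ε).subtype ∘ₗ ε.rangeRestrict = ε := by
      ext x
      rfl
    rw [h2]
    exact hε
  exact Gen.mul d k' k eq _ h h1 hh

/-- the multilinear forms which are generated -/
def genSub (form : LinearMap.BilinForm K V) (C : Subalgebra K (Module.End K V))
    (St : Submodule K V → Prop) (k : ℕ) : Submodule K (Mf K V k) where
  carrier := {f | Gen form C St k f}
  zero_mem' := Gen.zero k
  add_mem' := fun hf hg => Gen.add k _ _ hf hg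
  smul_mem' := fun t _ hf => gen_smul t hf

end Pool.Agent.Lib.MP_640417_ag.Fg
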