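import Pool.Agent.Lib.MP_640417_ag.Fg.ExtI

/-!
# MP_640417_ag, Fg, module IdGL (300 lines): the contraction identity for `gl`

`β x y = form x (a i y)`, `E p q x = β x (e' q) • e p` (so `E p q (e q) = e p`, `ε i E ε i = E` by `left` / `mem`). For `p, q` let `Y = E p q - (if p = q then 1 / d else 0) • ε i`, `tr Y = 0`
(`tr (E p q) = β (e p) (e' q)`, `tr (ε i) = d`: `ε i = ∑ p, E p p`). `exists_lef` gives `X` and `Ys`; `Ys y = β (e p) y • e' q - (if p = q then 1 / d else 0) • ε (ds i) y` by uniqueness: `β x (Ys y) = β (Y x) y = β x (e' q) β (e p) y - ..` for all `x`, so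
`a i (Ys y - ..) = 0` (`hnd'`), apply `b i`. `tr (X ε j) = 0` for the representatives `j` with `ds j ≠ j`: `X ε j = Y` for `j = i` (then `j ≠ ds i`), `- Ys` for `j = ds i` (`tr Ys = ∑ ..  = β (e p) (e' q) - .. = 0`; `tr (ε (ds i)) = d` by `exp'`), `0` otherwise.
So `Dm X g = 0` by `hkill`. Evaluate at `update v l (E q p (v l)) = update v l (β (v l) (e' p) • e q)` and sum over `p, q`. The terms (`S` = variables of sort `i`, `T` = of sort `ds i`; use `Sorted` to insert the `ε`'s: for `m` with `s m = j`, `g (.. X (v m) ..) = g (.. ε j (X (v m)) ..) = g (.. X (ε j (v m)) ..)`,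
`X` commutes with `ε j ∈ C`):
 `m = l`: `∑ β (v l) (e' p) g (.. X (e q) ..)`, `X (e q) = X ε i (e q) = Y (e q) = e p - (if p = q) (1/d) e q`: gives `d g - (1 / d) g` (`∑ p, β (v l) (e' p) • e p = ε i (v l)`);
 `m ∈ S`, `m ≠ l`: `g (v l := β (v l) (e' p) e q, v m := β (v m) (e' q) e p) - (1 / d) δ ..` gives `g (v ∘ swap l m) - (1 / d) g v`;
 `m ∈ T`: `- g (v l := β (v l) (e' p) e q, v m := β (e p) (v m) e' q) + (1 / d) δ ..`, gives `- β (v l) (v m) * ctrF + (1 / d) g v` (`∑ p, β (v l) (e' p) β (e p) (v m) = β (ε i (v l)) (v m) = β (v l) (v m)`);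
 other `m`: `0`. The sum is `(d - 1 / d - (|S| - 1) / d + |T| / d) g v + ∑ .. = 0`.
-/

set_option autoImplicit false

namespace Pool.Agent.Lib.MP_640417_ag.Fg

open Module Pool.Agent.Lib.MP_640417_ag.Orth

section aux

variable {K V : Type} [Field K] [AddCommGroup V] [Module K V]

/-- In a sorted form the entries may be projected. -/
private lemma igl_upd {N : ℕ} {ε : Fin N → Module.End K V} (hid : ∀ j, ε j * ε j = ε j) {k : ℕ}
    {s : Fin k → Fin N} {g : Mf K V k} (hg : Sorted ε s g) (w : Fin k → V) (m : Fin k) (z : V)
    {j : Fin N} (hj : s m = j) :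
    g (Function.update w m (ε j z)) = g (Function.update w m z) := by
  subst hj
  rw [← hg (Function.update w m (ε (s m) z)), ← hg (Function.update w m z)]
  congr 1
  funext x
  by_cases hx : x = m
  · subst hx
    rw [Function.update_self, Function.update_self, ← Module.End.mul_apply, hid]
  · rw [Function.update_of_ne hx, Function.update_of_ne hx]

/-- The rank one operator of the component `i`. -/
private noncomputable def igl_E (form : LinearMap.BilinForm K V) (x y : V) : Module.End K V :=
  (form.flip y).smulRight x

private lemma igl_E_apply (form : LinearMap.BilinForm K V) (x y z : V) :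
    igl_E form x y z = form z y • x := rfl

/-- The rank one operator of the dual component. -/
private noncomputable def igl_F (form : LinearMap.BilinForm K V) (a : Module.End K V) (x y : V) :
    Module.End K V :=
  (form x ∘ₗ a).smulRight y

private lemma igl_F_apply (form : LinearMap.BilinForm K V) (a : Module.End K V) (x y z : V) :
    igl_F form a x y z = form x (a z) • y := rfl

private lemma igl_comb {d : ℕ} (A G : Fin d → Fin d → K) (B : Fin d → K) (t : K)
    (H : Fin d → K) : ∑ p, ∑ q, B p * (A p q * G p q - (if p = q then t else 0) * H q) =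
      ∑ p, ∑ q, B p * (A p q * G p q) - t * ∑ p, B p * H p := by
  rw [Finset.mul_sum, ← Finset.sum_sub_distrib]
  refine Finset.sum_congr rfl fun p _ => ?_
  have h : ∀ q, B p * (A p q * G p q - (if p = q then t else 0) * H q) =
      B p * (A p q * G p q) - (if p = q then t * (B p * H q) else 0) := by
    intro q
    split_ifs <;> ring
  rw [Finset.sum_congr rfl fun q _ => h q, Finset.sum_sub_distrib, Finset.sum_ite_eq,
    if_pos (Finset.mem_univ _)]

variable [FiniteDimensional K V]

/-- The identity for the pair `p, q`. -/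
private lemma igl_key [CharZero K] {form : LinearMap.BilinForm K V} (e₀ : K) (he : e₀ * e₀ = 1)
    (hsym : ∀ x y, form x y = e₀ * form y x) (hnd : ∀ x, (∀ y, form x y = 0) → x = 0)
    {C : Subalgebra K (Module.End K V)} (hadj : AdjCl form C) {N : ℕ}
    {ε : Fin N → Module.End K V} {r ds : Fin N → Fin N} {u v a b : Fin N → Module.End K V}
    (h : Atoms C ε r u v) (hD : Duals form C ε r ds a b) (i : Fin N) (hi : r i = i)
    (hne : ds i ≠ i) {d : ℕ} (hd : 0 < d) {e e' : Fin d → V} (hB : DB form ε ds a i e e')
    {k : ℕ} {s : Fin k → Fin N} (hs : ∀ l, r (s l) = s l) (g : Mf K V k) (hg : Sorted ε s g)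
    (hkill : ∀ X, InL form C X → (∀ j, r j = j → ds j ≠ j → LinearMap.trace K V (X * ε j) = 0) →
      Dm X g = 0) (p q : Fin d) (w : Fin k → V) :
    ∑ m ∈ Finset.univ.filter fun m => s m = i, (form (w m) (a i (e' q)) *
        g (Function.update w m (e p)) - (if p = q then (d : K)⁻¹ else 0) * g w) =
      ∑ m ∈ Finset.univ.filter fun m => s m = ds i, (form (e p) (a i (w m)) *
        g (Function.update w m (e' q)) - (if p = q then (d : K)⁻¹ else 0) * g w) := by
  have hd0 : (d : K) ≠ 0 := Nat.cast_ne_zero.2 hd.ne'
  obtain ⟨t, ht⟩ : ∃ t : K, t = if p = q then (d : K)⁻¹ else 0 := ⟨_, rfl⟩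
  rw [← ht]
  have hnd' : ∀ y, (∀ x, form x y = 0) → y = 0 := by
    intro y hy
    refine hnd y fun x => ?_
    rw [hsym, hy, mul_zero]
  have htr1 : LinearMap.trace K V (igl_E form (e p) (a i (e' q))) = if p = q then 1 else 0 := by
    rw [igl_E, LinearMap.trace_smulRight]
    exact hB.dual p q
  have htr2 : LinearMap.trace K V (igl_F form (a i) (e p) (e' q)) = if p = q then 1 else 0 := by
    rw [igl_F, LinearMap.trace_smulRight]
    exact hB.dual p q
  have hε1 : LinearMap.trace K V (ε i) = d := by
    have h1 : ε i = ∑ p, igl_E form (e p) (a i (e' p)) := by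
      refine LinearMap.ext fun x => ?_
      rw [hB.exp, LinearMap.sum_apply]
      rfl
    rw [h1, map_sum]
    have h2 : ∀ p, LinearMap.trace K V (igl_E form (e p) (a i (e' p))) = 1 := by
      intro p
      rw [igl_E, LinearMap.trace_smulRight]
      exact (hB.dual p p).trans (if_pos rfl)
    rw [Finset.sum_congr rfl fun p _ => h2 p, Finset.sum_const, Finset.card_univ,
      Fintype.card_fin, nsmul_eq_mul, mul_one]
  have hε2 : LinearMap.trace K V (ε (ds i)) = d := by
    have h1 : ε (ds i) = ∑ p, igl_F form (a i) (e p) (e' p) := by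
      refine LinearMap.ext fun x => ?_
      rw [hB.exp', LinearMap.sum_apply]
      rfl
    rw [h1, map_sum]
    have h2 : ∀ p, LinearMap.trace K V (igl_F form (a i) (e p) (e' p)) = 1 := by
      intro p
      rw [igl_F, LinearMap.trace_smulRight]
      exact (hB.dual p p).trans (if_pos rfl)
    rw [Finset.sum_congr rfl fun p _ => h2 p, Finset.sum_const, Finset.card_univ,
      Fintype.card_fin, nsmul_eq_mul, mul_one]
  have htd : (if p = q then (1 : K) else 0) - t * d = 0 := by
    rw [ht]
    split_ifs
    · rw [inv_mul_cancel₀ hd0, sub_self]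
    · rw [zero_mul, sub_zero]
  obtain ⟨Y, hYdef⟩ : ∃ Y : Module.End K V, Y = igl_E form (e p) (a i (e' q)) - t • ε i :=
    ⟨_, rfl⟩
  obtain ⟨Z, hZdef⟩ : ∃ Z : Module.End K V, Z = igl_F form (a i) (e p) (e' q) - t • ε (ds i) :=
    ⟨_, rfl⟩
  have hYap : ∀ x, Y x = form x (a i (e' q)) • e p - t • ε i x := by
    intro x
    rw [hYdef, LinearMap.sub_apply, LinearMap.smul_apply, igl_E_apply]
  have hZap : ∀ x, Z x = form (e p) (a i x) • e' q - t • ε (ds i) x := by
    intro x
    rw [hZdef, LinearMap.sub_apply, LinearMap.smul_apply, igl_F_apply]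
  have hee : ∀ j x, ε j (ε j x) = ε j x := by
    intro j x
    rw [← Module.End.mul_apply, h.idem]
  have hY : ε i * Y * ε i = Y := by
    refine LinearMap.ext fun x => ?_
    rw [Module.End.mul_apply, Module.End.mul_apply, hYap, hYap, map_sub, map_smul, map_smul,
      hB.mem, hee, hee, hD.left i hi]
  obtain ⟨X, Ys, hX, hYs, hXY, hXk⟩ := exists_lef e₀ he hsym hnd hadj h hD i hi Y hY
  have hYsZ : Ys = Z := by
    have h1 : ∀ y, a i (Ys y) = a i (Z y) := by
      intro y
      rw [← sub_eq_zero]
      refine hnd' _ fun x => ?_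
      rw [map_sub, ← hXY, hYap, hZap, map_sub, map_sub, map_smul, map_smul, map_smul, map_smul,
        LinearMap.sub_apply, LinearMap.smul_apply, LinearMap.smul_apply, hD.left i hi, map_sub,
        ← Module.End.mul_apply (a i) (ε (ds i)), hD.right i hi, map_smul, map_smul]
      simp only [smul_eq_mul]
      ring
    refine LinearMap.ext fun y => ?_
    have hba : ∀ z, b i (a i z) = ε (ds i) z := fun z => by
      rw [← Module.End.mul_apply, hD.ba i hi]
    have h2 := congrArg (b i) (h1 y)
    rw [hba, hba] at h2
    have h5 : ε (ds i) (Ys (ε (ds i) y)) = Ys y := LinearMap.congr_fun hYs y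
    have h3 : ε (ds i) (Ys y) = Ys y := by
      conv_lhs => rw [← h5]
      rw [hee, h5]
    have h4 : ε (ds i) (Z y) = Z y := by
      rw [hZap, map_sub, map_smul, map_smul, hB.mem', hee]
    rw [← h3, h2, h4]
  rw [hYsZ] at hXk
  have hkillX : Dm X g = 0 := by
    refine hkill X hX fun j hj hdj => ?_
    rw [hXk j hj]
    by_cases hji : j = i
    · rw [if_pos hji, if_neg (by rw [hji]; exact hne.symm), sub_zero, hYdef, map_sub, map_smul,
        htr1, hε1, smul_eq_mul, htd]
    · rw [if_neg hji, zero_sub]
      by_cases hjd : j = ds i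
      · rw [if_pos hjd, map_neg, hZdef, map_sub, map_smul, htr2, hε2, smul_eq_mul, htd, neg_zero]
      · rw [if_neg hjd, neg_zero, map_zero]
  have hw := congrArg (fun f : Mf K V k => f w) hkillX
  simp only [Dm_apply, zero_apply] at hw
  have hterm : ∀ m, g (Function.update w m (X (w m))) =
      (if s m = i then (form (w m) (a i (e' q)) * g (Function.update w m (e p)) - t * g w)
        else 0) -
      (if s m = ds i then (form (e p) (a i (w m)) * g (Function.update w m (e' q)) - t * g w)
        else 0) := by
    intro m
    have h1 : ε (s m) (X (w m)) = (X * ε (s m)) (w m) := by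
      rw [hX.1 _ (h.mem (s m))]
      rfl
    rw [← igl_upd h.idem hg w m (X (w m)) rfl, h1, hXk _ (hs m)]
    have h2 : ∀ j, s m = j → g (Function.update w m (ε j (w m))) = g w := by
      intro j hj
      rw [igl_upd h.idem hg w m _ hj, Function.update_eq_self]
    by_cases hmi : s m = i
    · have hmd : s m ≠ ds i := by
        rw [hmi]
        exact hne.symm
      rw [if_pos hmi, if_neg hmd, if_pos hmi, if_neg hmd, sub_zero, sub_zero, hYap,
        MultilinearMap.map_update_sub, MultilinearMap.map_update_smul,
        MultilinearMap.map_update_smul, h2 i hmi, smul_eq_mul, smul_eq_mul]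
    · rw [if_neg hmi, if_neg hmi]
      by_cases hmd : s m = ds i
      · rw [if_pos hmd, if_pos hmd, zero_sub, zero_sub, LinearMap.neg_apply,
          MultilinearMap.map_update_neg, hZap,
          MultilinearMap.map_update_sub, MultilinearMap.map_update_smul,
          MultilinearMap.map_update_smul, h2 _ hmd, smul_eq_mul, smul_eq_mul]
      · rw [if_neg hmd, if_neg hmd, sub_zero, sub_zero, LinearMap.zero_apply]
        exact g.map_coord_zero m (Function.update_self _ _ _)
  rw [Finset.sum_congr rfl fun m _ => hterm m, Finset.sum_sub_distrib, sub_eq_zero] at hw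
  rw [Finset.sum_filter, Finset.sum_filter]
  exact hw

end aux

theorem id_gl {K V : Type} [Field K] [CharZero K] [AddCommGroup V] [Module K V]
    [FiniteDimensional K V] {form : LinearMap.BilinForm K V} (e₀ : K) (he : e₀ * e₀ = 1)
    (hsym : ∀ x y, form x y = e₀ * form y x) (hnd : ∀ x, (∀ y, form x y = 0) → x = 0)
    {C : Subalgebra K (Module.End K V)} (hadj : AdjCl form C) {N : ℕ}
    {ε : Fin N → Module.End K V} {r ds : Fin N → Fin N} {u v a b : Fin N → Module.End K V}
    (h : Atoms C ε r u v) (hD : Duals form C ε r ds a b) (i : Fin N) (hi : r i = i)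
    (hne : ds i ≠ i) {d : ℕ} (hd : 0 < d) {e e' : Fin d → V} (hB : DB form ε ds a i e e')
    {k : ℕ} {s : Fin k → Fin N} (hs : ∀ l, r (s l) = s l) (g : Mf K V k) (hg : Sorted ε s g)
    (hkill : ∀ X, InL form C X → (∀ j, r j = j → ds j ≠ j → LinearMap.trace K V (X * ε j) = 0) →
      Dm X g = 0) (l : Fin k) (hl : s l = i) (w : Fin k → V) :
    ((d : K) - (((Finset.univ.filter fun m => s m = i).card : K) -
        (Finset.univ.filter fun m => s m = ds i).card) / d) * g w +
      ∑ m ∈ (Finset.univ.filter fun m => s m = i).erase l, g (w ∘ Equiv.swap l m) =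
      ∑ m ∈ Finset.univ.filter fun m => s m = ds i,
        form (w l) (a i (w m)) * ctrF e e' l m g w := by
  have hd0 : (d : K) ≠ 0 := Nat.cast_ne_zero.2 hd.ne'
  have hli : s l ≠ ds i := by
    rw [hl]
    exact hne.symm
  -- the coefficients
  obtain ⟨B, hBdef⟩ : ∃ B : Fin d → K, B = fun p => form (w l) (a i (e' p)) := ⟨_, rfl⟩
  have hBp : ∀ p, B p = form (w l) (a i (e' p)) := fun p => by rw [hBdef]
  have hsumB : ∑ p, B p • e p = ε i (w l) := by
    rw [hB.exp, hBdef]
  have H1 : ∑ p, B p * g (Function.update w l (e p)) = g w := by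
    have h1 : ∀ p, B p * g (Function.update w l (e p)) =
        g (Function.update w l (B p • e p)) := by
      intro p
      rw [MultilinearMap.map_update_smul, smul_eq_mul]
    rw [Finset.sum_congr rfl fun p _ => h1 p, ← MultilinearMap.map_update_sum, hsumB,
      igl_upd h.idem hg w l _ hl, Function.update_eq_self]
  have key := fun p q => igl_key e₀ he hsym hnd hadj h hD i hi hne hd hB hs g hg hkill p q
    (Function.update w l (e q))
  have key2 : ∑ p, ∑ q, B p * ∑ m ∈ Finset.univ.filter fun m => s m = i,
      (form (Function.update w l (e q) m) (a i (e' q)) *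
        g (Function.update (Function.update w l (e q)) m (e p)) -
          (if p = q then (d : K)⁻¹ else 0) * g (Function.update w l (e q))) =
      ∑ p, ∑ q, B p * ∑ m ∈ Finset.univ.filter fun m => s m = ds i,
      (form (e p) (a i (Function.update w l (e q) m)) *
        g (Function.update (Function.update w l (e q)) m (e' q)) -
          (if p = q then (d : K)⁻¹ else 0) * g (Function.update w l (e q))) :=
    Finset.sum_congr rfl fun p _ => Finset.sum_congr rfl fun q _ => by rw [key p q]
  have hswap : ∀ (S : Finset (Fin k)) (f : Fin k → Fin d → Fin d → K),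
      ∑ p, ∑ q, B p * ∑ m ∈ S, f m p q = ∑ m ∈ S, ∑ p, ∑ q, B p * f m p q := by
    intro S f
    simp only [Finset.mul_sum]
    rw [Finset.sum_congr rfl fun p _ => Finset.sum_comm]
    exact Finset.sum_comm
  rw [hswap, hswap] at key2
  have hL : ∀ m, s m = i → m ≠ l → ∑ p, ∑ q, B p *
      (form (Function.update w l (e q) m) (a i (e' q)) *
        g (Function.update (Function.update w l (e q)) m (e p)) -
          (if p = q then (d : K)⁻¹ else 0) * g (Function.update w l (e q))) =
      g (w ∘ Equiv.swap l m) - (d : K)⁻¹ * g w := by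
    intro m hm hml
    rw [igl_comb (fun _ q => form (Function.update w l (e q) m) (a i (e' q)))
      (fun p q => g (Function.update (Function.update w l (e q)) m (e p))) B (d : K)⁻¹
      (fun q => g (Function.update w l (e q))), H1]
    congr 1
    have h1 : ∀ p q, B p * (form (Function.update w l (e q) m) (a i (e' q)) *
        g (Function.update (Function.update w l (e q)) m (e p))) =
        form (w m) (a i (e' q)) *
          g (Function.update (Function.update w l (e q)) m (B p • e p)) := by
      intro p q
      rw [Function.update_of_ne hml, MultilinearMap.map_update_smul, smul_eq_mul]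
      ring
    rw [Finset.sum_comm]
    have h2 : ∀ q, ∑ p, B p * (form (Function.update w l (e q) m) (a i (e' q)) *
        g (Function.update (Function.update w l (e q)) m (e p))) =
        g (Function.update (Function.update w m (w l)) l (form (w m) (a i (e' q)) • e q)) := by
      intro q
      rw [Finset.sum_congr rfl fun p _ => h1 p q, ← Finset.mul_sum,
        ← MultilinearMap.map_update_sum, hsumB, igl_upd h.idem hg _ m _ hm,
        Function.update_comm hml.symm, ← smul_eq_mul, ← MultilinearMap.map_update_smul]
    rw [Finset.sum_congr rfl fun q _ => h2 q, ← MultilinearMap.map_update_sum, ← hB.exp,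
      igl_upd h.idem hg _ l _ hl]
    congr 1
    funext x
    rw [Function.comp_apply]
    by_cases hxl : x = l
    · rw [hxl, Function.update_self, Equiv.swap_apply_left]
    · rw [Function.update_of_ne hxl]
      by_cases hxm : x = m
      · rw [hxm, Function.update_self, Equiv.swap_apply_right]
      · rw [Function.update_of_ne hxm, Equiv.swap_apply_of_ne_of_ne hxl hxm]
  have hLl : ∑ p, ∑ q, B p *
      (form (Function.update w l (e q) l) (a i (e' q)) *
        g (Function.update (Function.update w l (e q)) l (e p)) -
          (if p = q then (d : K)⁻¹ else 0) * g (Function.update w l (e q))) =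
      d * g w - (d : K)⁻¹ * g w := by
    rw [igl_comb (fun _ q => form (Function.update w l (e q) l) (a i (e' q)))
      (fun p q => g (Function.update (Function.update w l (e q)) l (e p))) B (d : K)⁻¹
      (fun q => g (Function.update w l (e q))), H1]
    congr 1
    have h1 : ∀ p q, B p * (form (Function.update w l (e q) l) (a i (e' q)) *
        g (Function.update (Function.update w l (e q)) l (e p))) =
        B p * g (Function.update w l (e p)) := by
      intro p q
      rw [Function.update_self, Function.update_idem, hB.dual, if_pos rfl, one_mul]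
    rw [Finset.sum_congr rfl fun p _ => Finset.sum_congr rfl fun q _ => h1 p q]
    rw [Finset.sum_congr rfl fun p _ => Finset.sum_const _]
    rw [← Finset.smul_sum, H1, Finset.card_univ, Fintype.card_fin, nsmul_eq_mul]
  have hR : ∀ m, s m = ds i → ∑ p, ∑ q, B p *
      (form (e p) (a i (Function.update w l (e q) m)) *
        g (Function.update (Function.update w l (e q)) m (e' q)) -
          (if p = q then (d : K)⁻¹ else 0) * g (Function.update w l (e q))) =
      form (w l) (a i (w m)) * ctrF e e' l m g w - (d : K)⁻¹ * g w := by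
    intro m hm
    have hml : m ≠ l := by
      rintro rfl
      exact hli hm
    rw [igl_comb (fun p q => form (e p) (a i (Function.update w l (e q) m)))
      (fun _ q => g (Function.update (Function.update w l (e q)) m (e' q))) B (d : K)⁻¹
      (fun q => g (Function.update w l (e q))), H1]
    congr 1
    have h1 : ∀ p, ∑ q, B p * (form (e p) (a i (Function.update w l (e q) m)) *
        g (Function.update (Function.update w l (e q)) m (e' q))) =
        form (B p • e p) (a i (w m)) * ctrF e e' l m g w := by
      intro p
      unfold ctrF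
      rw [Finset.mul_sum]
      refine Finset.sum_congr rfl fun q _ => ?_
      rw [Function.update_of_ne hml, map_smul, LinearMap.smul_apply, smul_eq_mul]
      ring
    rw [Finset.sum_congr rfl fun p _ => h1 p, ← Finset.sum_mul, ← LinearMap.sum_apply,
      ← map_sum, hsumB, hD.left i hi]
  have hlS : l ∈ Finset.univ.filter fun m => s m = i := Finset.mem_filter.2 ⟨Finset.mem_univ _, hl⟩
  rw [← Finset.add_sum_erase _ _ hlS, hLl, Finset.sum_congr rfl fun m hm =>
      hL m (Finset.mem_filter.1 (Finset.mem_of_mem_erase hm)).2 (Finset.ne_of_mem_erase hm),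
    Finset.sum_congr rfl fun m hm => hR m (Finset.mem_filter.1 hm).2, Finset.sum_sub_distrib,
    Finset.sum_sub_distrib, Finset.sum_const, Finset.sum_const, nsmul_eq_mul, nsmul_eq_mul,
    Finset.card_erase_of_mem hlS, Nat.cast_sub (Finset.card_pos.2 ⟨l, hlS⟩), Nat.cast_one] at key2
  linear_combination key2

end Pool.Agent.Lib.MP_640417_ag.Fg
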