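import Pool.Agent.Lib.MP_640417_ag.Fg.ExtI

/-!
# MP_640417_ag, Fg, module IdSD: the contraction identity for `so` and `sp`

`β x y = form x (a i y)`. `exists_lef` with `Y x = β x (e' q) • e p` gives `X` and `Ys y = β (e p) y • e' q`. Evaluate `Dm X g = 0`
at `update w l (β (w l) (e' p) • e q)` and sum over `p`, `q`.
-/

set_option autoImplicit false

namespace Pool.Agent.Lib.MP_640417_ag.Fg

open Module Pool.Agent.Lib.MP_640417_ag.Orth

/-- the elements of the Lie algebra -/
private theorem idSD_X {K V : Type} [Field K] [CharZero K] [AddCommGroup V] [Module K V]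
    [FiniteDimensional K V] {form : LinearMap.BilinForm K V} (e₀ : K) (he : e₀ * e₀ = 1)
    (hsym : ∀ x y, form x y = e₀ * form y x) (hnd : ∀ x, (∀ y, form x y = 0) → x = 0)
    {C : Subalgebra K (Module.End K V)} (hadj : AdjCl form C) {N : ℕ}
    {ε : Fin N → Module.End K V} {r ds : Fin N → Fin N} {u v a b : Fin N → Module.End K V}
    (h : Atoms C ε r u v) (hD : Duals form C ε r ds a b) (i : Fin N) (hi : r i = i)
    (hds : ds i = i) {d : ℕ} {e e' : Fin d → V} (hB : DB form ε ds a i e e') (p q : Fin d) :
    ∃ X : Module.End K V, InL form C X ∧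
      (∀ j, r j = j → ds j ≠ j → LinearMap.trace K V (X * ε j) = 0) ∧
      (∀ x, X (ε i x) = form x (a i (e' q)) • e p - form (e p) (a i x) • e' q) ∧
      ∀ j, r j = j → j ≠ i → ∀ x, X (ε j x) = 0 := by
  have hnd' : ∀ y, (∀ x, form x y = 0) → y = 0 := by
    intro y hy
    refine hnd y fun x => ?_
    rw [hsym, hy, mul_zero]
  obtain ⟨Y, hYdef⟩ : ∃ Y : Module.End K V, Y = (form.flip (a i (e' q))).smulRight (e p) :=
    ⟨_, rfl⟩
  have hY : ∀ x, Y x = form x (a i (e' q)) • e p := fun x => by rw [hYdef]; rfl
  have hYY : ε i * Y * ε i = Y := by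
    refine LinearMap.ext fun x => ?_
    show ε i (Y (ε i x)) = Y x
    rw [hY, hY, map_smul, hB.mem, hD.left i hi]
  obtain ⟨X, Ys, hX, hYs, hadjY, hXε⟩ := exists_lef e₀ he hsym hnd hadj h hD i hi Y hYY
  have hYs1 : ∀ y, ε (ds i) (Ys y) = Ys y := by
    intro y
    have h1 : ε (ds i) * Ys = Ys := by
      rw [← hYs, ← mul_assoc, ← mul_assoc, h.idem]
    exact LinearMap.congr_fun h1 y
  have hb : ∀ w, b i (a i w) = ε (ds i) w := fun w => LinearMap.congr_fun (hD.ba i hi) w
  have hYs2 : ∀ y, Ys y = form (e p) (a i y) • e' q := by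
    intro y
    have h1 : a i (Ys y) = a i (form (e p) (a i y) • e' q) := by
      rw [← sub_eq_zero]
      refine hnd' _ fun x => ?_
      rw [map_sub, ← hadjY, hY, map_smul, LinearMap.smul_apply, map_smul, map_smul, smul_eq_mul,
        smul_eq_mul]
      ring
    have h2 := congrArg (b i) h1
    rw [hb, hb, hYs1, map_smul, hB.mem'] at h2
    exact h2
  refine ⟨X, hX, fun j hj hdj => ?_, fun x => ?_, fun j hj hji x => ?_⟩
  · have h1 : j ≠ i := by
      rintro rfl
      exact hdj hds
    rw [hXε j hj, if_neg h1, if_neg (by rwa [hds]), sub_self, map_zero]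
  · have h1 := LinearMap.congr_fun (hXε i hi) x
    rw [if_pos rfl, if_pos hds.symm] at h1
    have h2 : X (ε i x) = Y x - Ys x := h1
    rw [h2, hY, hYs2]
  · have h1 := LinearMap.congr_fun (hXε j hj) x
    rw [if_neg hji, if_neg (by rwa [hds]), sub_self] at h1
    exact h1

theorem id_sd {K V : Type} [Field K] [CharZero K] [AddCommGroup V] [Module K V]
    [FiniteDimensional K V] {form : LinearMap.BilinForm K V} (e₀ : K) (he : e₀ * e₀ = 1)
    (hsym : ∀ x y, form x y = e₀ * form y x) (hnd : ∀ x, (∀ y, form x y = 0) → x = 0)
    {C : Subalgebra K (Module.End K V)} (hadj : AdjCl form C) {N : ℕ}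
    {ε : Fin N → Module.End K V} {r ds : Fin N → Fin N} {u v a b : Fin N → Module.End K V}
    (h : Atoms C ε r u v) (hD : Duals form C ε r ds a b) (i : Fin N) (hi : r i = i)
    (hds : ds i = i) (σ : K) (hσ : σ * σ = 1)
    (hσ' : ∀ x y, form x (a i y) = σ * form y (a i x)) {d : ℕ} {e e' : Fin d → V}
    (hB : DB form ε ds a i e e')
    {k : ℕ} {s : Fin k → Fin N} (hs : ∀ l, r (s l) = s l) (g : Mf K V k) (hg : Sorted ε s g)
    (hkill : ∀ X, InL form C X → (∀ j, r j = j → ds j ≠ j → LinearMap.trace K V (X * ε j) = 0) →
      Dm X g = 0) (l : Fin k) (hl : s l = i) (w : Fin k → V) :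
    ((d : K) - σ) * g w +
      ∑ m ∈ (Finset.univ.filter fun m => s m = i).erase l, g (w ∘ Equiv.swap l m) =
      ∑ m ∈ (Finset.univ.filter fun m => s m = i).erase l,
        form (w l) (a i (w m)) * ctrF e e' l m g w := by
  classical
  have hidem : ∀ j x, ε j (ε j x) = ε j x := fun j x => LinearMap.congr_fun (h.idem j) x
  -- one entry may be replaced by its component
  have hupd : ∀ (W : Fin k → V) (m : Fin k) (x : V),
      g (Function.update W m x) = g (Function.update W m (ε (s m) x)) := by
    intro W m x
    rw [← hg (Function.update W m x), ← hg (Function.update W m (ε (s m) x))]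
    congr 1
    funext l'
    by_cases hl' : l' = m
    · subst hl'
      rw [Function.update_self, Function.update_self, hidem]
    · rw [Function.update_of_ne hl', Function.update_of_ne hl']
  have hself : ∀ (W : Fin k → V) (m : Fin k), g (Function.update W m (ε (s m) (W m))) = g W := by
    intro W m
    rw [← hupd, Function.update_eq_self]
  obtain ⟨β, hβ⟩ : ∃ β : V → V → K, ∀ x y, β x y = form x (a i y) := ⟨_, fun _ _ => rfl⟩
  have hσβ : ∀ x y, β x y = σ * β y x := fun x y => by rw [hβ, hβ, hσ']
  have hβε : ∀ x y, β (ε i x) y = β x y := by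
    intro x y
    rw [hβ, hβ, hD.left i hi]
  have hexp : ∀ x, ∑ p, β x (e' p) • e p = ε i x := by
    intro x
    rw [hB.exp]
    exact Finset.sum_congr rfl fun p _ => by rw [hβ]
  have hexp' : ∀ y, ∑ p, β (e p) y • e' p = ε i y := by
    intro y
    have h1 := hB.exp' y
    rw [hds] at h1
    rw [h1]
    exact Finset.sum_congr rfl fun p _ => by rw [hβ]
  have hββ : ∀ x y, ∑ p, β x (e' p) * β (e p) y = β x y := by
    intro x y
    rw [← hβε x y, ← hexp x, hβ, map_sum, LinearMap.sum_apply]
    exact Finset.sum_congr rfl fun p _ => by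
      rw [map_smul, LinearMap.smul_apply, smul_eq_mul, hβ (e p) y]
  have hX := fun p q => idSD_X e₀ he hsym hnd hadj h hD i hi hds hB p q
  choose X hX1 hX2 hX3 hX4 using hX
  -- the identities
  have h0 : ∀ p q, ∑ m, g (Function.update (Function.update w l (β (w l) (e' p) • e q)) m
      (X p q ((Function.update w l (β (w l) (e' p) • e q)) m))) = 0 := by
    intro p q
    rw [← Dm_apply, hkill (X p q) (hX1 p q) (hX2 p q)]
    rfl
  have hXε : ∀ p q m x, ε (s m) (X p q x) = if s m = i then
      β x (e' q) • e p - β (e p) x • e' q else 0 := by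
    intro p q m x
    have h1 : ε (s m) (X p q x) = X p q (ε (s m) x) :=
      (LinearMap.congr_fun ((hX1 p q).1 _ (h.mem (s m))) x).symm
    rw [h1]
    split_ifs with hm
    · rw [hm, hX3, hβ, hβ]
    · exact hX4 p q (s m) (hs m) hm x
  -- the value of one term
  have hterm : ∀ p q m, g (Function.update (Function.update w l (β (w l) (e' p) • e q)) m
      (X p q ((Function.update w l (β (w l) (e' p) • e q)) m))) =
      if s m = i then (if m = l then
        β (w l) (e' p) * (β (e q) (e' q) * g (Function.update w l (e p))) -
          β (w l) (e' p) * (β (e p) (e q) * g (Function.update w l (e' q)))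
        else β (w l) (e' p) * (β (w m) (e' q) *
            g (Function.update (Function.update w l (e q)) m (e p))) -
          β (w l) (e' p) * (β (e p) (w m) *
            g (Function.update (Function.update w l (e q)) m (e' q)))) else 0 := by
    intro p q m
    rw [hupd, hXε]
    split_ifs with h1 h2
    · subst h2
      rw [Function.update_self, Function.update_idem]
      have h3 : β (β (w m) (e' p) • e q) (e' q) = β (w m) (e' p) * β (e q) (e' q) := by
        rw [hβ, map_smul, LinearMap.smul_apply, smul_eq_mul, hβ (e q)]
      have h4 : β (e p) (β (w m) (e' p) • e q) = β (w m) (e' p) * β (e p) (e q) := by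
        rw [hβ, map_smul, map_smul, smul_eq_mul, hβ (e p)]
      rw [h3, h4, MultilinearMap.map_update_sub, MultilinearMap.map_update_smul,
        MultilinearMap.map_update_smul, smul_eq_mul, smul_eq_mul]
      ring
    · rw [Function.update_of_ne h2, MultilinearMap.map_update_sub, MultilinearMap.map_update_smul,
        MultilinearMap.map_update_smul, smul_eq_mul, smul_eq_mul]
      have h5 : ∀ z, g (Function.update (Function.update w l (β (w l) (e' p) • e q)) m z) =
          β (w l) (e' p) * g (Function.update (Function.update w l (e q)) m z) := by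
        intro z
        rw [Function.update_comm (Ne.symm h2), MultilinearMap.map_update_smul, smul_eq_mul,
          Function.update_comm h2]
      rw [h5, h5]
      ring
    · exact MultilinearMap.map_coord_zero g m (Function.update_self _ _ _)
  -- the sums
  have hβe : ∀ q, β (e q) (e' q) = 1 := by
    intro q
    rw [hβ, hB.dual, if_pos rfl]
  have hlin : ∀ (W : Fin k → V) (m : Fin k) (c : Fin d → K) (z : Fin d → V),
      ∑ p, c p * g (Function.update W m (z p)) = g (Function.update W m (∑ p, c p • z p)) := by
    intro W m c z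
    rw [MultilinearMap.map_update_sum]
    exact Finset.sum_congr rfl fun p _ => by rw [MultilinearMap.map_update_smul, smul_eq_mul]
  have hl1 : ∑ p, ∑ q, (β (w l) (e' p) * (β (e q) (e' q) * g (Function.update w l (e p))) -
      β (w l) (e' p) * (β (e p) (e q) * g (Function.update w l (e' q)))) =
      ((d : K) - σ) * g w := by
    simp only [Finset.sum_sub_distrib]
    have e1 : ∑ p, ∑ q, β (w l) (e' p) * (β (e q) (e' q) * g (Function.update w l (e p))) =
        (d : K) * g w := by
      have e2 : ∀ p, ∑ q : Fin d, β (w l) (e' p) * (β (e q) (e' q) *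
          g (Function.update w l (e p))) = (d : K) * (β (w l) (e' p) *
            g (Function.update w l (e p))) := by
        intro p
        rw [Finset.sum_congr rfl fun q _ => by rw [hβe q, one_mul], Finset.sum_const,
          Finset.card_univ, Fintype.card_fin, nsmul_eq_mul]
      rw [Finset.sum_congr rfl fun p _ => e2 p, ← Finset.mul_sum, hlin, hexp, ← hl, hself]
    have e3 : ∑ p, ∑ q, β (w l) (e' p) * (β (e p) (e q) * g (Function.update w l (e' q))) =
        σ * g w := by
      rw [Finset.sum_comm]
      have e4 : ∀ q, ∑ p, β (w l) (e' p) * (β (e p) (e q) * g (Function.update w l (e' q))) =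
          (σ * β (e q) (w l)) * g (Function.update w l (e' q)) := by
        intro q
        rw [← hσβ (w l) (e q), ← hββ (w l) (e q), Finset.sum_mul]
        exact Finset.sum_congr rfl fun p _ => by ring
      rw [Finset.sum_congr rfl fun q _ => e4 q]
      simp only [mul_assoc]
      rw [← Finset.mul_sum, hlin, hexp', ← hl, hself]
    rw [e1, e3]
    ring
  have hl2 : ∀ m, m ≠ l → s m = i → ∑ p, ∑ q, (β (w l) (e' p) * (β (w m) (e' q) *
            g (Function.update (Function.update w l (e q)) m (e p))) -
          β (w l) (e' p) * (β (e p) (w m) *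
            g (Function.update (Function.update w l (e q)) m (e' q)))) =
      g (w ∘ Equiv.swap l m) - form (w l) (a i (w m)) * ctrF e e' l m g w := by
    intro m hml hsm
    simp only [Finset.sum_sub_distrib]
    have e1 : ∑ p, ∑ q, β (w l) (e' p) * (β (w m) (e' q) *
        g (Function.update (Function.update w l (e q)) m (e p))) =
        g (w ∘ Equiv.swap l m) := by
      have e2 : ∀ p, ∑ q, β (w l) (e' p) * (β (w m) (e' q) *
          g (Function.update (Function.update w l (e q)) m (e p))) =
          β (w l) (e' p) * g (Function.update (Function.update w l (ε i (w m))) m (e p)) := by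
        intro p
        rw [← Finset.mul_sum, ← hexp (w m), Function.update_comm (Ne.symm hml), ← hlin]
        congr 1
        exact Finset.sum_congr rfl fun q _ => by rw [Function.update_comm (Ne.symm hml)]
      rw [Finset.sum_congr rfl fun p _ => e2 p, hlin, hexp, ← hsm, ← hupd,
        Function.update_comm (Ne.symm hml), hsm, ← hl, ← hupd]
      congr 1
      funext x
      rw [Function.comp_apply]
      by_cases hx : x = l
      · subst hx
        rw [Function.update_self, Equiv.swap_apply_left]
      · rw [Function.update_of_ne hx]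
        by_cases hx' : x = m
        · subst hx'
          rw [Function.update_self, Equiv.swap_apply_right]
        · rw [Function.update_of_ne hx', Equiv.swap_apply_of_ne_of_ne hx hx']
    have e3 : ∑ p, ∑ q, β (w l) (e' p) * (β (e p) (w m) *
        g (Function.update (Function.update w l (e q)) m (e' q))) =
        form (w l) (a i (w m)) * ctrF e e' l m g w := by
      rw [ctrF, Finset.mul_sum, Finset.sum_comm, ← hβ, ← hββ]
      refine Finset.sum_congr rfl fun q _ => ?_
      rw [Finset.sum_mul]
      exact Finset.sum_congr rfl fun p _ => by ring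
    rw [e1, e3]
  have htot : ∑ m, ∑ p, ∑ q, g (Function.update (Function.update w l (β (w l) (e' p) • e q)) m
      (X p q ((Function.update w l (β (w l) (e' p) • e q)) m))) = 0 := by
    rw [Finset.sum_comm]
    refine Finset.sum_eq_zero fun p _ => ?_
    rw [Finset.sum_comm]
    exact Finset.sum_eq_zero fun q _ => h0 p q
  have hval : ∀ m, ∑ p, ∑ q, g (Function.update (Function.update w l (β (w l) (e' p) • e q)) m
      (X p q ((Function.update w l (β (w l) (e' p) • e q)) m))) =
      if s m = i then (if m = l then ((d : K) - σ) * g w else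
        g (w ∘ Equiv.swap l m) - form (w l) (a i (w m)) * ctrF e e' l m g w) else 0 := by
    intro m
    rw [Finset.sum_congr rfl fun p _ => Finset.sum_congr rfl fun q _ => hterm p q m]
    split_ifs with h1 h2
    · exact hl1
    · exact hl2 m h2 h1
    · simp
  rw [Finset.sum_congr rfl fun m _ => hval m, ← Finset.sum_filter,
    ← Finset.add_sum_erase _ _ (Finset.mem_filter.2 ⟨Finset.mem_univ l, hl⟩), if_pos rfl,
    Finset.sum_congr rfl fun m hm => if_neg (Finset.ne_of_mem_erase hm),
    Finset.sum_sub_distrib] at htot
  linear_combination htot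

end Pool.Agent.Lib.MP_640417_ag.Fg
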