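import Pool.Agent.Lib.MP_640417_ag.Fg.Defs

/-!
# MP_640417_ag, Fg, module TrI: elements without traces kill sorted forms

`X = M + z` with `M` in the span of the commutators and `InZ z`; `z * ε k = t k • ε k`, and `t k = 0` for the
representatives `k`, by the trace if `ds k ≠ k`, and because `z` is skew if `ds k = k`.
-/

set_option autoImplicit false

namespace Pool.Agent.Lib.MP_640417_ag.Fg

open Module Pool.Agent.Lib.MP_640417_ag.Orth

section aux

variable {K V : Type} [Field K] [AddCommGroup V] [Module K V] {form : LinearMap.BilinForm K V}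
  {C : Subalgebra K (Module.End K V)}

private theorem trI_Z {z : Module.End K V}
    (hz : z ∈ Submodule.span K {z : Module.End K V | InZ form C z}) : InZ form C z := by
  induction hz using Submodule.span_induction with
  | mem z hz => exact hz
  | zero => exact ⟨C.zero_mem, fun c _ => by rw [zero_mul, mul_zero], fun x y => by simp⟩
  | add z z' _ _ h1 h2 =>
    refine ⟨C.add_mem h1.1 h2.1, fun c hc => ?_, fun x y => ?_⟩
    · rw [add_mul, mul_add, h1.2.1 c hc, h2.2.1 c hc]
    · have e1 := h1.2.2 x y
      have e2 := h2.2.2 x y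
      rw [LinearMap.add_apply, LinearMap.add_apply, map_add, map_add, LinearMap.add_apply]
      linear_combination e1 + e2
  | smul t z _ h1 =>
    refine ⟨C.smul_mem h1.1 t, fun c hc => ?_, fun x y => ?_⟩
    · rw [smul_mul_assoc, mul_smul_comm, h1.2.1 c hc]
    · have e1 := h1.2.2 x y
      rw [LinearMap.smul_apply, LinearMap.smul_apply, map_smul, map_smul, LinearMap.smul_apply,
        smul_eq_mul, smul_eq_mul]
      linear_combination t * e1

private theorem trI_Dm {k : ℕ} {g : Mf K V k} (hk : Kd form C g) {M : Module.End K V}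
    (hM : M ∈ Submodule.span K {M : Module.End K V | ∃ P Q, InL form C P ∧ InL form C Q ∧
      M = P * Q - Q * P}) : Dm M g = 0 := by
  induction hM using Submodule.span_induction with
  | mem M hM =>
    obtain ⟨P, Q, hP, hQ, rfl⟩ := hM
    exact hk P Q hP hQ
  | zero => exact Dm_zero g
  | add M M' _ _ h1 h2 => rw [Dm_add, h1, h2, add_zero]
  | smul t M _ h1 => rw [Dm_smul, h1, smul_zero]

private theorem trI_tr {p : Module.End K V} (hp : p ∈ C) {M : Module.End K V}
    (hM : M ∈ Submodule.span K {M : Module.End K V | ∃ P Q, InL form C P ∧ InL form C Q ∧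
      M = P * Q - Q * P}) : LinearMap.trace K V (M * p) = 0 := by
  induction hM using Submodule.span_induction with
  | mem M hM =>
    obtain ⟨P, Q, hP, hQ, rfl⟩ := hM
    have h1 : LinearMap.trace K V (Q * P * p) = LinearMap.trace K V (P * Q * p) := by
      rw [mul_assoc, hP.1 p hp, ← mul_assoc, LinearMap.trace_mul_comm, mul_assoc]
    rw [sub_mul, map_sub, h1, sub_self]
  | zero => rw [zero_mul, map_zero]
  | add M M' _ _ h1 h2 => rw [add_mul, map_add, h1, h2, add_zero]
  | smul t M _ h1 => rw [smul_mul_assoc, map_smul, h1, smul_zero]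

end aux

theorem kill_lef {K V : Type} [Field K] [CharZero K] [AddCommGroup V] [Module K V]
    [FiniteDimensional K V] {form : LinearMap.BilinForm K V}
    {C : Subalgebra K (Module.End K V)} (hp : Perf form C)
    (hnd : ∀ x, (∀ y, form x y = 0) → x = 0) (hnd' : ∀ y, (∀ x, form x y = 0) → y = 0) {N : ℕ}
    {ε : Fin N → Module.End K V} {r ds : Fin N → Fin N} {u v a b : Fin N → Module.End K V}
    (h : Atoms C ε r u v) (hD : Duals form C ε r ds a b) {k : ℕ} {s : Fin k → Fin N}
    (hs : ∀ l, r (s l) = s l) (g : Mf K V k) (hg : Sorted ε s g) (hk : Kd form C g)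
    (X : Module.End K V) (hX : InL form C X)
    (htr : ∀ i, r i = i → ds i ≠ i → LinearMap.trace K V (X * ε i) = 0) : Dm X g = 0 := by
  -- the decomposition
  have h1 := hp X hX
  rw [Submodule.span_union, Submodule.mem_sup] at h1
  obtain ⟨M, hM, z, hz, hMz⟩ := h1
  obtain ⟨hzC, hzL⟩ := trI_Z hz
  -- `z` is zero on the ranges of the representatives
  have hzε : ∀ i, r i = i → z * ε i = 0 := by
    intro i hi
    obtain ⟨t, ht⟩ := h.one i z hzC
    have hzt : z * ε i = t • ε i := by
      rw [← ht, ← hzL.1 _ (h.mem i), mul_assoc, h.idem]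
    by_cases hdi : ds i = i
    · -- `z` is skew
      by_contra hne
      have ht0 : t ≠ 0 := by
        rintro rfl
        rw [zero_smul] at hzt
        exact hne hzt
      have ha0 : a i = 0 := by
        refine LinearMap.ext fun y => ?_
        rw [LinearMap.zero_apply]
        refine hnd' _ fun x => ?_
        have e1 := hzL.2 (ε i x) (a i y)
        have e2 : z (ε i x) = t • ε i x := LinearMap.congr_fun hzt x
        have e3 : z (a i y) = a i (z y) := LinearMap.congr_fun (hzL.1 _ (hD.aC i)) y
        have e4 : a i (z y) = t • a i y := by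
          have e5 : ∀ w, a i (ε i w) = a i w := fun w => by
            have := LinearMap.congr_fun (hD.right i hi) w
            rw [hdi] at this
            exact this
          have e6 : ε i (z y) = z (ε i y) := (LinearMap.congr_fun (hzL.1 _ (h.mem i)) y).symm
          have e7 : z (ε i y) = t • ε i y := LinearMap.congr_fun hzt y
          rw [← e5 (z y), e6, e7, map_smul, e5]
        rw [e2, e3, e4, map_smul, LinearMap.smul_apply, map_smul, hD.left i hi] at e1
        have e8 : (2 * t) * form x (a i y) = 0 := by
          rw [smul_eq_mul] at e1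
          linear_combination e1
        exact (mul_eq_zero.1 e8).resolve_left (mul_ne_zero two_ne_zero ht0)
      apply h.ne (ds i)
      rw [← hD.ba i hi, ha0, mul_zero]
    · -- the trace
      have e1 := htr i hi hdi
      rw [← hMz, add_mul, map_add, trI_tr (h.mem i) hM, zero_add, hzt, map_smul,
        smul_eq_mul] at e1
      rcases mul_eq_zero.1 e1 with e2 | e2
      · rw [hzt, e2, zero_smul]
      · exact absurd (LinearMap.IsIdempotentElem.eq_zero_of_trace_eq_zero (h.idem i) e2)
          (h.ne i)
  rw [← hMz, Dm_add, trI_Dm hk hM, zero_add]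
  ext w
  rw [Dm_apply, zero_apply]
  refine Finset.sum_eq_zero fun l _ => ?_
  rw [← hg]
  refine MultilinearMap.map_coord_zero g l ?_
  rw [Function.update_self]
  have e1 : ε (s l) (z (w l)) = z (ε (s l) (w l)) :=
    (LinearMap.congr_fun (hzL.1 _ (h.mem (s l))) (w l)).symm
  rw [e1]
  exact LinearMap.congr_fun (hzε (s l) (hs l)) (w l)

end Pool.Agent.Lib.MP_640417_ag.Fg
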