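import Pool.Agent.Lib.MP_640417_ag.Fg.AltC
import Pool.Agent.Lib.MP_640417_ag.Fg.GenB
import Pool.Agent.Lib.MP_640417_ag.Fg.TrI
import Pool.Agent.Lib.MP_640417_ag.Fg.DBI
import Pool.Agent.Lib.MP_640417_ag.Fg.CtrI
import Pool.Agent.Lib.MP_640417_ag.Fg.IdGL
import Pool.Agent.Lib.MP_640417_ag.Fg.IdSD
import Pool.Agent.Lib.MP_640417_ag.Fg.DetI

/-!
# MP_640417_ag, Fg, module SortI (350 lines): the first fundamental theorem for sorted forms

Strong induction on `k` (for all `s`, `g`). `k = 0`: `g v = g ![]`, `Gen.const`. `k > 0`: let `l₀ = 0`, `i = s l₀`, `S = univ.filter (s · = i)`, `T = univ.filter (s · = ds i)`, `d = finrank (range (ε i)) > 0` (`ne`), `bas` a basis of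
the range of `ε i` (`Module.finBasis`), `e'` from `exists_DB`. `Inv = {g' | Sorted ε s g' ∧ Kd form C g'}`, `P = genSub form C St k`. `act π g' = perm π g'` (see `act`, `perm_mul`, `Dm_perm` in `Orth/FftAll.lean`, private, copy). Use `alt_descent'`:
 `hI`: `swap x y` for `x, y ∈ S` preserves `Inv` (`s x = s y`).
 `kill_lef` gives `hkill` for every element of `Inv`.
 Case `ds i ≠ i`: `N = d`, `c = d - (|S| - |T|) / d`. `hJ`: `id_gl` at `l ∈ S`; the right side is a sum over `m ∈ T` (so `m ≠ l`, `k ≥ 2`, write `k = k' + 2`) of terms in `P`: choose `eq : Fin 2 ⊕ Fin k' ≃ Fin k` with `eq (inl 0) = l`, `eq (inl 1) = m` (a lemma),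
   `exists_contr`, the induction hypothesis for `q`, `gen_beta_mul`. `hc`: for `1 ≤ m < d`, `m ≤ |S|`: the number is `(m (d - m)) + |S| (1 - m / d) + m |T| / d > 0`, a positive rational number (times `d` a positive natural number), so not zero in `K`.
 Case `ds i = i`: `sgn` gives `σ`, `σ = 1` or `σ = -1`. `σ = 1`: `N = d`, `c = d - 1`; `hc`: `m (d - 1) - m (m - 1) + |S| - m = m (d - m) + (|S| - m) > 0`. `σ = -1`: `N = d + 1`, `c = d + 1`; `hc`: `m (d + 1) - m (m - 1) + |S| - m = m (d + 1 - m) + |S| > 0`. `hJ` from `id_sd`.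
 `hN` (`N = d`): `t ⊆ S`, `t.card = d`: `eq : Fin d ⊕ Fin (k - d) ≃ Fin k` with `eq ∘ inl` onto `t` (`finSumEquivOfFinset`, see `Orth/FftAll.lean`), `det_extract`, the induction hypothesis (`k - d < k`), `gen_det_mul` (`hSt`). `hN` (`N = d + 1`): `alt_zero`.
-/

set_option autoImplicit false

namespace Pool.Agent.Lib.MP_640417_ag.Fg

open Module Pool.Agent.Lib.MP_640417_ag.Orth

section

variable {K V : Type} [Field K] [AddCommGroup V] [Module K V]

private lemma perm_mul' {k : ℕ} (π σ : Equiv.Perm (Fin k)) (f : Mf K V k) :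
    perm (π * σ) f = perm π (perm σ f) := by
  ext v
  rw [perm_apply, perm_apply, perm_apply]
  rfl

/-- The action of the symmetric group. -/
private noncomputable def act' (K V : Type) [Field K] [AddCommGroup V] [Module K V] (k : ℕ) :
    Equiv.Perm (Fin k) →* Module.End K (Mf K V k) where
  toFun π :=
    { toFun := fun f => perm π f
      map_add' := fun _ _ => rfl
      map_smul' := fun _ _ => rfl }
  map_one' := rfl
  map_mul' π σ := LinearMap.ext fun f => perm_mul' π σ f

private lemma act'_apply {k : ℕ} (π : Equiv.Perm (Fin k)) (f : Mf K V k) :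
    act' K V k π f = perm π f := rfl

private lemma Dm_perm' {k : ℕ} (M : Module.End K V) (π : Equiv.Perm (Fin k)) (f : Mf K V k) :
    Dm M (perm π f) = perm π (Dm M f) := by
  ext v
  rw [perm_apply, Dm_apply, Dm_apply, ← Equiv.sum_comp π]
  refine Finset.sum_congr rfl fun i _ => ?_
  rw [perm_apply]
  congr 1
  funext j
  by_cases h : j = i
  · subst h
    rw [Function.update_self, Function.update_self]
  · rw [Function.update_of_ne h, Function.update_of_ne (fun h' => h (π.injective h'))]

private lemma Dm_smul_form' {k : ℕ} (M : Module.End K V) (c : K) (f : Mf K V k) :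
    Dm M (c • f) = c • Dm M f := by
  ext v
  rw [smul_apply, Dm_apply, Dm_apply, smul_eq_mul, Finset.mul_sum]
  rfl

/-- An enumeration of the variables which begins with `l`, `m`. -/
private lemma exists_eq2 {k : ℕ} (l m : Fin k) (hlm : l ≠ m) :
    ∃ eq : Fin 2 ⊕ Fin (k - 2) ≃ Fin k, eq (Sum.inl 0) = l ∧ eq (Sum.inl 1) = m := by
  have hk : 2 + (k - 2) = k := by
    have h1 : (l : ℕ) ≠ m := fun h => hlm (Fin.ext h)
    have := l.2
    have := m.2
    omega
  have ⟨e₀⟩ : Nonempty (Fin 2 ⊕ Fin (k - 2) ≃ Fin k) :=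
    ⟨finSumFinEquiv.trans (finCongr hk)⟩
  obtain ⟨π₁, h1⟩ : ∃ π₁ : Equiv.Perm (Fin k), π₁ (e₀ (Sum.inl 0)) = l :=
    ⟨Equiv.swap (e₀ (Sum.inl 0)) l, Equiv.swap_apply_left _ _⟩
  have h2 : π₁ (e₀ (Sum.inl 1)) ≠ l := by
    intro h
    have h3 := e₀.injective (π₁.injective (h.trans h1.symm))
    have h4 := Sum.inl_injective h3
    exact absurd h4 (by decide)
  refine ⟨(e₀.trans π₁).trans (Equiv.swap (π₁ (e₀ (Sum.inl 1))) m), ?_, ?_⟩
  · change Equiv.swap (π₁ (e₀ (Sum.inl 1))) m (π₁ (e₀ (Sum.inl 0))) = l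
    rw [h1]
    exact Equiv.swap_apply_of_ne_of_ne h2.symm hlm
  · exact Equiv.swap_apply_left _ _

/-- The constant in the case `ds i ≠ i`. -/
private lemma const_gl [CharZero K] (d m s t : ℕ) (h1 : 1 ≤ m) (h2 : m < d) :
    (m : K) * ((d : K) - ((s : K) - t) / d) - m * (m - 1) + ((s : K) - m) ≠ 0 := by
  obtain ⟨n, rfl⟩ : ∃ n, d = m + n := ⟨d - m, by omega⟩
  have hd : ((m + n : ℕ) : K) ≠ 0 := Nat.cast_ne_zero.2 (by omega)
  intro h
  have h3 : ((m * (m + n) * n + s * n + m * t : ℕ) : K) = ((m + n : ℕ) : K) *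
      ((m : K) * (((m + n : ℕ) : K) - ((s : K) - t) / ((m + n : ℕ) : K)) - m * (m - 1) +
        ((s : K) - m)) := by
    field_simp
    push_cast
    ring
  rw [h, mul_zero] at h3
  have h4 := Nat.cast_eq_zero.1 h3
  have h5 : 0 < m * (m + n) * n := Nat.mul_pos (Nat.mul_pos (by omega) (by omega)) (by omega)
  omega

private lemma const_so [CharZero K] (d m s : ℕ) (h1 : 1 ≤ m) (h2 : m < d) (h3 : m ≤ s) :
    (m : K) * ((d : K) - 1) - m * (m - 1) + ((s : K) - m) ≠ 0 := by
  obtain ⟨n, rfl⟩ : ∃ n, d = m + n := ⟨d - m, by omega⟩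
  obtain ⟨s', rfl⟩ : ∃ s', s = m + s' := ⟨s - m, by omega⟩
  have h4 : (m : K) * (((m + n : ℕ) : K) - 1) - m * (m - 1) + (((m + s' : ℕ) : K) - m) =
      ((m * n + s' : ℕ) : K) := by
    push_cast
    ring
  rw [h4]
  have h5 : 0 < m * n := Nat.mul_pos (by omega) (by omega)
  exact Nat.cast_ne_zero.2 (by omega)

private lemma const_sp [CharZero K] (d m s : ℕ) (h1 : 1 ≤ m) (h2 : m < d + 1) :
    (m : K) * ((d : K) + 1) - m * (m - 1) + ((s : K) - m) ≠ 0 := by
  obtain ⟨n, rfl⟩ : ∃ n, d = m + n := ⟨d - m, by omega⟩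
  have h4 : (m : K) * (((m + n : ℕ) : K) + 1) - m * (m - 1) + ((s : K) - m) =
      ((m * n + m + s : ℕ) : K) := by
    push_cast
    ring
  rw [h4]
  exact Nat.cast_ne_zero.2 (by omega)

/-- The sorted forms which are killed. -/
private def invS {N : ℕ} (form : LinearMap.BilinForm K V) (C : Subalgebra K (Module.End K V))
    (ε : Fin N → Module.End K V) {k : ℕ} (s : Fin k → Fin N) : Submodule K (Mf K V k) where
  carrier := {g | Sorted ε s g ∧ Kd form C g}
  zero_mem' := ⟨fun _ => rfl, fun _ _ _ _ => Dm_zero_form _⟩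
  add_mem' := fun {f g} hf hg => ⟨fun v => by
      rw [add_apply, add_apply, hf.1 v, hg.1 v],
    fun P Q hP hQ => by rw [Dm_add_form, hf.2 P Q hP hQ, hg.2 P Q hP hQ, add_zero]⟩
  smul_mem' := fun c f hf => ⟨fun v => by
      rw [smul_apply, smul_apply, hf.1 v],
    fun P Q hP hQ => by rw [Dm_smul_form', hf.2 P Q hP hQ, smul_zero]⟩

private lemma invS_swap {N : ℕ} {form : LinearMap.BilinForm K V}
    {C : Subalgebra K (Module.End K V)} {ε : Fin N → Module.End K V} {k : ℕ} {s : Fin k → Fin N}
    {x y : Fin k} (hxy : s x = s y) {g : Mf K V k} (hg : g ∈ invS form C ε s) :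
    perm (Equiv.swap x y) g ∈ invS form C ε s := by
  have hsw : ∀ l, s (Equiv.swap x y l) = s l := by
    intro l
    by_cases h1 : l = x
    · subst h1
      rw [Equiv.swap_apply_left, hxy]
    · by_cases h2 : l = y
      · subst h2
        rw [Equiv.swap_apply_right, hxy]
      · rw [Equiv.swap_apply_of_ne_of_ne h1 h2]
  refine ⟨fun v => ?_, fun P Q hP hQ => ?_⟩
  · rw [perm_apply, perm_apply]
    have h1 := hg.1 (fun l => v (Equiv.swap x y l))
    rw [← h1]
    congr 1
    funext l
    rw [hsw l]
  · rw [Dm_perm', hg.2 P Q hP hQ]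
    rfl

end

theorem fft_sorted {K V : Type} [Field K] [CharZero K] [AddCommGroup V] [Module K V]
    [FiniteDimensional K V] {form : LinearMap.BilinForm K V} (e₀ : K) (he : e₀ * e₀ = 1)
    (hsym : ∀ x y, form x y = e₀ * form y x) (hnd : ∀ x, (∀ y, form x y = 0) → x = 0)
    {C : Subalgebra K (Module.End K V)} (hadj : AdjCl form C) (hp : Perf form C) {N : ℕ}
    {ε : Fin N → Module.End K V} {r ds : Fin N → Fin N} {u v a b : Fin N → Module.End K V}
    (h : Atoms C ε r u v) (hD : Duals form C ε r ds a b) {St : Submodule K V → Prop}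
    (hSt : ∀ p ∈ C, p ≠ 0 → p * p = p → (∀ c ∈ C, ∃ t : K, p * c * p = t • p) →
      St (LinearMap.range p)) (k : ℕ) (s : Fin k → Fin N)
    (hs : ∀ l, r (s l) = s l) (g : Mf K V k) (hg : Sorted ε s g) (hk : Kd form C g) :
    Gen form C St k g := by
  have hnd' : ∀ y, (∀ x, form x y = 0) → y = 0 := by
    intro y hy
    refine hnd y fun x => ?_
    rw [hsym, hy x, mul_zero]
  induction k using Nat.strong_induction_on with
  | _ k ih =>
  rcases Nat.eq_zero_or_pos k with hk0 | hk0
  · subst hk0
    have h1 : (g : (Fin 0 → V) → K) = fun _ => g ![] := by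
      funext w
      rw [Subsingleton.elim w ![]]
    rw [h1]
    exact Gen.const _
  -- the sort of the first variable
  obtain ⟨i, hi0⟩ : ∃ i, i = s ⟨0, hk0⟩ := ⟨_, rfl⟩
  have hi : r i = i := by rw [hi0]; exact hs _
  have hd : 0 < finrank K (LinearMap.range (ε i)) := by
    rcases Nat.eq_zero_or_pos (finrank K (LinearMap.range (ε i))) with h1 | h1
    · exact absurd (LinearMap.range_eq_bot.1 (Submodule.finrank_eq_zero.1 h1)) (h.ne i)
    · exact h1
  obtain ⟨e', hB⟩ := exists_DB hnd hnd' h hD i hi (finBasis K (LinearMap.range (ε i)))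
  have hSne : (Finset.univ.filter fun m => s m = i).Nonempty :=
    ⟨⟨0, hk0⟩, Finset.mem_filter.2 ⟨Finset.mem_univ _, hi0.symm⟩⟩
  have hswap : ∀ x ∈ (Finset.univ.filter fun m => s m = i),
      ∀ y ∈ (Finset.univ.filter fun m => s m = i), ∀ f ∈ invS form C ε s,
        act' K V k (Equiv.swap x y) f ∈ invS form C ε s := by
    intro x hx y hy f hf
    rw [act'_apply]
    exact invS_swap ((Finset.mem_filter.1 hx).2.trans (Finset.mem_filter.1 hy).2.symm) hf
  -- the terms of the contraction identities
  have hterm : ∀ f ∈ invS form C ε s, ∀ l m : Fin k, l ≠ m → s l = i → s m = ds i →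
      Gen form C St k fun w => form (w l) (a i (w m)) *
        ctrF (fun p => (finBasis K (LinearMap.range (ε i)) p : V)) e' l m f w := by
    intro f hf l m hlm hl hm
    obtain ⟨eq, h0, h1⟩ := exists_eq2 l m hlm
    obtain ⟨q, hq0, hq1, hq2⟩ := exists_contr h hD i hi hB l m hlm hl hm eq h0 h1 f hf.1 hf.2
    have hlt : k - 2 < k := by omega
    have h2 := gen_beta_mul e₀ he hsym hadj eq (a i) (hD.aC i)
      (ih (k - 2) hlt (fun x => s (eq (Sum.inr x))) (fun _ => hs _) q hq1 hq2)
    have h3 : (fun w : Fin k → V => form (w l) (a i (w m)) *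
        ctrF (fun p => (finBasis K (LinearMap.range (ε i)) p : V)) e' l m f w) =
        fun w => form (w (eq (Sum.inl 0))) (a i (w (eq (Sum.inl 1)))) *
          q fun x => w (eq (Sum.inr x)) := by
      funext w
      rw [h0, h1, hq0 w]
    rw [h3]
    exact h2
  -- the determinant
  have hdet : ∀ f ∈ invS form C ε s, ∀ t : Finset (Fin k),
      t ⊆ (Finset.univ.filter fun m => s m = i) →
      t.card = finrank K (LinearMap.range (ε i)) →
      (∀ x ∈ t, ∀ y ∈ t, x ≠ y → act' K V k (Equiv.swap x y) f = - f) →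
      f ∈ genSub form C St k := by
    intro f hf t htS ht halt
    have htc : tᶜ.card = k - finrank K (LinearMap.range (ε i)) := by
      rw [Finset.card_compl, Fintype.card_fin, ht]
    let eq := finSumEquivOfFinset ht htc
    have heq : ∀ p, eq (Sum.inl p) ∈ t := fun p => by
      change finSumEquivOfFinset ht htc (Sum.inl p) ∈ t
      rw [finSumEquivOfFinset_inl]
      exact Finset.orderEmbOfFin_mem t ht p
    obtain ⟨q, hq0, hq1, hq2⟩ := det_extract h i (finBasis K (LinearMap.range (ε i))) eq
      (fun p => (Finset.mem_filter.1 (htS (heq p))).2) f hf.1 hf.2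
      (fun p q hpq => halt _ (heq p) _ (heq q)
        (fun h' => hpq (Sum.inl_injective (eq.injective h'))))
    have hlt : k - finrank K (LinearMap.range (ε i)) < k := by omega
    have h2 := gen_det_mul (form := form) (C := C) (St := St) eq (ε i) (h.mem i)
      (hSt _ (h.mem i) (h.ne i) (h.idem i) (h.one i)) (finBasis K (LinearMap.range (ε i)))
      (ih _ hlt (fun x => s (eq (Sum.inr x))) (fun _ => hs _) q hq1 hq2)
    have h3 : (f : (Fin k → V) → K) = fun w =>
        (finBasis K (LinearMap.range (ε i))).det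
          (fun p => (ε i).rangeRestrict (w (eq (Sum.inl p)))) *
          q fun x => w (eq (Sum.inr x)) := by
      funext w
      exact hq0 w
    change Gen form C St k f
    rw [h3]
    exact h2
  by_cases hds : ds i = i
  · obtain ⟨σ, hσ, hσ'⟩ := hD.sgn i hi hds
    -- the contraction identity
    have hJ : ∀ f ∈ invS form C ε s, ∀ l ∈ (Finset.univ.filter fun m => s m = i),
        ((finrank K (LinearMap.range (ε i)) : K) - σ) • f +
          ∑ m ∈ (Finset.univ.filter fun m => s m = i).erase l,
            act' K V k (Equiv.swap l m) f ∈ genSub form C St k := by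
      intro f hf l hl
      have hl' := (Finset.mem_filter.1 hl).2
      change Gen form C St k _
      have h1 : (((((finrank K (LinearMap.range (ε i)) : K) - σ) • f +
          ∑ m ∈ (Finset.univ.filter fun m => s m = i).erase l,
            act' K V k (Equiv.swap l m) f : Mf K V k)) : (Fin k → V) → K) = fun w =>
          ∑ m ∈ (Finset.univ.filter fun m => s m = i).erase l, form (w l) (a i (w m)) *
            ctrF (fun p => (finBasis K (LinearMap.range (ε i)) p : V)) e' l m f w := by
        funext w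
        rw [add_apply, smul_apply, sum_apply,
          smul_eq_mul]
        exact id_sd e₀ he hsym hnd hadj h hD i hi hds σ hσ hσ' hB hs f hf.1
          (fun X hX htr => kill_lef hp hnd hnd' h hD hs f hf.1 hf.2 X hX
            (fun j hj hj' => htr j hj hj')) l hl' w
      rw [h1]
      refine gen_sum _ _ fun m hm => ?_
      have hm1 := Finset.mem_erase.1 hm
      exact hterm f hf l m hm1.1.symm hl' ((Finset.mem_filter.1 hm1.2).2.trans hds.symm)
    have hσ1 : σ = 1 ∨ σ = -1 := by
      have h1 : (σ - 1) * (σ + 1) = 0 := by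
        have h2 : (σ - 1) * (σ + 1) = σ * σ - 1 := by ring
        rw [h2, hσ, sub_self]
      rcases mul_eq_zero.1 h1 with h2 | h2
      · exact Or.inl (sub_eq_zero.1 h2)
      · exact Or.inr (eq_neg_of_add_eq_zero_left h2)
    rcases hσ1 with rfl | rfl
    · refine alt_descent' (N := finrank K (LinearMap.range (ε i))) _ hSne hd (act' K V k)
        (genSub form C St k) (invS form C ε s) ((finrank K (LinearMap.range (ε i)) : K) - 1)
        hswap (fun m h1 h2 h3 => const_so _ m _ h1 h2 h3) hJ hdet g ⟨hg, hk⟩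
    · refine alt_descent' (N := finrank K (LinearMap.range (ε i)) + 1) _ hSne (by omega)
        (act' K V k)
        (genSub form C St k) (invS form C ε s) ((finrank K (LinearMap.range (ε i)) : K) + 1)
        hswap (fun m h1 h2 h3 => const_sp _ m _ h1 h2) ?_ ?_ g ⟨hg, hk⟩
      · intro f hf l hl
        have h1 := hJ f hf l hl
        rw [sub_neg_eq_add] at h1
        exact h1
      · intro f hf t htS ht halt
        have h1 : f = 0 := alt_zero i f hf.1 t
          (fun x hx => (Finset.mem_filter.1 (htS hx)).2) (by omega)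
          (fun x hx y hy hxy => halt x hx y hy hxy)
        rw [h1]
        exact Submodule.zero_mem _
  · refine alt_descent' (N := finrank K (LinearMap.range (ε i))) _ hSne hd (act' K V k)
      (genSub form C St k) (invS form C ε s)
      ((finrank K (LinearMap.range (ε i)) : K) -
        (((Finset.univ.filter fun m => s m = i).card : K) -
          (Finset.univ.filter fun m => s m = ds i).card) /
            (finrank K (LinearMap.range (ε i)) : K))
      hswap (fun m h1 h2 h3 => const_gl _ m _ _ h1 h2) ?_ hdet g ⟨hg, hk⟩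
    intro f hf l hl
    have hl' := (Finset.mem_filter.1 hl).2
    change Gen form C St k _
    have h1 : (((((finrank K (LinearMap.range (ε i)) : K) -
        (((Finset.univ.filter fun m => s m = i).card : K) -
          (Finset.univ.filter fun m => s m = ds i).card) /
            (finrank K (LinearMap.range (ε i)) : K)) • f +
        ∑ m ∈ (Finset.univ.filter fun m => s m = i).erase l,
          act' K V k (Equiv.swap l m) f : Mf K V k)) : (Fin k → V) → K) = fun w =>
        ∑ m ∈ (Finset.univ.filter fun m => s m = ds i), form (w l) (a i (w m)) *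
          ctrF (fun p => (finBasis K (LinearMap.range (ε i)) p : V)) e' l m f w := by
      funext w
      rw [add_apply, smul_apply, sum_apply,
        smul_eq_mul]
      exact id_gl e₀ he hsym hnd hadj h hD i hi hds hd hB hs f hf.1
        (fun X hX htr => kill_lef hp hnd hnd' h hD hs f hf.1 hf.2 X hX
          (fun j hj hj' => htr j hj hj')) l hl' w
    rw [h1]
    refine gen_sum _ _ fun m hm => ?_
    have hm1 := (Finset.mem_filter.1 hm).2
    refine hterm f hf l m (fun hlm => hds ?_) hl' hm1
    rw [← hm1, ← hlm, hl']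

end Pool.Agent.Lib.MP_640417_ag.Fg
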