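import Pool.Agent.Lib.MP_640417_ag.Fg.MinI
import Pool.Agent.Lib.MP_640417_ag.Fg.RepI
import Pool.Agent.Lib.MP_640417_ag.Fg.DualI
import Pool.Agent.Lib.MP_640417_ag.Fg.PerfK
import Pool.Agent.Lib.MP_640417_ag.Fg.SortI

/-!
# MP_640417_ag, Fg, module FftM: the first fundamental theorem

`exists_min`, `exists_atoms`, `exists_duals`, `perf_of`. For `J : Fin k → Fin N` let `g_J w = f (fun l => u (J l) (w l))` (`compLinearMap`): sorted for `s = r ∘ J` (`ue`), killed by the commutators `X` (`X` commutes with `u j`: `f (.. u (J l) (X w l) ..) = f (.. X (u (J l) (w l)) ..)`). So `Gen g_J` by `fft_sorted`.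
`f v = ∑ J, f (fun l => ε (J l) (v l))` (`∑ ε j = 1`, `MultilinearMap.map_sum`) `= ∑ J, g_J (fun l => v' (J l) (v l))` (`uv`; `v'` the matrix units). `gen_comp`, `gen_sum`.
-/

set_option autoImplicit false

namespace Pool.Agent.Lib.MP_640417_ag.Fg

open Module Pool.Agent.Lib.MP_640417_ag.Orth

/-- composition with commuting maps preserves the forms killed by the commutators -/
private theorem kd_comp {K V : Type} [Field K] [AddCommGroup V] [Module K V]
    {form : LinearMap.BilinForm K V} {C : Subalgebra K (Module.End K V)} {k : ℕ} (f : Mf K V k)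
    (hf : Kd form C f) (c : Fin k → Module.End K V) (hc : ∀ l, c l ∈ C) :
    Kd form C (MultilinearMap.compLinearMap f c) := by
  intro P Q hP hQ
  obtain ⟨X, hX⟩ : ∃ X, X = P * Q - Q * P := ⟨_, rfl⟩
  have hXc : ∀ l x, c l (X x) = X (c l x) := by
    intro l x
    have h1 : ∀ y, c l (P y) = P (c l y) := fun y => (LinearMap.congr_fun (hP.1 _ (hc l)) y).symm
    have h2 : ∀ y, c l (Q y) = Q (c l y) := fun y => (LinearMap.congr_fun (hQ.1 _ (hc l)) y).symm
    rw [hX]
    show c l (P (Q x) - Q (P x)) = P (Q (c l x)) - Q (P (c l x))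
    rw [map_sub, h1, h2, h2, h1]
  rw [← hX]
  have hk := hf P Q hP hQ
  rw [← hX] at hk
  ext v
  have h3 := congrArg (fun g : Mf K V k => g fun l => c l (v l)) hk
  change (Dm X f) (fun l => c l (v l)) = 0 at h3
  rw [Dm_apply] at h3 ⊢
  rw [MultilinearMap.zero_apply, ← h3]
  refine Finset.sum_congr rfl fun j _ => ?_
  rw [MultilinearMap.compLinearMap_apply]
  congr 1
  funext i
  by_cases hi : i = j
  · subst hi
    rw [Function.update_self, Function.update_self, hXc]
  · rw [Function.update_of_ne hi, Function.update_of_ne hi]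

theorem fft_gen {K V : Type} [Field K] [CharZero K] [IsAlgClosed K] [AddCommGroup V]
    [Module K V] [FiniteDimensional K V] {form : LinearMap.BilinForm K V} (e₀ : K)
    (he : e₀ * e₀ = 1) (hsym : ∀ x y, form x y = e₀ * form y x)
    (hnd : ∀ x, (∀ y, form x y = 0) → x = 0) {C : Subalgebra K (Module.End K V)}
    (hreg : RegC C) (hadj : AdjCl form C)
    (hZ : ∀ Z, InL form C Z → (∀ X, InL form C X → Z * X = X * Z) → Z ∈ C)
    {St : Submodule K V → Prop} (hSt : ∀ p ∈ C, p ≠ 0 → p * p = p →
      (∀ c ∈ C, ∃ t : K, p * c * p = t • p) → St (LinearMap.range p)) (k : ℕ)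
    (f : Mf K V k) (hf : Kd form C f) : Gen form C St k f := by
  classical
  obtain ⟨N, ε, hM⟩ := exists_min C hreg
  obtain ⟨r, u, v', h⟩ := exists_atoms hreg hM
  obtain ⟨ds, a, b, hD⟩ := exists_duals e₀ he hsym hnd hreg hadj h
  have hp : Perf form C := perf_of e₀ he hsym hnd hadj h hZ
  -- the sorted forms
  have hgen : ∀ J : Fin k → Fin N,
      Gen form C St k (MultilinearMap.compLinearMap f fun l => u (J l)) := by
    intro J
    refine fft_sorted e₀ he hsym hnd hadj hp h hD hSt k (fun l => r (J l))
      (fun l => h.rr (J l)) _ ?_ (kd_comp f hf _ fun l => h.uC (J l))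
    intro w
    rw [MultilinearMap.compLinearMap_apply, MultilinearMap.compLinearMap_apply]
    congr 1
    funext l
    exact LinearMap.congr_fun (h.ue (J l)) (w l)
  have hgen' : Gen form C St k fun w => ∑ J : Fin k → Fin N,
      (MultilinearMap.compLinearMap f fun l => u (J l)) fun l => v' (J l) (w l) := by
    refine gen_sum Finset.univ
      (fun (J : Fin k → Fin N) (w : Fin k → V) =>
        (MultilinearMap.compLinearMap f fun l => u (J l)) fun l => v' (J l) (w l))
      fun J _ => ?_
    exact gen_comp e₀ he hsym hadj (hgen J) (fun l => v' (J l)) fun l => h.vC (J l)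
  have hsum : (⇑f : (Fin k → V) → K) = fun w => ∑ J : Fin k → Fin N,
      (MultilinearMap.compLinearMap f fun l => u (J l)) fun l => v' (J l) (w l) := by
    funext w
    have h1 : w = fun l => ∑ j, ε j (w l) := by
      funext l
      have h2 := LinearMap.congr_fun h.sum (w l)
      rw [LinearMap.sum_apply] at h2
      exact h2.symm
    have h3 : f w = f fun l => ∑ j, ε j (w l) := congrArg f h1
    rw [h3, MultilinearMap.map_sum]
    refine Finset.sum_congr rfl fun J _ => ?_
    rw [MultilinearMap.compLinearMap_apply]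
    congr 1
    funext l
    exact (LinearMap.congr_fun (h.uv (J l)) (w l)).symm
  rw [hsum]
  exact hgen'

end Pool.Agent.Lib.MP_640417_ag.Fg
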