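import Pool.Agent.Lib.MP_640417_ag.Fg.ComF

/-!
# MP_640417_ag, Fg, module GenKill: generated forms are killed by commutators

Induction over `Gen`, with `M = P Q - Q P`.
-/

set_option autoImplicit false

namespace Pool.Agent.Lib.MP_640417_ag.Fg

open Module TensorProduct Pool.Agent.Lib.MP_640417_ag.Fr

section aux

variable {K W : Type} [Field K] [AddCommGroup W] [Module K W]

private theorem genKill_upd {d : ℕ} (b : Basis (Fin d) K W) (i : Fin d) (y : W) :
    b.det (Function.update b i y) = b.repr y i := by
  have h : b.det.toMultilinearMap.toLinearMap b i = b.coord i := by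
    refine b.ext fun j => ?_
    rw [MultilinearMap.toLinearMap_apply, Basis.coord_apply, Basis.repr_self]
    by_cases hij : i = j
    · subst hij
      rw [Function.update_eq_self, Finsupp.single_eq_same]
      exact b.det_self
    · rw [Finsupp.single_eq_of_ne hij]
      refine b.det.map_eq_zero_of_eq _ (i := i) (j := j) ?_ hij
      rw [Function.update_self, Function.update_of_ne (Ne.symm hij)]
  have h2 := LinearMap.congr_fun h y
  rw [MultilinearMap.toLinearMap_apply, Basis.coord_apply] at h2
  exact h2

/-- the derivative of an alternating form -/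
private noncomputable def genKill_D {d : ℕ} (f : W [⋀^Fin d]→ₗ[K] K) (M : Module.End K W) :
    W [⋀^Fin d]→ₗ[K] K :=
  { Orth.Dm M f.toMultilinearMap with
    map_eq_zero_of_eq' := by
      intro y i j hij hne
      change Orth.Dm M f.toMultilinearMap y = 0
      rw [Orth.Dm_apply, ← Finset.add_sum_erase _ _ (Finset.mem_univ i),
        ← Finset.add_sum_erase _ _ (Finset.mem_erase.2 ⟨Ne.symm hne, Finset.mem_univ j⟩)]
      have h1 : ∀ l ∈ (Finset.univ.erase i).erase j,
          f.toMultilinearMap (Function.update y l (M (y l))) = 0 := by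
        intro l hl
        have hlj : l ≠ j := Finset.ne_of_mem_erase hl
        have hli : l ≠ i := Finset.ne_of_mem_erase (Finset.mem_of_mem_erase hl)
        refine f.map_eq_zero_of_eq _ (i := i) (j := j) ?_ hne
        rw [Function.update_of_ne (Ne.symm hli), Function.update_of_ne (Ne.symm hlj), hij]
      rw [Finset.sum_eq_zero h1, add_zero]
      have h2 : Function.update y j (M (y j)) =
          Function.update y i (M (y i)) ∘ Equiv.swap i j := by
        funext l
        rw [Function.comp_apply]
        by_cases hl : l = i
        · subst hl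
          rw [Equiv.swap_apply_left, Function.update_of_ne hne, Function.update_of_ne (Ne.symm hne),
            hij]
        · by_cases hl' : l = j
          · subst hl'
            rw [Equiv.swap_apply_right, Function.update_self, Function.update_self, hij]
          · rw [Equiv.swap_apply_of_ne_of_ne hl hl', Function.update_of_ne hl',
              Function.update_of_ne hl]
      have h3 : f.toMultilinearMap (Function.update y j (M (y j))) =
          - f.toMultilinearMap (Function.update y i (M (y i))) := by
        rw [h2]
        exact f.map_swap _ hne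
      rw [h3, add_neg_cancel] }

private theorem genKill_det {d : ℕ} (b : Basis (Fin d) K W) (M : Module.End K W)
    (y : Fin d → W) : ∑ l, b.det (Function.update y l (M (y l))) =
      LinearMap.trace K W M * b.det y := by
  have h1 := AlternatingMap.eq_smul_basis_det b (genKill_D b.det M)
  have h2 := congrArg (fun f : W [⋀^Fin d]→ₗ[K] K => f y) h1
  have h3 : Orth.Dm M b.det.toMultilinearMap y =
      Orth.Dm M b.det.toMultilinearMap b * b.det y := h2
  rw [Orth.Dm_apply, Orth.Dm_apply] at h3
  have h4 : ∑ j, b.det.toMultilinearMap (Function.update b j (M (b j))) =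
      LinearMap.trace K W M := by
    rw [LinearMap.trace_eq_matrix_trace K b M, Matrix.trace]
    refine Finset.sum_congr rfl fun i _ => ?_
    rw [Matrix.diag_apply, LinearMap.toMatrix_apply]
    exact genKill_upd b i (M (b i))
  rw [h4] at h3
  exact h3

private theorem genKill_comm {form : LinearMap.BilinForm K W} {C : Subalgebra K (Module.End K W)}
    {P Q : Module.End K W} (hP : InL form C P) (hQ : InL form C Q) :
    InL form C (P * Q - Q * P) := by
  refine ⟨fun c hc => ?_, fun x y => ?_⟩
  · rw [sub_mul, mul_sub, mul_assoc, hQ.1 c hc, ← mul_assoc, hP.1 c hc, mul_assoc Q,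
      hP.1 c hc, ← mul_assoc Q, hQ.1 c hc]
    simp only [mul_assoc]
  · have p1 := hP.2 (Q x) y
    have p2 := hP.2 x (Q y)
    have q1 := hQ.2 (P x) y
    have q2 := hQ.2 x (P y)
    show form (P (Q x) - Q (P x)) y + form x (P (Q y) - Q (P y)) = 0
    rw [map_sub, map_sub, LinearMap.sub_apply]
    linear_combination p1 - q1 + p2 - q2

private theorem genKill_W {V : Type} [AddCommGroup V] [Module K V] (W : Submodule K V) {d : ℕ}
    (b : Basis (Fin d) K W) (p : Fin d → V →ₗ[K] W) (P Q : Module.End K V)
    (hP : ∀ y ∈ W, P y ∈ W) (hQ : ∀ y ∈ W, Q y ∈ W)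
    (hpP : ∀ i x, (p i (P x) : V) = P (p i x)) (hpQ : ∀ i x, (p i (Q x) : V) = Q (p i x))
    (v : Fin d → V) :
    ∑ l, b.det (fun i => p i (Function.update v l ((P * Q - Q * P) (v l)) i)) = 0 := by
  obtain ⟨P', hP'⟩ : ∃ P' : Module.End K W, ∀ y, (P' y : V) = P y :=
    ⟨P.restrict hP, fun y => rfl⟩
  obtain ⟨Q', hQ'⟩ : ∃ Q' : Module.End K W, ∀ y, (Q' y : V) = Q y :=
    ⟨Q.restrict hQ, fun y => rfl⟩
  have h1 : ∀ l x, p l ((P * Q - Q * P) x) = (P' * Q' - Q' * P') (p l x) := by
    intro l x
    refine Subtype.ext ?_
    show (p l (P (Q x) - Q (P x)) : V) = ((P' (Q' (p l x)) - Q' (P' (p l x)) : W) : V)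
    rw [map_sub, Submodule.coe_sub, Submodule.coe_sub, hP', hQ', hQ', hP', hpP, hpQ, hpQ, hpP]
  have h2 : ∀ l, b.det (fun i => p i (Function.update v l ((P * Q - Q * P) (v l)) i)) =
      b.det (Function.update (fun i => p i (v i)) l ((P' * Q' - Q' * P') (p l (v l)))) := by
    intro l
    congr 1
    funext i
    by_cases hi : i = l
    · subst hi
      rw [Function.update_self, Function.update_self, h1]
    · rw [Function.update_of_ne hi, Function.update_of_ne hi]
  have h3 := genKill_det b (P' * Q' - Q' * P') (fun i => p i (v i))
  have h4 : LinearMap.trace K W (P' * Q' - Q' * P') = 0 := by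
    rw [map_sub, LinearMap.trace_mul_comm, sub_self]
  rw [Finset.sum_congr rfl fun l _ => h2 l, h3, h4, zero_mul]

end aux

theorem gen_kill {Γ : Type} [Group Γ] [TopologicalSpace Γ] [IsTopologicalGroup Γ]
    [CompactSpace Γ] {F : Type} [Field F] [CharZero F]
    [TopologicalSpace F] {V : Type} [AddCommGroup V] [Module F V] [FiniteDimensional F V]
    (ρ : FormRep Γ F V) (hss : Semisimple ρ) {k : ℕ}
    {g : (Fin k → AlgebraicClosure F ⊗[F] V) → AlgebraicClosure F}
    (hg : Gen (ρ.form.baseChange (AlgebraicClosure F)) {c | InComK ρ c} (StableK ρ) k g)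
    (P Q : Module.End (AlgebraicClosure F) (AlgebraicClosure F ⊗[F] V))
    (hP : InL (ρ.form.baseChange (AlgebraicClosure F)) (comF ρ) P)
    (hQ : InL (ρ.form.baseChange (AlgebraicClosure F)) (comF ρ) Q)
    (v : Fin k → AlgebraicClosure F ⊗[F] V) :
    ∑ l, g (Function.update v l ((P * Q - Q * P) (v l))) = 0 := by
  obtain ⟨M, hM⟩ : ∃ M, M = P * Q - Q * P := ⟨_, rfl⟩
  have hML : InL (ρ.form.baseChange (AlgebraicClosure F)) (comF ρ) M := by
    rw [hM]
    exact genKill_comm hP hQ
  rw [← hM]
  induction hg with
  | const a => exact Finset.sum_of_isEmpty _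
  | pair c hc =>
    rw [Fin.sum_univ_two]
    have h1 : c (M (v 0)) = M (c (v 0)) := (LinearMap.congr_fun (hML.1 c hc) (v 0)).symm
    show ρ.form.baseChange (AlgebraicClosure F) (c (Function.update v 0 (M (v 0)) 0))
        (Function.update v 0 (M (v 0)) 1) +
      ρ.form.baseChange (AlgebraicClosure F) (c (Function.update v 1 (M (v 1)) 0))
        (Function.update v 1 (M (v 1)) 1) = 0
    rw [Function.update_self, Function.update_self, Function.update_of_ne (by decide),
      Function.update_of_ne (by decide), h1]
    exact hML.2 _ _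
  | det d W hW b p hp =>
    obtain ⟨p₀, hp₀, hp1, hp2⟩ := exists_proj ρ hss W hW
    have hres : ∀ X : Module.End (AlgebraicClosure F) (AlgebraicClosure F ⊗[F] V),
        (∀ c ∈ comF ρ, X * c = c * X) → ∀ y ∈ W, X y ∈ W := by
      intro X hX y hy
      have h1 : X y = p₀ (X y) := by
        conv_lhs => rw [← hp2 y hy]
        exact LinearMap.congr_fun (hX p₀ hp₀) y
      rw [h1]
      exact hp1 _
    have hcomp : ∀ X : Module.End (AlgebraicClosure F) (AlgebraicClosure F ⊗[F] V),
        (∀ c ∈ comF ρ, X * c = c * X) → ∀ i x,
          ((p i (X x) : W) : AlgebraicClosure F ⊗[F] V) = X (p i x) := by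
      intro X hX i x
      exact (LinearMap.congr_fun (hX _ (hp i)) x).symm
    rw [hM]
    exact genKill_W W b p P Q (hres P hP.1) (hres Q hQ.1) (hcomp P hP.1) (hcomp Q hQ.1) v
  | zero k => exact Finset.sum_const_zero
  | add k f g _ _ hf hg => rw [Finset.sum_add_distrib, hf v, hg v, add_zero]
  | mul a b k e f g _ _ hf hg =>
    rw [← Equiv.sum_comp e, Fintype.sum_sum_type]
    have h1 : ∀ i, f (fun j => Function.update v (e (Sum.inl i)) (M (v (e (Sum.inl i))))
        (e (Sum.inl j))) * g (fun j => Function.update v (e (Sum.inl i))
          (M (v (e (Sum.inl i)))) (e (Sum.inr j))) =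
        f (Function.update (fun j => v (e (Sum.inl j))) i (M (v (e (Sum.inl i))))) *
          g (fun j => v (e (Sum.inr j))) := by
      intro i
      congr 2
      · funext j
        by_cases hj : j = i
        · subst hj
          rw [Function.update_self, Function.update_self]
        · rw [Function.update_of_ne hj, Function.update_of_ne]
          intro h
          exact hj (Sum.inl_injective (e.injective h))
      · funext j
        rw [Function.update_of_ne]
        intro h
        exact absurd (e.injective h) (by simp)
    have h2 : ∀ i, f (fun j => Function.update v (e (Sum.inr i)) (M (v (e (Sum.inr i))))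
        (e (Sum.inl j))) * g (fun j => Function.update v (e (Sum.inr i))
          (M (v (e (Sum.inr i)))) (e (Sum.inr j))) =
        f (fun j => v (e (Sum.inl j))) *
          g (Function.update (fun j => v (e (Sum.inr j))) i (M (v (e (Sum.inr i))))) := by
      intro i
      congr 2
      · funext j
        rw [Function.update_of_ne]
        intro h
        exact absurd (e.injective h) (by simp)
      · funext j
        by_cases hj : j = i
        · subst hj
          rw [Function.update_self, Function.update_self]
        · rw [Function.update_of_ne hj, Function.update_of_ne]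
          intro h
          exact hj (Sum.inr_injective (e.injective h))
    rw [Finset.sum_congr rfl fun i _ => h1 i, Finset.sum_congr rfl fun i _ => h2 i,
      ← Finset.sum_mul, ← Finset.mul_sum, hf (fun j => v (e (Sum.inl j))),
      hg (fun j => v (e (Sum.inr j))), zero_mul, mul_zero, add_zero]

end Pool.Agent.Lib.MP_640417_ag.Fg
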