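import Pool.Agent.Lib.MP_640417_ag.Fg.DblF
import Pool.Agent.Lib.MP_640417_ag.Fg.GenB

/-!
# MP_640417_ag, Fg, module GenRes: restriction of generated forms from `V × V` to `V`

A determinant on the range `W` of a minimal idempotent of the doubled representation is a determinant on the range of an
idempotent of `ρ`: one of the two components of `W` is isomorphic to `W`.
-/

set_option autoImplicit false

namespace Pool.Agent.Lib.MP_640417_ag.Fg

open Module TensorProduct Pool.Agent.Lib.MP_640417_ag.Fr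

/-- the range of a minimal idempotent of `C` -/
def MinRange {K V : Type} [Field K] [AddCommGroup V] [Module K V]
    (C : Subalgebra K (Module.End K V)) (W : Submodule K V) : Prop :=
  ∃ p ∈ C, p ≠ 0 ∧ p * p = p ∧ (∀ c ∈ C, ∃ t : K, p * c * p = t • p) ∧ W = LinearMap.range p

private theorem det_equiv {K W W' : Type} [Field K] [AddCommGroup W] [Module K W]
    [AddCommGroup W'] [Module K W'] {d : ℕ} (b : Basis (Fin d) K W) (α : W ≃ₗ[K] W')
    (w : Fin d → W) : (b.map α).det (fun i => α (w i)) = b.det w := by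
  rw [Basis.det_map]
  congr 1
  funext i
  exact α.symm_apply_apply _

variable {Γ : Type} [Group Γ] [TopologicalSpace Γ] {F : Type} [Field F]
  [TopologicalSpace F] [ContinuousAdd F] {V : Type} [AddCommGroup V] [Module F V]
  (ρ : FormRep Γ F V)

/-- one of the components of the range of a minimal idempotent is isomorphic to it -/
theorem exists_comp {W : Submodule (AlgebraicClosure F) (AlgebraicClosure F ⊗[F] (V × V))}
    (hW : MinRange (comF (dblF ρ)) W) : ∃ (a : Bool)
      (W₀ : Submodule (AlgebraicClosure F) (AlgebraicClosure F ⊗[F] V))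
      (α : W ≃ₗ[AlgebraicClosure F] W₀), StableK ρ W₀ ∧
        ∀ w : W, ((α w : W₀) : AlgebraicClosure F ⊗[F] V) = prK F V a w := by
  obtain ⟨p, hp, hne, hpp, hone, rfl⟩ := hW
  have hE : ∀ a, ∃ t : AlgebraicClosure F, ∀ z,
      p (injK F V a (prK F V a (p z))) = t • p z := by
    intro a
    obtain ⟨t, ht⟩ := hone _ (inj_comF ρ (comF ρ).one_mem a a)
    exact ⟨t, fun z => LinearMap.congr_fun ht z⟩
  obtain ⟨a, t, ht0, ht⟩ : ∃ (a : Bool) (t : AlgebraicClosure F), t ≠ 0 ∧ ∀ z,
      p (injK F V a (prK F V a (p z))) = t • p z := by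
    obtain ⟨t₁, h1⟩ := hE false
    obtain ⟨t₂, h2⟩ := hE true
    by_cases h3 : t₁ = 0
    · refine ⟨true, t₂, ?_, h2⟩
      rintro rfl
      apply hne
      refine LinearMap.ext fun z => ?_
      have h4 : p (p z) = p z := LinearMap.congr_fun hpp z
      rw [← h4, ← injK_prK F V (p z), map_add, h1, h2, h3, zero_smul, add_zero]
      rfl
    · exact ⟨false, t₁, h3, h1⟩
  have hq : t⁻¹ • (prK F V a ∘ₗ p ∘ₗ injK F V a) ∈ comF ρ :=
    (comF ρ).smul_mem (pr_comF ρ hp a a) _
  have hW : ∀ w : LinearMap.range p, p (w : AlgebraicClosure F ⊗[F] (V × V)) = w := by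
    rintro ⟨_, z, rfl⟩
    exact LinearMap.congr_fun hpp z
  have hmem : ∀ w : LinearMap.range p, prK F V a (w : AlgebraicClosure F ⊗[F] (V × V)) ∈
      LinearMap.range (t⁻¹ • (prK F V a ∘ₗ p ∘ₗ injK F V a)) := by
    intro w
    refine ⟨prK F V a w, ?_⟩
    show t⁻¹ • prK F V a (p (injK F V a (prK F V a w))) = _
    rw [← hW w, ht, map_smul, smul_smul, inv_mul_cancel₀ ht0, one_smul]
  refine ⟨a, LinearMap.range (t⁻¹ • (prK F V a ∘ₗ p ∘ₗ injK F V a)), LinearEquiv.ofLinear
    (LinearMap.codRestrict _ (prK F V a ∘ₗ (LinearMap.range p).subtype) hmem)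
    (t⁻¹ • (p.rangeRestrict ∘ₗ injK F V a ∘ₗ Submodule.subtype _)) ?_ ?_,
    stable_range ρ hq, fun w => rfl⟩
  · refine LinearMap.ext ?_
    rintro ⟨_, x, rfl⟩
    refine Subtype.ext ?_
    show prK F V a (t⁻¹ • p (injK F V a (t⁻¹ • prK F V a (p (injK F V a x))))) =
      t⁻¹ • prK F V a (p (injK F V a x))
    rw [map_smul, map_smul, map_smul, map_smul, ht, map_smul, smul_smul t⁻¹ t,
      inv_mul_cancel₀ ht0, one_smul]
  · refine LinearMap.ext fun w => Subtype.ext ?_
    show t⁻¹ • p (injK F V a (prK F V a w)) = w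
    rw [← hW w, ht, smul_smul, inv_mul_cancel₀ ht0, one_smul]

theorem gen_res [FiniteDimensional F V] {k : ℕ}
    {g : (Fin k → AlgebraicClosure F ⊗[F] (V × V)) → AlgebraicClosure F}
    (hg : Gen ((dblF ρ).form.baseChange (AlgebraicClosure F)) (comF (dblF ρ))
      (MinRange (comF (dblF ρ))) k g) :
    Gen (ρ.form.baseChange (AlgebraicClosure F)) (comF ρ) (StableK ρ) k
      fun v => g fun j => injK F V false (v j) := by
  induction hg with
  | const a => exact Gen.const a
  | pair c hc =>
    obtain ⟨c', hc', h1⟩ := adjCl_comF' ρ (pr_comF ρ hc true false)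
    have h2 := Gen.mul 2 0 2 ((Equiv.sumEmpty (Fin 2) (Fin 0)).trans (Equiv.swap 0 1)) _ _
      (Gen.pair (form := ρ.form.baseChange (AlgebraicClosure F)) (C := comF ρ)
        (St := StableK ρ) c' hc') (Gen.const (-1))
    have h3 : (fun v : Fin 2 → AlgebraicClosure F ⊗[F] V =>
        (dblF ρ).form.baseChange (AlgebraicClosure F) (c (injK F V false (v 0)))
          (injK F V false (v 1))) = fun v => ρ.form.baseChange (AlgebraicClosure F)
            (c' (v 1)) (v 0) * (-1) := by
      funext v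
      rw [dblF_formK, prK_injK_ne (by decide), prK_injK_self, map_zero, zero_sub, mul_neg_one,
        ← h1]
      rfl
    change Gen _ _ _ 2 (fun v : Fin 2 → AlgebraicClosure F ⊗[F] V =>
        (dblF ρ).form.baseChange (AlgebraicClosure F) (c (injK F V false (v 0)))
          (injK F V false (v 1)))
    rw [h3]
    have h4 : ((Equiv.sumEmpty (Fin 2) (Fin 0)).trans (Equiv.swap 0 1)) (Sum.inl 0) = 1 := rfl
    have h5 : ((Equiv.sumEmpty (Fin 2) (Fin 0)).trans (Equiv.swap 0 1)) (Sum.inl 1) = 0 := rfl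
    simpa only [h4, h5] using h2
  | det d W hW b p hp =>
    obtain ⟨a, W₀, α, hS, hα⟩ := exists_comp ρ hW
    have h1 := Gen.det (form := ρ.form.baseChange (AlgebraicClosure F)) (C := comF ρ)
      (St := StableK ρ) d W₀ hS (b.map α) (fun i => α.toLinearMap ∘ₗ p i ∘ₗ injK F V false)
      (fun i => by
        have h2 : W₀.subtype ∘ₗ α.toLinearMap ∘ₗ p i ∘ₗ injK F V false =
            prK F V a ∘ₗ (W.subtype ∘ₗ p i) ∘ₗ injK F V false :=
          LinearMap.ext fun x => hα _
        rw [h2]
        exact pr_comF ρ (hp i) a false)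
    have h3 : (fun v : Fin d → AlgebraicClosure F ⊗[F] V =>
        b.det fun i => p i (injK F V false (v i))) =
        fun v => (b.map α).det fun i => (α.toLinearMap ∘ₗ p i ∘ₗ injK F V false) (v i) := by
      funext v
      exact (det_equiv (K := AlgebraicClosure F) (W := W) (W' := W₀) b α
        fun i => p i (injK F V false (v i))).symm
    rw [h3]
    exact h1
  | zero k => exact Gen.zero k
  | add k f g _ _ ihf ihg => exact Gen.add k _ _ ihf ihg
  | mul a b k e f g _ _ ihf ihg => exact Gen.mul a b k e _ _ ihf ihg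

end Pool.Agent.Lib.MP_640417_ag.Fg
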