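import Pool.Agent.Lib.MP_640417_ag.Fg.FftM
import Pool.Agent.Lib.MP_640417_ag.Fg.BaseL
import Pool.Agent.Lib.MP_640417_ag.Fg.GenKill
import Pool.Agent.Lib.MP_640417_ag.Fg.EigT
import Pool.Agent.Lib.MP_640417_ag.Fg.BcF
import Pool.Agent.Lib.MP_640417_ag.Fg.GenRes
import Pool.Agent.Lib.MP_640417_ag.Fr.DerL

/-!
# MP_640417_ag, Fg: the local-global principle, all Tate forms are generated by pairings and determinants
-/

set_option autoImplicit false

namespace Pool.Agent.Lib.MP_640417_ag.Fg

open Module TensorProduct MeasureTheory Pool.Agent.Lib.MP_640417_ag.Fr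
  Pool.Agent.Lib.MP_640417_ag.Orth

section abs

variable {K V : Type} [Field K] [AddCommGroup V] [Module K V]

theorem dm_span {k : ℕ} (g : Mf K V k) (S : Set (Module.End K V)) (hS : ∀ M ∈ S, Dm M g = 0)
    {M : Module.End K V} (hM : M ∈ Submodule.span K S) : Dm M g = 0 := by
  induction hM using Submodule.span_induction with
  | mem M hM => exact hS M hM
  | zero => exact Dm_zero g
  | add M M' _ _ h1 h2 => rw [Dm_add, h1, h2, add_zero]
  | smul t M _ h1 => rw [Dm_smul, h1, smul_zero]

/-- commutators of combinations -/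
theorem comm_span (S : Set (Module.End K V)) {P Q : Module.End K V}
    (hP : P ∈ Submodule.span K S) (hQ : Q ∈ Submodule.span K S) :
    P * Q - Q * P ∈ Submodule.span K {M | ∃ X ∈ S, ∃ Y ∈ S, M = X * Y - Y * X} := by
  induction hP using Submodule.span_induction with
  | mem X hX =>
    induction hQ using Submodule.span_induction with
    | mem Y hY => exact Submodule.subset_span ⟨X, hX, Y, hY, rfl⟩
    | zero => simp
    | add Y Y' _ _ h1 h2 =>
      have : X * (Y + Y') - (Y + Y') * X = (X * Y - Y * X) + (X * Y' - Y' * X) := by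
        rw [mul_add, add_mul]
        abel
      rw [this]
      exact Submodule.add_mem _ h1 h2
    | smul t Y _ h1 =>
      have : X * (t • Y) - (t • Y) * X = t • (X * Y - Y * X) := by
        rw [mul_smul_comm, smul_mul_assoc, smul_sub]
      rw [this]
      exact Submodule.smul_mem _ _ h1
  | zero => simp
  | add X X' _ _ h1 h2 =>
    have : (X + X') * Q - Q * (X + X') = (X * Q - Q * X) + (X' * Q - Q * X') := by
      rw [mul_add, add_mul]
      abel
    rw [this]
    exact Submodule.add_mem _ h1 h2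
  | smul t X _ h1 =>
    have : (t • X) * Q - Q * (t • X) = t • (X * Q - Q * X) := by
      rw [mul_smul_comm, smul_mul_assoc, smul_sub]
    rw [this]
    exact Submodule.smul_mem _ _ h1

end abs

section rep

variable {Γ : Type} [Group Γ] [TopologicalSpace Γ] [IsTopologicalGroup Γ]
  [CompactSpace Γ] {F : Type} [Field F] [CharZero F] [TopologicalSpace F] {V : Type}
  [AddCommGroup V] [Module F V] [FiniteDimensional F V] (ρ : FormRep Γ F V)

/-- the forms over `K` which are killed by the commutators, on the doubled representation -/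
theorem kd_dbl [ContinuousAdd F] {k : ℕ} (g : Mf (AlgebraicClosure F) (AlgebraicClosure F ⊗[F] V) k)
    (hg : Kd (ρ.form.baseChange (AlgebraicClosure F)) (comF ρ) g) :
    Kd ((dblF ρ).form.baseChange (AlgebraicClosure F)) (comF (dblF ρ))
      (g.compLinearMap fun _ => prK F V false) := by
  intro P' Q' hP hQ
  obtain ⟨hP1, -, hP3⟩ := inL_dbl hP
  obtain ⟨hQ1, -, hQ3⟩ := inL_dbl hQ
  have h1 := hg _ _ hP1 hQ1
  ext w
  have h2 := congrArg (fun G : Mf _ _ k => G fun i => prK F V false (w i)) h1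
  simp only [Dm_apply, MultilinearMap.zero_apply] at h2
  rw [Dm_apply, MultilinearMap.zero_apply, ← h2]
  refine Finset.sum_congr rfl fun j _ => ?_
  rw [MultilinearMap.compLinearMap_apply]
  congr 1
  funext i
  by_cases hi : i = j
  · subst hi
    rw [Function.update_self, Function.update_self]
    show prK F V false (P' (Q' (w i)) - Q' (P' (w i))) = _
    rw [map_sub, hP3 false (Q' (w i)), hQ3 false (w i), hQ3 false (P' (w i)), hP3 false (w i)]
    rfl
  · rw [Function.update_of_ne hi, Function.update_of_ne hi]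

/-- a Tate form which is killed by the commutators over `F` is generated -/
theorem generated_of_kill [ContinuousAdd F] (hss : Semisimple ρ)
    (hB : ∀ Z, Lef ρ Z → (∀ X, Lef ρ X → Z * X = X * Z) → InCom ρ Z) (k : ℕ)
    (f : MultilinearMap F (fun _ : Fin k => V) F) (hT : TateG ρ k f)
    (hf : ∀ X Y, Lef ρ X → Lef ρ Y → ∀ v, DF (X * Y - Y * X) f v = 0) : Generated ρ k f := by
  have hchar : CharZero (AlgebraicClosure F) :=
    charZero_of_injective_algebraMap (algebraMap F (AlgebraicClosure F)).injective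
  obtain ⟨g, hg1, hg2⟩ := exists_bcF f
  have hK : Kd (ρ.form.baseChange (AlgebraicClosure F)) (comF ρ) g := by
    intro P Q hP hQ
    refine dm_span g _ ?_ (comm_span _ (lef_span ρ hP) (lef_span ρ hQ))
    rintro _ ⟨_, ⟨X, hX, rfl⟩, _, ⟨Y, hY, rfl⟩, rfl⟩
    rw [← LinearMap.baseChange_mul, ← LinearMap.baseChange_mul, ← LinearMap.baseChange_sub]
    exact hg2 _ (hf X Y hX hY)
  obtain ⟨e, he, hsym⟩ := symm_formK (dblF ρ) (Or.inr (alt_dblF ρ))
  have h1 := gen_res ρ (fft_gen e he hsym (nondeg_formK (dblF ρ))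
    (regC_comF (dblF ρ) (semi_dblF ρ hss)) (adjCl_comF (dblF ρ))
    (center_K (dblF ρ) (lie_center_dblF ρ hB)) (St := MinRange (comF (dblF ρ)))
    (fun p hp h0 h1 h2 => ⟨p, hp, h0, h1, h2, rfl⟩) k
    (g.compLinearMap fun _ => prK F V false) (kd_dbl ρ g hK))
  have h2 : (fun v : Fin k → AlgebraicClosure F ⊗[F] V =>
      (g.compLinearMap fun _ => prK F V false) fun j => injK F V false (v j)) = g := by
    funext v
    rw [MultilinearMap.compLinearMap_apply]
    congr 1
    funext j
    exact prK_injK_self false (v j)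
  rw [h2] at h1
  exact generated_of_gen ρ f hT g hg1 h1

/-- a generated form which is killed by the central elements is killed by the Lefschetz Lie algebra -/
theorem kill_of_generated [ContinuousAdd F] (hss : Semisimple ρ)
    (hB : ∀ Z, Lef ρ Z → (∀ X, Lef ρ X → Z * X = X * Z) → InCom ρ Z) (k : ℕ)
    (f : MultilinearMap F (fun _ : Fin k => V) F) (hf : Generated ρ k f)
    (hz : ∀ z, CenSkew ρ z → ∀ v, DF z f v = 0) (X : Module.End F V) (hX : Lef ρ X)
    (v : Fin k → V) : DF X f v = 0 := by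
  have hchar : CharZero (AlgebraicClosure F) :=
    charZero_of_injective_algebraMap (algebraMap F (AlgebraicClosure F)).injective
  obtain ⟨g, hg1, hg2⟩ := exists_bcF f
  obtain ⟨q, hq, hq2⟩ := hf
  have hq1 := gen_of_span (Submodule.span_mono (fun m hm => hm.2) hq)
  obtain ⟨G, hG⟩ := gen_ml hq1
  have hgG : g = G := by
    refine Basis.ext_multilinear (fun _ => Algebra.TensorProduct.basis (AlgebraicClosure F)
      (Module.finBasis F V)) fun w => ?_
    simp only [Algebra.TensorProduct.basis_apply]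
    rw [hg1, hG, hq2]
  have hp : Perf (ρ.form.baseChange (AlgebraicClosure F)) (comF ρ) := by
    obtain ⟨e, he, hsym⟩ := symm_formK (dblF ρ) (Or.inr (alt_dblF ρ))
    have hreg := regC_comF (dblF ρ) (semi_dblF ρ hss)
    obtain ⟨N, ε, hM⟩ := exists_min (comF (dblF ρ)) hreg
    obtain ⟨r, u, v', hA⟩ := exists_atoms hreg hM
    exact perf_dbl (perf_of e he hsym (nondeg_formK (dblF ρ)) (adjCl_comF (dblF ρ)) hA
      (center_K (dblF ρ) (lie_center_dblF ρ hB)))
  have h1 : Dm (X.baseChange (AlgebraicClosure F)) g = 0 := by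
    refine dm_span g _ ?_ (hp _ (base_inL ρ hX))
    rintro M (⟨P, Q, hP, hQ, rfl⟩ | hM')
    · ext w
      rw [Dm_apply, hgG]
      simp only [hG]
      exact gen_kill ρ hss hq1 P Q hP hQ w
    · refine dm_span g _ ?_ (cen_span ρ hM')
      rintro _ ⟨z, hz', rfl⟩
      exact hg2 z (hz z hz')
  apply (algebraMap F (AlgebraicClosure F)).injective
  have h2 := congrArg (fun G : Mf _ _ k => G fun i => (1 : AlgebraicClosure F) ⊗ₜ[F] v i) h1
  simp only [Dm_apply, MultilinearMap.zero_apply] at h2
  rw [map_zero, ← h2, DF, map_sum]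
  refine Finset.sum_congr rfl fun l _ => ?_
  rw [← hg1]
  congr 1
  funext j
  by_cases h : j = l
  · subst h
    rw [Function.update_self, Function.update_self, LinearMap.baseChange_tmul]
  · rw [Function.update_of_ne h, Function.update_of_ne h]

end rep

section main

variable (l : ℕ) [Fact l.Prime] {Γ : Type} [Group Γ]
    [TopologicalSpace Γ] [IsTopologicalGroup Γ] [CompactSpace Γ] {V : Type} [AddCommGroup V]
    [Module ℚ_[l] V] [FiniteDimensional ℚ_[l] V] (ρ : FormRep Γ ℚ_[l] V)

theorem every_variety (hsemi : Semisimple ρ) [MeasurableSpace Γ] [BorelSpace Γ] (ν : Measure Γ)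
    [ν.IsHaarMeasure] :
    List.TFAE [∀ k f, TateG ρ k f → Generated ρ k f,
      ∀ f, TateG ρ 4 f → (∀ z, CenSkew ρ z → ∀ v, DF z f v = 0) → Generated ρ 4 f,
      Near ν (GoodF ρ), ∀ D : Set Γ, Dense D → ∃ γ ∈ D, GoodF ρ γ, ∃ γ, DetectsF ρ γ] := by
  have hB : ∀ Z, Lef ρ Z → (∀ X, Lef ρ X → Z * X = X * Z) → InCom ρ Z :=
    fun Z _ h => lie_center l ρ h
  have h0 := tfae_form l ρ hsemi ν
  tfae_have 1 → 2 := fun h f hf _ => h 4 f hf
  tfae_have 2 → 3 := by
    intro h
    refine (h0.out 1 3 rfl rfl).mp ?_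
    intro f hf hz X hX v
    refine kill_of_generated ρ hsemi hB 4 f (h f ?_ hz) hz X hX v
    obtain ⟨U, hU⟩ := hf
    refine ⟨U, fun γ hγ v w => ?_⟩
    rw [← hU γ hγ v, ← hU γ hγ w]
    ring
  tfae_have 3 → 4 := fun h => (h0.out 3 2 rfl rfl).mp h
  tfae_have 4 → 5 := fun h => (h0.out 2 4 rfl rfl).mp h
  tfae_have 5 → 1 := by
    intro h k f hf
    have h2 : LefF ρ 2 := (h0.out 4 1 rfl rfl).mp h
    obtain ⟨f₂, hf₂, hf₃⟩ := exists_square ρ f hf
    exact generated_of_kill ρ hsemi hB k f hf fun X Y hX hY =>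
      hf₃ _ (fun v => der_form l ρ hsemi h2 k f₂ hf₂ hX hY v)
  tfae_finish

end main

end Pool.Agent.Lib.MP_640417_ag.Fg
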