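import Pool.Agent.Lib.MP_640417_ag.Fg.Defs

/-!
# MP_640417_ag, Fg, module GenMl: generated functions are multilinear
-/

set_option autoImplicit false

namespace Pool.Agent.Lib.MP_640417_ag.Fg

open Module Pool.Agent.Lib.MP_640417_ag.Orth

private noncomputable def pairMl {K V : Type} [Field K] [AddCommGroup V] [Module K V]
    (form : LinearMap.BilinForm K V) (c : Module.End K V) : Mf K V 2 where
  toFun v := form (c (v 0)) (v 1)
  map_update_add' := by
    intro _ v i x y
    have h01 : (0 : Fin 2) ≠ 1 := zero_ne_one
    have hi : i = 0 ∨ i = 1 := by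
      rcases i with ⟨i, hi⟩
      interval_cases i
      · exact Or.inl rfl
      · exact Or.inr rfl
    rcases hi with rfl | rfl
    · simp only [Function.update_self, Function.update_of_ne h01.symm, map_add,
        LinearMap.add_apply]
    · simp only [Function.update_self, Function.update_of_ne h01, map_add]
  map_update_smul' := by
    intro _ v i t x
    have h01 : (0 : Fin 2) ≠ 1 := zero_ne_one
    have hi : i = 0 ∨ i = 1 := by
      rcases i with ⟨i, hi⟩
      interval_cases i
      · exact Or.inl rfl
      · exact Or.inr rfl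
    rcases hi with rfl | rfl
    · simp only [Function.update_self, Function.update_of_ne h01.symm, map_smul,
        LinearMap.smul_apply]
    · simp only [Function.update_self, Function.update_of_ne h01, map_smul]

theorem gen_ml {K V : Type} [Field K] [AddCommGroup V] [Module K V]
    {form : LinearMap.BilinForm K V} {C : Set (Module.End K V)} {St : Submodule K V → Prop}
    {k : ℕ} {g : (Fin k → V) → K} (hg : Gen form C St k g) :
    ∃ G : Mf K V k, ∀ v, G v = g v := by
  induction hg with
  | const a => exact ⟨MultilinearMap.constOfIsEmpty K (fun _ : Fin 0 => V) a, fun _ => rfl⟩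
  | pair c hc => exact ⟨pairMl form c, fun _ => rfl⟩
  | det d W hW b p hp => exact ⟨b.det.toMultilinearMap.compLinearMap p, fun _ => rfl⟩
  | zero k => exact ⟨0, fun _ => rfl⟩
  | add k f g _ _ ihf ihg =>
    obtain ⟨F, hF⟩ := ihf
    obtain ⟨G, hG⟩ := ihg
    exact ⟨F + G, fun v => by rw [_root_.add_apply, hF, hG]⟩
  | mul a b k e f g _ _ ihf ihg =>
    obtain ⟨F, hF⟩ := ihf
    obtain ⟨G, hG⟩ := ihg
    refine ⟨((LinearMap.mul' K K).compMultilinearMap
      (MultilinearMap.domCoprod F G)).domDomCongr e, fun v => ?_⟩
    have h1 : (((LinearMap.mul' K K).compMultilinearMap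
      (MultilinearMap.domCoprod F G)).domDomCongr e) v =
      F (fun i => v (e (Sum.inl i))) * G (fun i => v (e (Sum.inr i))) := rfl
    rw [h1, hF, hG]

end Pool.Agent.Lib.MP_640417_ag.Fg
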