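import Pool.Agent.Lib.MP_640417_ag.Fg.Defs

/-!
# MP_640417_ag, Fg, module MinI: minimal idempotents

Take a family of nonzero orthogonal idempotents of `C` with sum `1` with the largest number of
members.
-/

set_option autoImplicit false

namespace Pool.Agent.Lib.MP_640417_ag.Fg

open Module

private def Fam {K V : Type} [Field K] [AddCommGroup V] [Module K V]
    (C : Subalgebra K (Module.End K V)) (N : ℕ) (ε : Fin N → Module.End K V) : Prop :=
  (∀ j, ε j ∈ C) ∧ (∀ j, ε j ≠ 0) ∧ ∑ j, ε j = 1 ∧ (∀ j, ε j * ε j = ε j) ∧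
    ∀ j k, j ≠ k → ε j * ε k = 0

private theorem fam_card {K V : Type} [Field K] [AddCommGroup V] [Module K V]
    [FiniteDimensional K V] {C : Subalgebra K (Module.End K V)} {N : ℕ}
    {ε : Fin N → Module.End K V} (h : Fam C N ε) : N ≤ finrank K (Module.End K V) := by
  obtain ⟨_, h2, _, h4, h5⟩ := h
  have hli : LinearIndependent K ε := by
    rw [linearIndependent_iff']
    intro s g hg i hi
    have h6 : ε i * ∑ j ∈ s, g j • ε j = g i • ε i := by
      rw [Finset.mul_sum, Finset.sum_eq_single i]
      · rw [mul_smul_comm, h4]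
      · intro j _ hj
        rw [mul_smul_comm, h5 i j (Ne.symm hj), smul_zero]
      · intro h; exact absurd hi h
    rw [hg, mul_zero] at h6
    exact (smul_eq_zero.1 h6.symm).resolve_right (h2 i)
  have := hli.fintype_card_le_finrank
  simpa using this

private theorem fam_split {K V : Type} [Field K] [AddCommGroup V] [Module K V]
    {C : Subalgebra K (Module.End K V)} {N : ℕ}
    {ε : Fin N → Module.End K V} (h : Fam C N ε) (j : Fin N) {p : Module.End K V} (hp : p ∈ C)
    (hp0 : p ≠ 0) (hpe : ε j - p ≠ 0) (hpp : p * p = p) (h1 : ε j * p = p) (h2 : p * ε j = p) :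
    ∃ ε' : Fin (N + 1) → Module.End K V, Fam C (N + 1) ε' := by
  obtain ⟨a1, a2, a3, a4, a5⟩ := h
  refine ⟨Fin.cons p (Function.update ε j (ε j - p)), ?_, ?_, ?_, ?_, ?_⟩
  · intro i
    refine Fin.cases ?_ (fun l => ?_) i
    · exact hp
    · rw [Fin.cons_succ]
      by_cases hl : l = j
      · subst hl
        rw [Function.update_self]
        exact C.sub_mem (a1 l) hp
      · rw [Function.update_of_ne hl]
        exact a1 l
  · intro i
    refine Fin.cases ?_ (fun l => ?_) i
    · exact hp0
    · rw [Fin.cons_succ]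
      by_cases hl : l = j
      · subst hl
        rw [Function.update_self]
        exact hpe
      · rw [Function.update_of_ne hl]
        exact a2 l
  · rw [Fin.sum_univ_succ]
    simp only [Fin.cons_zero, Fin.cons_succ]
    rw [Finset.sum_update_of_mem (Finset.mem_univ j)]
    have h3 : ∑ x ∈ Finset.univ \ {j}, ε x = 1 - ε j := by
      rw [← a3, ← Finset.sum_sdiff (Finset.subset_univ {j}), Finset.sum_singleton]
      abel
    rw [h3]
    abel
  · intro i
    refine Fin.cases ?_ (fun l => ?_) i
    · exact hpp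
    · rw [Fin.cons_succ]
      by_cases hl : l = j
      · subst hl
        rw [Function.update_self, sub_mul, mul_sub, mul_sub, a4, h1, h2, hpp]
        abel
      · rw [Function.update_of_ne hl]
        exact a4 l
  · have c1 : ∀ l, p * (Function.update ε j (ε j - p)) l = 0 := by
      intro l
      by_cases hl : l = j
      · subst hl
        rw [Function.update_self, mul_sub, h2, hpp, sub_self]
      · rw [Function.update_of_ne hl, ← h2, mul_assoc, a5 j l (Ne.symm hl), mul_zero]
    have c2 : ∀ l, (Function.update ε j (ε j - p)) l * p = 0 := by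
      intro l
      by_cases hl : l = j
      · subst hl
        rw [Function.update_self, sub_mul, h1, hpp, sub_self]
      · rw [Function.update_of_ne hl, ← h1, ← mul_assoc, a5 l j hl, zero_mul]
    intro i k
    refine Fin.cases ?_ (fun l => ?_) i
    · refine Fin.cases ?_ (fun l' => ?_) k
      · intro h; exact absurd rfl h
      · intro _
        rw [Fin.cons_zero, Fin.cons_succ]
        exact c1 l'
    · refine Fin.cases ?_ (fun l' => ?_) k
      · intro _
        rw [Fin.cons_zero, Fin.cons_succ]
        exact c2 l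
      · intro hne
        have hll : l ≠ l' := fun h => hne (by rw [h])
        rw [Fin.cons_succ, Fin.cons_succ]
        by_cases hl : l = j
        · subst hl
          rw [Function.update_self, Function.update_of_ne (Ne.symm hll), sub_mul, a5 l l' hll,
            ← h2, mul_assoc, a5 l l' hll, mul_zero, sub_zero]
        · by_cases hl' : l' = j
          · subst hl'
            rw [Function.update_self, Function.update_of_ne hll, mul_sub, a5 l l' hll,
              ← h1, ← mul_assoc, a5 l l' hll, zero_mul, sub_zero]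
          · rw [Function.update_of_ne hl, Function.update_of_ne hl']
            exact a5 l l' hll

theorem exists_min {K V : Type} [Field K] [IsAlgClosed K] [AddCommGroup V] [Module K V]
    [FiniteDimensional K V] (C : Subalgebra K (Module.End K V)) (hreg : RegC C) :
    ∃ (N : ℕ) (ε : Fin N → Module.End K V), MinIdem C ε := by
  obtain ⟨S, hS⟩ : ∃ S : Set ℕ, S = {N | ∃ ε : Fin N → Module.End K V, Fam C N ε} := ⟨_, rfl⟩
  have hne : S.Nonempty := by
    rw [hS]
    by_cases h1 : (1 : Module.End K V) = 0
    · refine ⟨0, fun _ => 0, fun j => j.elim0, fun j => j.elim0, ?_, fun j => j.elim0,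
        fun j => j.elim0⟩
      rw [h1]; simp
    · refine ⟨1, fun _ => 1, fun _ => C.one_mem, fun _ => h1, by simp, fun _ => mul_one 1, ?_⟩
      intro j k hjk
      exact absurd (Subsingleton.elim j k) hjk
  have hbd : BddAbove S := by
    refine ⟨finrank K (Module.End K V), ?_⟩
    rintro N hN
    rw [hS] at hN
    obtain ⟨ε, hε⟩ := hN
    exact fam_card hε
  have hmem := Nat.sSup_mem hne hbd
  obtain ⟨N, hN⟩ : ∃ N, N = sSup S := ⟨_, rfl⟩
  have hmax : N + 1 ∉ S := by
    intro h
    have := le_csSup hbd h
    omega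
  rw [← hN, hS] at hmem
  obtain ⟨ε, hε⟩ := hmem
  have hfam := hε
  obtain ⟨a1, a2, a3, a4, a5⟩ := hε
  refine ⟨N, ε, ⟨a1, a2, a3, a4, a5, ?_⟩⟩
  intro j c hc
  obtain ⟨a, ha⟩ : ∃ a, a = ε j * c * ε j := ⟨_, rfl⟩
  rw [← ha]
  have haC : a ∈ C := by
    rw [ha]
    exact C.mul_mem (C.mul_mem (a1 j) hc) (a1 j)
  have hea : ε j * a = a := by rw [ha, ← mul_assoc, ← mul_assoc, a4]
  have hae : a * ε j = a := by rw [ha, mul_assoc, a4]
  have hmaps : ∀ x ∈ LinearMap.range (ε j), a x ∈ LinearMap.range (ε j) := by
    intro x _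
    exact ⟨a x, by rw [← Module.End.mul_apply, hea]⟩
  have hnt : Nontrivial (LinearMap.range (ε j)) := by
    rw [Submodule.nontrivial_iff_ne_bot, Ne, LinearMap.range_eq_bot]
    exact a2 j
  obtain ⟨t, ht⟩ := Module.End.exists_eigenvalue (a.restrict hmaps)
  obtain ⟨w, hw⟩ := ht.exists_hasEigenvector
  have hw1 : a (w : V) = t • (w : V) := by
    have h1 := hw.apply_eq_smul
    have h2 := congrArg Subtype.val h1
    simpa using h2
  have hw0 : (w : V) ≠ 0 := by
    intro h
    apply hw.2
    exact Subtype.ext h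
  have hwe : ε j (w : V) = w := by
    obtain ⟨y, hy⟩ := w.2
    rw [← hy, ← Module.End.mul_apply, a4]
  by_contra hcon
  push Not at hcon
  obtain ⟨a', ha'⟩ : ∃ a', a' = a - t • ε j := ⟨_, rfl⟩
  have ha'0 : a' ≠ 0 := by
    intro h
    apply hcon t
    rw [ha', sub_eq_zero] at h
    exact h
  have ha'C : a' ∈ C := by
    rw [ha']
    exact C.sub_mem haC (C.smul_mem (a1 j) t)
  have e1 : ε j * a' = a' := by rw [ha', mul_sub, hea, mul_smul_comm, a4]
  have e2 : a' * ε j = a' := by rw [ha', sub_mul, hae, smul_mul_assoc, a4]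
  have e3 : a' (w : V) = 0 := by
    rw [ha', LinearMap.sub_apply, LinearMap.smul_apply, hw1, hwe, sub_self]
  obtain ⟨d, hdC, hd⟩ := hreg a' ha'C
  obtain ⟨p, hp⟩ : ∃ p, p = ε j * d * a' := ⟨_, rfl⟩
  have hpC : p ∈ C := by
    rw [hp]
    exact C.mul_mem (C.mul_mem (a1 j) hdC) ha'C
  have hp1 : ε j * p = p := by rw [hp, ← mul_assoc, ← mul_assoc, a4]
  have hp2 : p * ε j = p := by rw [hp, mul_assoc, e2]
  have hap : a' * p = a' := by
    calc a' * p = (a' * ε j) * d * a' := by rw [hp]; simp only [mul_assoc]
      _ = a' := by rw [e2, hd]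
  have hpp : p * p = p := by
    calc p * p = ε j * d * (a' * p) := by rw [hp]; simp only [mul_assoc]
      _ = p := by rw [hap, hp]
  have hp0 : p ≠ 0 := by
    intro h
    apply ha'0
    rw [← hap, h, mul_zero]
  have hpe : ε j - p ≠ 0 := by
    intro h
    apply hw0
    have h1 : (ε j - p) (w : V) = (w : V) := by
      rw [LinearMap.sub_apply, hwe, hp, Module.End.mul_apply, e3, map_zero, sub_zero]
    rw [← h1, h, LinearMap.zero_apply]
  apply hmax
  rw [hS]
  exact fam_split hfam j hpC hp0 hpe hpp hp1 hp2

end Pool.Agent.Lib.MP_640417_ag.Fg
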