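import Pool.Agent.Lib.MP_640417_ag.Fr.Defs

/-!
# Forms which are generated by pairings and determinants
-/

set_option autoImplicit false

namespace Pool.Agent.Lib.MP_640417_ag.Fg

open Module TensorProduct MeasureTheory Pool.Agent.Lib.MP_640417_ag.Fr

/-- The products of pairings `form (c x) y`, `c ∈ C`, and determinants `det_W (p₁ x₁, .., p_d x_d)`, `W` a subspace
with the property `St`, `p i : V → W` in `C`, in disjoint sets of variables. -/
inductive Mono {K V : Type} [Field K] [AddCommGroup V] [Module K V]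
    (form : LinearMap.BilinForm K V) (C : Set (Module.End K V)) (St : Submodule K V → Prop) :
    (k : ℕ) → ((Fin k → V) → K) → Prop
  | const (a : K) : Mono form C St 0 fun _ => a
  | pair (c : Module.End K V) (hc : c ∈ C) : Mono form C St 2 fun v => form (c (v 0)) (v 1)
  | det (d : ℕ) (W : Submodule K V) (hW : St W) (b : Basis (Fin d) K W) (p : Fin d → V →ₗ[K] W)
      (hp : ∀ i, W.subtype ∘ₗ p i ∈ C) : Mono form C St d fun v => b.det fun i => p i (v i)
  | mul (a b k : ℕ) (e : Fin a ⊕ Fin b ≃ Fin k) (f : (Fin a → V) → K) (g : (Fin b → V) → K) :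
      Mono form C St a f → Mono form C St b g →
      Mono form C St k fun v => f (fun i => v (e (Sum.inl i))) * g (fun i => v (e (Sum.inr i)))

variable {Γ : Type} [Group Γ] [TopologicalSpace Γ] {F : Type} [Field F]
  [TopologicalSpace F] {V : Type} [AddCommGroup V] [Module F V]

/-- A Tate form in `k` variables: its square is multiplied by `χ ^ (-k)` by an open subgroup. -/
def TateG (ρ : FormRep Γ F V) (k : ℕ) (f : MultilinearMap F (fun _ : Fin k => V) F) : Prop :=
  ∃ U : OpenSubgroup Γ, ∀ γ ∈ U, ∀ v w,
    (ρ.χ γ : F) ^ k * (f (fun j => ρ.T γ (v j)) * f (fun j => ρ.T γ (w j))) = f v * f w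

/-- The subspace `W` is stable under an open subgroup. -/
def StableK (ρ : FormRep Γ F V) (W : Submodule (AlgebraicClosure F) (AlgebraicClosure F ⊗[F] V)) :
    Prop :=
  ∃ U : OpenSubgroup Γ, ∀ γ ∈ U, ∀ w ∈ W, (ρ.T γ).baseChange (AlgebraicClosure F) w ∈ W

/-- A Tate form over the algebraic closure. -/
def TateK (ρ : FormRep Γ F V) (k : ℕ)
    (m : (Fin k → AlgebraicClosure F ⊗[F] V) → AlgebraicClosure F) : Prop :=
  ∃ U : OpenSubgroup Γ, ∀ γ ∈ U, ∀ v w, algebraMap F (AlgebraicClosure F) (ρ.χ γ : F) ^ k *
    (m (fun j => (ρ.T γ).baseChange (AlgebraicClosure F) (v j)) *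
      m (fun j => (ρ.T γ).baseChange (AlgebraicClosure F) (w j))) = m v * m w

/-- The form `f` is over the algebraic closure a linear combination of Tate forms which are products of pairings
`form (c x) y` and determinants `det_W (p₁ x₁, .., p_d x_d)`, where `c`, `p₁`, .., `p_d` commute with an open
subgroup, in disjoint sets of variables. -/
def Generated (ρ : FormRep Γ F V) (k : ℕ) (f : MultilinearMap F (fun _ : Fin k => V) F) : Prop :=
  ∃ g ∈ Submodule.span (AlgebraicClosure F)
      {m : (Fin k → AlgebraicClosure F ⊗[F] V) → AlgebraicClosure F | TateK ρ k m ∧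
        Mono (ρ.form.baseChange (AlgebraicClosure F)) {c | InComK ρ c} (StableK ρ) k m},
    ∀ v, g (fun j => 1 ⊗ₜ[F] v j) = algebraMap F (AlgebraicClosure F) (f v)

/-- The property `P` holds on an open set of full measure in some open subgroup. (By the density theorem of
Chebotarev it then holds for a set of Frobenius elements of density one, over a finite extension.) -/
def Near [MeasurableSpace Γ] (ν : Measure Γ) (P : Γ → Prop) : Prop :=
  ∃ (U : OpenSubgroup Γ) (O : Set Γ), IsOpen O ∧ O ⊆ U ∧ ν ((U : Set Γ) \ O) = 0 ∧ ∀ γ ∈ O, P γ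

end Pool.Agent.Lib.MP_640417_ag.Fg
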